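import Pool.Agent.Lib.H30F.SD
import Pool.Agent.Lib.H56V.P2

/-!
# H30F, file L: the trace argument for a DECREASING family of acyclic complexes
-/

set_option autoImplicit false

namespace H30F

open Finset H98P H63F

/-- As `H56V.trace_pair`, with `Y` decreasing. -/
theorem trace_dec {E C : Type*} [Fintype E] [DecidableEq E] [Fintype C] [DecidableEq C]
    (K : Finset E → Prop) (L : Finset C → Prop)
    (hK : Dn K) (hL : Dn L) (hK0 : K ∅) (hAK : AC K) (Y : Finset E → Finset C → Prop)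
    (Xi : Finset C → Finset E → Prop)
    (hYL : ∀ G T, K G → G.Nonempty → Y G T → L T)
    (hYm : ∀ G G', G ⊆ G' → K G' → G.Nonempty → ∀ T, Y G' T → Y G T)
    (hY0 : ∀ G, K G → G.Nonempty → Y G ∅)
    (hY : ∀ G, K G → G.Nonempty → AC (Y G))
    (hXK : ∀ T G, L T → T.Nonempty → Xi T G → K G)
    (hXd : ∀ T, L T → T.Nonempty → Dn (Xi T))
    (hXm : ∀ T T', T ⊆ T' → L T' → T.Nonempty → ∀ G, Xi T G → Xi T' G)
    (hX0 : ∀ T, L T → T.Nonempty → Xi T ∅)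
    (hX : ∀ T, L T → T.Nonempty → AC (Xi T)) :
    ∃ (G : Finset E) (T : Finset C), G.Nonempty ∧ K G ∧ T.Nonempty ∧ Y G T ∧ Xi T G := by
  obtain ⟨c, T, hc, hKc, hT, ⟨G, hG, hYG⟩, hXi⟩ := H56V.trace_pair (E := Finset E) (C := C)
    (Ch fun G : Finset E => K G ∧ G.Nonempty) L ch_dn hL (ch_empty _) (ac_sd hK hK0 hAK)
    (fun c T => ∃ G ∈ c, Y G T)
    (fun T => Ch fun F : Finset E => Xi T F ∧ F.Nonempty)
    (fun c T hc _ ⟨G, hG, h⟩ => hYL G T (hc.1 G hG).1 (hc.1 G hG).2 h)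
    (fun c c' hcc _ _ T ⟨G, hG, h⟩ => ⟨G, hcc hG, h⟩)
    (fun c hc ⟨G, hG⟩ => ⟨G, hG, hY0 G (hc.1 G hG).1 (hc.1 G hG).2⟩)
    (fun c hc hn => by
      obtain ⟨m, hm, h⟩ := ch_min hc hn
      refine H56V.hc_of_ac (ac_congr (K := Y m) (fun T => ?_)
        (hY m (hc.1 m hm).1 (hc.1 m hm).2)) _
      exact ⟨fun h1 => ⟨m, hm, h1⟩, fun ⟨G, hG, h1⟩ =>
        hYm m G (h G hG) (hc.1 G hG).1 (hc.1 m hm).2 T h1⟩)
    (fun T c hT hn hc => ch_mono (fun F hF => ⟨hXK T F hT hn hF.1, hF.2⟩) hc)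
    (fun T T' hTT hT' hn c hc => ch_mono (fun F hF => ⟨hXm T T' hTT hT' hn F hF.1, hF.2⟩) hc)
    (fun T _ _ => ch_empty _)
    (fun T hT hn => ac_sd (hXd T hT hn) (hX0 T hT hn) (hX T hT hn))
  exact ⟨G, T, (hKc.1 G hG).2, (hKc.1 G hG).1, hT, hYG, (hXi.1 G hG).1⟩

/-- A DECREASING FAMILY OF ACYCLIC SUBCOMPLEXES OF `K` HAS A FIXED SIMPLEX. -/
theorem fix_dec {E : Type*} [Fintype E] [DecidableEq E]
    (K : Finset E → Prop) (hK : Dn K) (hK0 : K ∅) (hAK : AC K) (N : Finset E → Finset E → Prop)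
    (hNK : ∀ G F, K G → G.Nonempty → N G F → K F)
    (hNd : ∀ G, K G → G.Nonempty → Dn (N G))
    (hNm : ∀ G G', G ⊆ G' → K G' → G.Nonempty → ∀ F, N G' F → N G F)
    (hN0 : ∀ G, K G → G.Nonempty → N G ∅)
    (hN : ∀ G, K G → G.Nonempty → AC (N G)) :
    ∃ G : Finset E, G.Nonempty ∧ K G ∧ N G G := by
  obtain ⟨G, T, h1, h2, h3, h4, h5, -⟩ := trace_dec (C := E) K K hK hK hK0 hAK N
    (fun T F => F ⊆ T ∧ K F) hNK hNm hN0 hN (fun _ _ _ _ h => h.2)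
    (fun T _ _ s t hst h => ⟨hst.trans h.1, hK _ _ hst h.2⟩)
    (fun T T' hTT _ _ F h => ⟨h.1.trans hTT, h.2⟩)
    (fun T _ _ => ⟨empty_subset _, hK0⟩)
    (fun T hT hn => ac_congr (K := fun s => s ⊆ T)
      (fun s => ⟨fun h => ⟨h, hK _ _ h hT⟩, fun h => h.1⟩) (ac_simplex hn))
  exact ⟨G, h1, h2, hNd G h2 h1 _ _ h5 h4⟩

end H30F
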