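import Pool.Agent.Lib.H98M.M0
import Pool.Agent.Lib.H30F.L

/-!
# H30F, file BP: edge sets which contain a full cut of their vertex set; the functor theorem
-/

set_option autoImplicit false
set_option linter.unusedSectionVars false

namespace H30F

open Finset H98P H98Z H98M H63F

variable {V : Type*} [Fintype V] [DecidableEq V]

/-- GENERAL FORM: if `Un` is acyclic for every plane set of edges of `W` outside `M`, then the
complex of the plane subsets of `M` is acyclic. -/
theorem acy_of_un {cross : Sym2 V → Sym2 V → Prop} (hsymm : ∀ e f, cross e f → cross f e)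
    {W : Finset V} {M : Finset (Sym2 V)} (hM : M ⊆ LW W)
    (h : ∀ Y ⊆ LW W \ M, Plane cross Y → Acy cross (Un cross W Y)) : Acy cross M := by
  classical
  have key : ∀ (k : ℕ) (Y : Finset (Sym2 V)), Y ⊆ LW W \ M → Plane cross Y →
      (LW W).card ≤ Y.card + k → Acy cross (Miss cross M Y) := by
    intro k
    induction k with
    | zero =>
      intro Y hY hp hc
      have h1 : (Miss cross M Y) = Un cross W Y := by
        ext e
        rw [mem_un, mem_miss]
        constructor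
        · rintro ⟨h2, h3⟩
          exact ⟨hM h2, h3, fun h4 => (mem_sdiff.1 (hY h4)).2 h2⟩
        · rintro ⟨h2, h3, h4⟩
          have h5 : Y = LW W := eq_of_subset_of_card_le (hY.trans sdiff_subset) (by omega)
          exact absurd (h5 ▸ h2) h4
      rw [h1]
      exact h Y hY hp
    | succ k ih =>
      intro Y hY hp hc
      have hd : Disjoint (Miss cross M Y) (Miss cross (LW W \ M) Y \ Y) := by
        rw [disjoint_left]
        intro e he hf
        rw [mem_sdiff, mem_miss, mem_sdiff] at hf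
        exact hf.1.1.2 (mem_miss.1 he).1
      have hu : Miss cross M Y ∪ (Miss cross (LW W \ M) Y \ Y) = Un cross W Y := by
        ext e
        rw [mem_union, mem_sdiff, mem_un, mem_miss, mem_miss, mem_sdiff]
        constructor
        · rintro (⟨h2, h3⟩ | ⟨⟨⟨h2, h3⟩, h4⟩, h5⟩)
          · exact ⟨hM h2, h3, fun h4 => (mem_sdiff.1 (hY h4)).2 h2⟩
          · exact ⟨h2, h4, h5⟩
        · rintro ⟨h2, h3, h4⟩
          by_cases h5 : e ∈ M
          · exact Or.inl ⟨h5, h3⟩
          · exact Or.inr ⟨⟨⟨h2, h5⟩, h3⟩, h4⟩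
      refine split_mp hsymm hd ?_ (by rw [hu]; exact h Y hY hp)
      intro Y' hY' hn hp'
      rw [miss_miss]
      have h1 : ∀ e ∈ Y', e ∈ LW W \ M ∧ (∀ y ∈ Y, ¬ cross e y) ∧ e ∉ Y := by
        intro e he
        have h2 := hY' he
        rw [mem_sdiff, mem_miss] at h2
        exact ⟨h2.1.1, h2.1.2, h2.2⟩
      refine ih (Y ∪ Y') (union_subset hY fun e he => (h1 e he).1)
        (plane_un hsymm hp hp' fun e he f hf hx => (h1 f hf).2.1 e he (hsymm _ _ hx)) ?_
      have h3 : Disjoint Y Y' := by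
        rw [disjoint_left]
        exact fun e he hf => (h1 e hf).2.2 he
      rw [card_union_of_disjoint h3]
      have := hn.card_pos
      omega
  have h1 := key (LW W).card ∅ (empty_subset _) (fun e he => absurd he (notMem_empty e)) (by simp)
  have h2 : Miss cross M ∅ = M := by
    ext e
    rw [mem_miss]
    exact ⟨fun h => h.1, fun h => ⟨h, fun y hy => absurd hy (notMem_empty y)⟩⟩
  rwa [h2] at h1

/-- `M` is a set of edges of `W` which contains all the edges between the two parts of a partition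
of `W`. -/
def HasCut (W : Finset V) (M : Finset (Sym2 V)) : Prop :=
  M ⊆ LW W ∧ ∃ C D : Finset V, C.Nonempty ∧ D.Nonempty ∧ Disjoint C D ∧ C ∪ D = W ∧
    ∀ x ∈ C, ∀ y ∈ D, s(x, y) ∈ M

theorem acy_hasCut {cross : Sym2 V → Sym2 V → Prop} (hsymm : ∀ e f, cross e f → cross f e)
    {W : Finset V} (hHD : HD cross W) {M : Finset (Sym2 V)} (hM : HasCut W M) : Acy cross M := by
  obtain ⟨hM, C, D, hC, hD, hCD, hW, h⟩ := hM
  refine acy_of_un hsymm hM fun Y hY hp => hHD Y (hY.trans sdiff_subset) hp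
    ⟨C, D, hC, hD, hCD, hW, fun x hx y hy hxy => (mem_sdiff.1 (hY hxy)).2 (h x hx y hy)⟩

theorem mem_LW {W : Finset V} {x y : V} (hx : x ∈ W) (hy : y ∈ W) (h : x ≠ y) :
    s(x, y) ∈ LW W := by
  unfold LW
  rw [mem_filter, mk_mem_sym2_iff]
  exact ⟨⟨hx, hy⟩, fun hd => h (by simpa using hd)⟩

/-- The complement of a disconnected set contains a cut. -/
theorem hasCut_compl {W : Finset V} {G : Finset (Sym2 V)} (h : Disc W G) :
    HasCut W (LW W \ G) := by
  obtain ⟨C, D, hC, hD, hCD, hW, h⟩ := h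
  refine ⟨sdiff_subset, C, D, hC, hD, hCD, hW, fun x hx y hy => mem_sdiff.2 ⟨?_, h x hx y hy⟩⟩
  exact mem_LW (hW ▸ mem_union_left _ hx) (hW ▸ mem_union_right _ hy)
    fun e => disjoint_left.1 hCD hx (e ▸ hy)

/-- THE FUNCTOR THEOREM (scheme of helper41): `X G` a family of vertex sets on which the plane set
`G` is disconnected, decreasing in `G`. Then for some nonempty plane `G` the order complex of `X G`
is not acyclic. -/
theorem functor {cross : Sym2 V → Sym2 V → Prop} (hsymm : ∀ e f, cross e f → cross f e)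
    (hHD : ∀ W, HD cross W) (hV : ∃ x y : V, x ≠ y)
    (X : Finset (Sym2 V) → Finset V → Prop)
    (hXm : ∀ G G', G ⊆ G' → G' ⊆ LW univ → Plane cross G' → G.Nonempty → ∀ W, X G' W → X G W)
    (hXd : ∀ G W, G ⊆ LW univ → Plane cross G → G.Nonempty → X G W → Disc W G) :
    ∃ G : Finset (Sym2 V), G.Nonempty ∧ G ⊆ LW univ ∧ Plane cross G ∧ ¬ AC (Ch (X G)) := by
  classical
  by_contra hcon
  push Not at hcon
  obtain ⟨x, y, hxy⟩ := hV
  have hK : Acy cross (LW (univ : Finset V)) := by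
    refine acy_hasCut hsymm (hHD univ) (W := univ) ⟨Subset.rfl, {x}, univ \ {x}, singleton_nonempty x,
      ⟨y, by simp [Ne.symm hxy]⟩, disjoint_sdiff, by simp, ?_⟩
    intro a ha b hb
    refine mem_LW (mem_univ _) (mem_univ _) fun e => ?_
    subst e
    exact (mem_sdiff.1 hb).2 ha
  obtain ⟨G, T, hGn, hGK, hTn, hYG, p, hp, hGp, -⟩ := trace_dec (E := Sym2 V)
    (C := Finset V × Finset (Sym2 V))
    (fun s => s ⊆ LW univ ∧ Plane cross s)
    (Ch fun p : Finset V × Finset (Sym2 V) => HasCut p.1 p.2)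
    (fun s t hst h => ⟨hst.trans h.1, plane_sub hst h.2⟩) ch_dn
    ⟨empty_subset _, fun e he => absurd he (notMem_empty e)⟩ hK
    (fun G => Ch fun p : Finset V × Finset (Sym2 V) => HasCut p.1 p.2 ∧ X G p.1 ∧ Disjoint p.2 G)
    (fun T F => ∃ p ∈ T, F ⊆ p.2 ∧ Plane cross F)
    (fun G T _ _ h => ch_mono (fun p hp => hp.1) h)
    (fun G G' hGG hG' hn T h => ch_mono (fun p hp => ⟨hp.1, hXm G G' hGG hG'.1 hG'.2 hn _ hp.2.1,
      hp.2.2.mono_right hGG⟩) h)
    (fun G _ _ => ch_empty _)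
    (fun G hG hn => by
      refine ac_closure (fun p : Finset V × Finset (Sym2 V) => p.1)
        (fun W : Finset V => (W, LW W \ G)) (Q := X G) ?_ ?_ ?_ ?_ ?_
        (hcon G hn hG.1 hG.2)
      · exact fun p hp => hp.2.1
      · exact fun W hW => ⟨hasCut_compl (hXd G W hG.1 hG.2 hn hW), hW, sdiff_disjoint⟩
      · exact fun p p' _ _ h => h.1
      · intro W W' _ _ h
        refine ⟨h, sdiff_subset_sdiff (fun e he => ?_) Subset.rfl⟩
        unfold LW at he ⊢
        rw [mem_filter] at he ⊢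
        exact ⟨Finset.sym2_mono h he.1, he.2⟩
      · intro p hp
        exact ⟨le_refl _, fun e he => mem_sdiff.2 ⟨hp.1.1 he, disjoint_left.1 hp.2.2 he⟩⟩)
    (fun T F hT _ ⟨p, hp, h1, h2⟩ => ⟨h1.trans ((hT.1 p hp).1.trans fun e he => by
      unfold LW at he ⊢
      rw [mem_filter] at he ⊢
      exact ⟨Finset.sym2_mono (subset_univ _) he.1, he.2⟩), h2⟩)
    (fun T _ _ s t hst ⟨p, hp, h1, h2⟩ => ⟨p, hp, hst.trans h1, plane_sub hst h2⟩)
    (fun T T' hTT _ _ F ⟨p, hp, h⟩ => ⟨p, hTT hp, h⟩)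
    (fun T _ ⟨p, hp⟩ => ⟨p, hp, empty_subset _, fun e he => absurd he (notMem_empty e)⟩)
    (fun T hT hn => by
      obtain ⟨m, hm, h⟩ := ch_max hT hn
      refine ac_congr (K := fun s => s ⊆ m.2 ∧ Plane cross s) (fun s => ?_)
        (acy_hasCut hsymm (hHD m.1) (hT.1 m hm))
      exact ⟨fun h1 => ⟨m, hm, h1⟩, fun ⟨p, hp, h1, h2⟩ => ⟨h1.trans (h p hp).2, h2⟩⟩)
  obtain ⟨e, he⟩ := hGn
  exact disjoint_left.1 (hYG.1 p hp).2.2 (hGp he) he

end H30F
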