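import Mathlib

/-!
# Chunk ASY

The five error terms are `O(x / (log x)^(21/20))`.

PROOF. Put `L = log x → ∞`, `l = log L → ∞` (`l ^ a = o(L ^ ε)`: `isLittleO_log_rpow_rpow_atTop` or
`isLittleO_pow_log_id_atTop` composed with `Real.tendsto_log_atTop`), `√x = o(x / L^2)`.
1. `√x + √x + 2 ≤ x / L^(21/20)`; 2. `2 x / L^2 ≤ ..`; 3. `x / L^0.069 * (2000 l) / L = x (2000 l) / L^(1.069)` and
`1.069 > 1.05`; 4. `x l^36 (2000 l)^2 / L^2 * L^(0.49 + 0.36) = 2000^2 x l^38 / L^(1.15)` and `1.15 > 1.05`.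
-/

namespace Pool.Agent.Lib.H30F

open Filter

theorem asy_log : Tendsto (fun x : ℕ => Real.log x) atTop atTop :=
  Real.tendsto_log_atTop.comp tendsto_natCast_atTop_atTop

/-- `c (log y)^s ≤ y^r` eventually -/
theorem asy_lo (s r c : ℝ) (hr : 0 < r) (hc : 0 < c) :
    ∀ᶠ y : ℝ in atTop, c * Real.log y ^ s ≤ y ^ r := by
  have h := (isLittleO_log_rpow_rpow_atTop s hr).bound (show 0 < c⁻¹ by positivity)
  filter_upwards [h, eventually_ge_atTop 1] with y hy h1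
  have h2 : 0 ≤ Real.log y := Real.log_nonneg h1
  rw [Real.norm_of_nonneg (Real.rpow_nonneg h2 _), Real.norm_of_nonneg (by positivity)] at hy
  calc c * Real.log y ^ s ≤ c * (c⁻¹ * y ^ r) := by gcongr
    _ = y ^ r := by field_simp

theorem asy_one : ∀ᶠ x : ℕ in atTop,
    (x : ℝ) ^ (1 / 2 : ℝ) + (x : ℝ) ^ (1 / 2 : ℝ) + 2 ≤ x / Real.log x ^ (21 / 20 : ℝ) := by
  have h := tendsto_natCast_atTop_atTop.eventually (asy_lo (21 / 20) (1 / 2) 4 (by norm_num) (by norm_num))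
  filter_upwards [h, asy_log.eventually (eventually_ge_atTop 1), eventually_ge_atTop 1] with x hx h1 h2
  have hx1 : (1 : ℝ) ≤ x := by exact_mod_cast h2
  have hL : 0 < Real.log x ^ (21 / 20 : ℝ) := Real.rpow_pos_of_pos (by linarith) _
  have hs : (1 : ℝ) ≤ (x : ℝ) ^ (1 / 2 : ℝ) := Real.one_le_rpow hx1 (by norm_num)
  have hss : (x : ℝ) ^ (1 / 2 : ℝ) * (x : ℝ) ^ (1 / 2 : ℝ) = x := by
    rw [← Real.rpow_add (by linarith)]
    norm_num
  rw [le_div_iff₀ hL]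
  calc ((x : ℝ) ^ (1 / 2 : ℝ) + (x : ℝ) ^ (1 / 2 : ℝ) + 2) * Real.log x ^ (21 / 20 : ℝ)
      ≤ (4 * (x : ℝ) ^ (1 / 2 : ℝ)) * Real.log x ^ (21 / 20 : ℝ) := by
        gcongr
        linarith
    _ = (x : ℝ) ^ (1 / 2 : ℝ) * (4 * Real.log x ^ (21 / 20 : ℝ)) := by ring
    _ ≤ (x : ℝ) ^ (1 / 2 : ℝ) * (x : ℝ) ^ (1 / 2 : ℝ) := by gcongr
    _ = x := hss

theorem asy_two : ∀ᶠ x : ℕ in atTop,
    2 * (x : ℝ) / Real.log x ^ 2 ≤ x / Real.log x ^ (21 / 20 : ℝ) := by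
  have h := (tendsto_rpow_atTop (show (0 : ℝ) < 19 / 20 by norm_num)).comp asy_log
  filter_upwards [h.eventually (eventually_ge_atTop 2),
    asy_log.eventually (eventually_ge_atTop 1)] with x hx h1
  simp only [Function.comp] at hx
  have hL : 0 < Real.log x := by linarith
  have e : Real.log x ^ 2 = Real.log x ^ (21 / 20 : ℝ) * Real.log x ^ (19 / 20 : ℝ) := by
    rw [← Real.rpow_add hL, ← Real.rpow_natCast]
    norm_num
  have p1 : 0 < Real.log x ^ (21 / 20 : ℝ) := by positivity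
  have p2 : 0 < Real.log x ^ (19 / 20 : ℝ) := by positivity
  rw [e, div_le_div_iff₀ (by positivity) p1]
  calc 2 * (x : ℝ) * Real.log x ^ (21 / 20 : ℝ)
      = x * (Real.log x ^ (21 / 20 : ℝ) * 2) := by ring
    _ ≤ x * (Real.log x ^ (21 / 20 : ℝ) * Real.log x ^ (19 / 20 : ℝ)) := by gcongr

theorem asy_three : ∀ᶠ x : ℕ in atTop,
    (x : ℝ) / Real.log x ^ (69 / 1000 : ℝ) * (2000 * Real.log (Real.log x) / Real.log x)
      ≤ x / Real.log x ^ (21 / 20 : ℝ) := by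
  have h := asy_log.eventually (asy_lo 1 (19 / 1000) 2000 (by norm_num) (by norm_num))
  filter_upwards [h, asy_log.eventually (eventually_ge_atTop 1)] with x hx h1
  rw [Real.rpow_one] at hx
  have hL : 0 < Real.log x := by linarith
  have e : Real.log x ^ (69 / 1000 : ℝ) * Real.log x =
      Real.log x ^ (21 / 20 : ℝ) * Real.log x ^ (19 / 1000 : ℝ) := by
    rw [← Real.rpow_add hL]
    nth_rewrite 2 [← Real.rpow_one (Real.log x)]
    rw [← Real.rpow_add hL]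
    norm_num
  have p1 : 0 < Real.log x ^ (21 / 20 : ℝ) := by positivity
  have p2 : 0 < Real.log x ^ (19 / 1000 : ℝ) := by positivity
  have p3 : 0 < Real.log x ^ (69 / 1000 : ℝ) := by positivity
  rw [div_mul_div_comm, e, div_le_div_iff₀ (by positivity) p1]
  calc (x : ℝ) * (2000 * Real.log (Real.log x)) * Real.log x ^ (21 / 20 : ℝ)
      = x * (Real.log x ^ (21 / 20 : ℝ) * (2000 * Real.log (Real.log x))) := by ring
    _ ≤ x * (Real.log x ^ (21 / 20 : ℝ) * Real.log x ^ (19 / 1000 : ℝ)) := by gcongr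

theorem asy_four : ∀ᶠ x : ℕ in atTop,
    (x : ℝ) * Real.log (Real.log x) ^ 36 * (2000 * Real.log (Real.log x) / Real.log x) ^ 2 *
      (Real.log x ^ (49 / 100 : ℝ) * Real.log x ^ (9 / 25 : ℝ))
      ≤ x / Real.log x ^ (21 / 20 : ℝ) := by
  have h := asy_log.eventually (asy_lo (38 : ℕ) (1 / 10) (2000 ^ 2) (by norm_num) (by norm_num))
  filter_upwards [h, asy_log.eventually (eventually_ge_atTop 1)] with x hx h1
  rw [Real.rpow_natCast] at hx
  have hL : 0 < Real.log x := by linarith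
  have p1 : 0 < Real.log x ^ (21 / 20 : ℝ) := by positivity
  have p2 : 0 < Real.log x ^ (1 / 10 : ℝ) := by positivity
  have e : Real.log x ^ (49 / 100 : ℝ) * Real.log x ^ (9 / 25 : ℝ) * Real.log x ^ (21 / 20 : ℝ) *
      Real.log x ^ (1 / 10 : ℝ) = Real.log x ^ 2 := by
    rw [← Real.rpow_add hL, ← Real.rpow_add hL, ← Real.rpow_add hL, ← Real.rpow_natCast]
    norm_num
  rw [le_div_iff₀ p1]
  have e2 : (x : ℝ) * Real.log (Real.log x) ^ 36 * (2000 * Real.log (Real.log x) / Real.log x) ^ 2 *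
      (Real.log x ^ (49 / 100 : ℝ) * Real.log x ^ (9 / 25 : ℝ)) * Real.log x ^ (21 / 20 : ℝ) =
      x * ((2000 ^ 2 * Real.log (Real.log x) ^ 38) / Real.log x ^ 2 *
        (Real.log x ^ (49 / 100 : ℝ) * Real.log x ^ (9 / 25 : ℝ) * Real.log x ^ (21 / 20 : ℝ))) := by
    ring
  rw [e2]
  have hx0 : (0 : ℝ) ≤ x := Nat.cast_nonneg x
  have p5 : 0 < Real.log x ^ (49 / 100 : ℝ) * Real.log x ^ (9 / 25 : ℝ) *
      Real.log x ^ (21 / 20 : ℝ) := by positivity
  have key : (2000 ^ 2 * Real.log (Real.log x) ^ 38) / Real.log x ^ 2 *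
        (Real.log x ^ (49 / 100 : ℝ) * Real.log x ^ (9 / 25 : ℝ) * Real.log x ^ (21 / 20 : ℝ)) ≤
      Real.log x ^ (1 / 10 : ℝ) / Real.log x ^ 2 *
        (Real.log x ^ (49 / 100 : ℝ) * Real.log x ^ (9 / 25 : ℝ) * Real.log x ^ (21 / 20 : ℝ)) := by
    gcongr
  have e3 : Real.log x ^ (1 / 10 : ℝ) / Real.log x ^ 2 *
        (Real.log x ^ (49 / 100 : ℝ) * Real.log x ^ (9 / 25 : ℝ) * Real.log x ^ (21 / 20 : ℝ)) =
      1 := by
    rw [div_mul_eq_mul_div, mul_comm (Real.log x ^ (1 / 10 : ℝ)), e]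
    exact div_self (by positivity)
  rw [e3] at key
  calc (x : ℝ) * ((2000 ^ 2 * Real.log (Real.log x) ^ 38) / Real.log x ^ 2 *
        (Real.log x ^ (49 / 100 : ℝ) * Real.log x ^ (9 / 25 : ℝ) * Real.log x ^ (21 / 20 : ℝ)))
      ≤ x * 1 := by gcongr
    _ = x := mul_one _

end Pool.Agent.Lib.H30F
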