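import Mathlib

/-!
# Chunk ASY2

Error terms (`l = log log x`, `L = log x`; powers of `l` are `o(L^η)`; see Asy.lean for the same kind of statements).
`asy_six`: the left side is `(4000 B)^2 x l^38 L^(-2+ε/2)` and the right side `x L^(-2+ε)`.
-/

namespace Pool.Agent.Lib.H30F

open Filter

theorem asy2_log : Tendsto (fun x : ℕ => Real.log x) atTop atTop :=
  Real.tendsto_log_atTop.comp tendsto_natCast_atTop_atTop

/-- `c (log y)^s ≤ y^r` eventually -/
theorem asy2_lo (s r c : ℝ) (hr : 0 < r) (hc : 0 < c) :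
    ∀ᶠ y : ℝ in atTop, c * Real.log y ^ s ≤ y ^ r := by
  have h := (isLittleO_log_rpow_rpow_atTop s hr).bound (show 0 < c⁻¹ by positivity)
  filter_upwards [h, eventually_ge_atTop 1] with y hy h1
  have h2 : 0 ≤ Real.log y := Real.log_nonneg h1
  rw [Real.norm_of_nonneg (Real.rpow_nonneg h2 _), Real.norm_of_nonneg (by positivity)] at hy
  calc c * Real.log y ^ s ≤ c * (c⁻¹ * y ^ r) := by gcongr
    _ = y ^ r := by field_simp

theorem asy_five : ∀ᶠ x : ℕ in atTop,
    (x : ℝ) ^ (1 / 2 : ℝ) + 2 ≤ x / Real.log x ^ (2 : ℝ) := by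
  have h := tendsto_natCast_atTop_atTop.eventually (asy2_lo 2 (1 / 2) 4 (by norm_num) (by norm_num))
  filter_upwards [h, asy2_log.eventually (eventually_ge_atTop 1), eventually_ge_atTop 1] with x hx h1 h2
  have hx1 : (1 : ℝ) ≤ x := by exact_mod_cast h2
  have hL : 0 < Real.log x ^ (2 : ℝ) := Real.rpow_pos_of_pos (by linarith) _
  have hs : (1 : ℝ) ≤ (x : ℝ) ^ (1 / 2 : ℝ) := Real.one_le_rpow hx1 (by norm_num)
  have hss : (x : ℝ) ^ (1 / 2 : ℝ) * (x : ℝ) ^ (1 / 2 : ℝ) = x := by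
    rw [← Real.rpow_add (by linarith)]
    norm_num
  rw [le_div_iff₀ hL]
  calc ((x : ℝ) ^ (1 / 2 : ℝ) + 2) * Real.log x ^ (2 : ℝ)
      ≤ (4 * (x : ℝ) ^ (1 / 2 : ℝ)) * Real.log x ^ (2 : ℝ) := by
        gcongr
        linarith
    _ = (x : ℝ) ^ (1 / 2 : ℝ) * (4 * Real.log x ^ (2 : ℝ)) := by ring
    _ ≤ (x : ℝ) ^ (1 / 2 : ℝ) * (x : ℝ) ^ (1 / 2 : ℝ) := by gcongr
    _ = x := hss

theorem asy_six (B : ℕ) (ε : ℝ) (hε : 0 < ε) : ∀ᶠ x : ℕ in atTop,
    (x : ℝ) * Real.log (Real.log x) ^ 36 *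
      (4000 * B * Real.log (Real.log x) / Real.log x) ^ 2 * Real.log x ^ (ε / 2)
      ≤ x / Real.log x ^ (2 - ε) := by
  have h := asy2_log.eventually (asy2_lo (38 : ℕ) (ε / 2) ((4000 * B) ^ 2 + 1) (by positivity)
    (by positivity))
  filter_upwards [h, asy2_log.eventually (eventually_ge_atTop 1)] with x hx h1
  rw [Real.rpow_natCast] at hx
  have hL : 0 < Real.log x := by linarith
  have hx0 : (0 : ℝ) ≤ x := Nat.cast_nonneg x
  have p1 : 0 < Real.log x ^ (2 - ε) := by positivity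
  have p2 : 0 < Real.log x ^ (ε / 2) := by positivity
  have e : Real.log x ^ (ε / 2) * Real.log x ^ (2 - ε) * Real.log x ^ (ε / 2) = Real.log x ^ 2 := by
    rw [← Real.rpow_add hL, ← Real.rpow_add hL, ← Real.rpow_natCast]
    congr 1
    push_cast
    ring
  have hll : (4000 * B : ℝ) ^ 2 * Real.log (Real.log x) ^ 38 ≤ Real.log x ^ (ε / 2) := by
    refine le_trans ?_ hx
    have : (0 : ℝ) ≤ Real.log (Real.log x) ^ 38 := by
      have : Real.log (Real.log x) ^ 38 = (Real.log (Real.log x) ^ 19) ^ 2 := by ring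
      rw [this]
      positivity
    nlinarith
  rw [le_div_iff₀ p1]
  have e2 : (x : ℝ) * Real.log (Real.log x) ^ 36 *
      (4000 * B * Real.log (Real.log x) / Real.log x) ^ 2 * Real.log x ^ (ε / 2) *
      Real.log x ^ (2 - ε) =
      x * (((4000 * B) ^ 2 * Real.log (Real.log x) ^ 38) / Real.log x ^ 2 *
        (Real.log x ^ (ε / 2) * Real.log x ^ (2 - ε))) := by
    ring
  rw [e2]
  have p5 : 0 < Real.log x ^ (ε / 2) * Real.log x ^ (2 - ε) := by positivity
  have key : ((4000 * B : ℝ) ^ 2 * Real.log (Real.log x) ^ 38) / Real.log x ^ 2 *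
        (Real.log x ^ (ε / 2) * Real.log x ^ (2 - ε)) ≤
      Real.log x ^ (ε / 2) / Real.log x ^ 2 *
        (Real.log x ^ (ε / 2) * Real.log x ^ (2 - ε)) := by
    gcongr
  have e3 : Real.log x ^ (ε / 2) / Real.log x ^ 2 *
        (Real.log x ^ (ε / 2) * Real.log x ^ (2 - ε)) = 1 := by
    have : Real.log x ^ (ε / 2) / Real.log x ^ 2 *
        (Real.log x ^ (ε / 2) * Real.log x ^ (2 - ε)) =
        (Real.log x ^ (ε / 2) * Real.log x ^ (2 - ε) * Real.log x ^ (ε / 2)) / Real.log x ^ 2 := by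
      ring
    rw [this, e]
    exact div_self (by positivity)
  rw [e3] at key
  calc (x : ℝ) * (((4000 * B) ^ 2 * Real.log (Real.log x) ^ 38) / Real.log x ^ 2 *
        (Real.log x ^ (ε / 2) * Real.log x ^ (2 - ε)))
      ≤ x * 1 := by gcongr
    _ = x := mul_one _

end Pool.Agent.Lib.H30F
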