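import Pool.Agent.Lib.H30F.TwoPow

/-!
# Chunk CASES

The case distinction for a solution `n` of `φ(n) = p - 1` different from `p` and `2p`.

PROOF. `n ≠ 0` because `φ(0) = 0 < p - 1`. If `n` has at least `K + 2` prime factors we are in the first case by
`two_pow_dvd_totient`. So let `n.primeFactors.card ≤ K + 1`.
* If `r ^ (n.factorization r) ≤ y` for all prime factors `r` then
  `n = ∏ r ^ (n.factorization r) ≤ y ^ card ≤ y ^ (K + 1)` (`Nat.factorization_prod_pow_eq_self`, `Finset.prod_le_pow_card`,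
  `1 ≤ y`), so `n ^ 2 ≤ y ^ (2 (K + 1)) ≤ x`, `n ≤ Nat.sqrt x` (`Nat.le_sqrt'`), and
  `p - 1 = φ(n) ≤ n ≤ Nat.sqrt x` (`Nat.totient_le`): second case.
* Otherwise let `r` be a prime factor with `y < r ^ a`, `a = n.factorization r ≥ 1`.
  - `a ≥ 2`: `j = a / 2 ≥ 1`, `2 j ≤ a ≤ 3 j`: `y < r ^ a ≤ r ^ (3 j) = (r ^ j) ^ 3`, and `(r ^ j) ^ 2 = r ^ (2 j)` divides
    `r ^ a` which divides `n` (`Nat.ordProj_dvd`), so `φ((r^j)^2) ∣ φ(n) = p - 1` (`Nat.totient_dvd_of_dvd`): third case.
  - `a = 1`: `q = r`, `m = n / q` (`ordCompl`), `n = q * m`, `q` and `m` coprime (`Nat.coprime_ordCompl`), so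
    `p - 1 = φ(n) = (q - 1) φ(m)`; `m.primeFactors` = `n.primeFactors.erase q` has `≤ K` elements;
    `m ≥ 3`: `m = 0` impossible, `m = 1` gives `n = q`, `q - 1 = p - 1`, `n = p`; `m = 2` gives
    `φ(n) = q - 1 = p - 1`, `n = 2 p`. Fourth case (`p = (q-1) φ(m) + 1` because `1 ≤ p`).
-/

namespace Pool.Agent.Lib.H30F

theorem cases_main (p x K y n : ℕ) (hp : p.Prime) (h3 : 3 ≤ p) (hy : 1 ≤ y)
    (hyx : y ^ (2 * (K + 1)) ≤ x) (hn : Nat.totient n = p - 1) (h1 : n ≠ p) (h2 : n ≠ 2 * p) :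
    2 ^ (K + 1) ∣ p - 1 ∨ p ≤ Nat.sqrt x + 1 ∨
    (∃ r j : ℕ, r.Prime ∧ 1 ≤ j ∧ y < (r ^ j) ^ 3 ∧ Nat.totient ((r ^ j) ^ 2) ∣ p - 1) ∨
    (∃ q m : ℕ, q.Prime ∧ y < q ∧ 3 ≤ m ∧ m.primeFactors.card ≤ K ∧
      p = (q - 1) * Nat.totient m + 1) := by
  have hn0 : n ≠ 0 := by
    rintro rfl
    simp at hn
    omega
  by_cases hc : K + 2 ≤ n.primeFactors.card
  · left
    rw [← hn]
    exact two_pow_dvd_totient n K hn0 hc
  push Not at hc
  by_cases hb : ∀ r ∈ n.primeFactors, r ^ (n.factorization r) ≤ y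
  · right; left
    have e1 : n = ∏ r ∈ n.primeFactors, r ^ (n.factorization r) := by
      conv_lhs => rw [← Nat.prod_factorization_pow_eq_self hn0]
      rfl
    have e2 : n ≤ y ^ (K + 1) := by
      calc n = ∏ r ∈ n.primeFactors, r ^ (n.factorization r) := e1
        _ ≤ y ^ n.primeFactors.card := Finset.prod_le_pow_card _ _ _ hb
        _ ≤ y ^ (K + 1) := Nat.pow_le_pow_right hy (by omega)
    have e3 : n * n ≤ x := by
      calc n * n ≤ y ^ (K + 1) * y ^ (K + 1) := Nat.mul_le_mul e2 e2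
        _ = y ^ (2 * (K + 1)) := by rw [← pow_add]; ring_nf
        _ ≤ x := hyx
    have e4 : n ≤ Nat.sqrt x := Nat.le_sqrt.mpr e3
    have e5 : Nat.totient n ≤ n := Nat.totient_le n
    omega
  push Not at hb
  obtain ⟨r, hr, hry⟩ := hb
  have hrp : r.Prime := Nat.prime_of_mem_primeFactors hr
  have ha : 1 ≤ n.factorization r :=
    (hrp.dvd_iff_one_le_factorization hn0).mp (Nat.dvd_of_mem_primeFactors hr)
  have hdiv : r ^ (n.factorization r) ∣ n := Nat.ordProj_dvd n r
  by_cases ha2 : 2 ≤ n.factorization r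
  · right; right; left
    refine ⟨r, n.factorization r / 2, hrp, by omega, ?_, ?_⟩
    · rw [← pow_mul]
      exact lt_of_lt_of_le hry (Nat.pow_le_pow_right hrp.one_lt.le (by omega))
    · rw [← pow_mul, ← hn]
      exact Nat.totient_dvd_of_dvd ((pow_dvd_pow r (by omega)).trans hdiv)
  · have ha1 : n.factorization r = 1 := by omega
    right; right; right
    rw [ha1, pow_one] at hry hdiv
    obtain ⟨m, hm⟩ := hdiv
    have hm0 : m ≠ 0 := by
      rintro rfl
      simp at hm
      exact hn0 hm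
    have hndvd : ¬ r ∣ m := by
      intro hd
      have : r ^ 2 ∣ n := by
        rw [hm, pow_two]
        exact Nat.mul_dvd_mul_left r hd
      have h' := (hrp.pow_dvd_iff_le_factorization hn0).mp this
      omega
    have hcop : Nat.Coprime r m := (Nat.Prime.coprime_iff_not_dvd hrp).mpr hndvd
    have htot : Nat.totient n = (r - 1) * Nat.totient m := by
      rw [hm, Nat.totient_mul hcop, Nat.totient_prime hrp]
    refine ⟨r, m, hrp, hry, ?_, ?_, ?_⟩
    · by_contra hlt
      have hm12 : m = 1 ∨ m = 2 := by omega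
      have hr2 := hrp.two_le
      rcases hm12 with rfl | rfl
      · simp at htot
        apply h1
        omega
      · simp at htot
        apply h2
        omega
    · have hpf : n.primeFactors = insert r m.primeFactors := by
        rw [hm, Nat.primeFactors_mul hrp.ne_zero hm0, Nat.Prime.primeFactors hrp]
        rfl
      have hnm : r ∉ m.primeFactors := fun h => hndvd (Nat.dvd_of_mem_primeFactors h)
      rw [hpf, Finset.card_insert_of_notMem hnm] at hc
      omega
    · rw [← htot, hn]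
      omega

end Pool.Agent.Lib.H30F
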