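import Mathlib

/-!
# Chunk OMB

Small facts on `Ω` and totients.
-/

namespace Pool.Agent.Lib.H30F

open ArithmeticFunction in
theorem omega_two_pow_dvd (k n : ℕ) (hn : n ≠ 0) (h : 2 ^ k ∣ n) :
    k ≤ ArithmeticFunction.cardFactors n := by
  obtain ⟨c, rfl⟩ := h
  have h2 : 2 ^ k ≠ 0 := by positivity
  have hc : c ≠ 0 := by
    rintro rfl
    simp at hn
  rw [cardFactors_mul h2 hc, cardFactors_apply_prime_pow Nat.prime_two]
  omega

theorem omega_dvd (a b : ℕ) (hb : b ≠ 0) (h : a ∣ b) :
    ArithmeticFunction.cardFactors a ≤ ArithmeticFunction.cardFactors b := by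
  obtain ⟨c, rfl⟩ := h
  have ha : a ≠ 0 := by
    rintro rfl
    simp at hb
  have hc : c ≠ 0 := by
    rintro rfl
    simp at hb
  rw [ArithmeticFunction.cardFactors_mul ha hc]
  omega

theorem omb_prod (S : Finset ℕ) (hS : ∀ r ∈ S, 2 ≤ r) :
    ArithmeticFunction.cardFactors (∏ r ∈ S, (r - 1))
      = ∑ r ∈ S, ArithmeticFunction.cardFactors (r - 1) := by
  induction S using Finset.induction_on with
  | empty => simp
  | insert a s ha ih =>
    have h1 : ∀ r ∈ s, 2 ≤ r := fun r hr => hS r (Finset.mem_insert_of_mem hr)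
    have h2 : ∏ r ∈ s, (r - 1) ≠ 0 := by
      apply Finset.prod_ne_zero_iff.mpr
      intro r hr
      have := h1 r hr
      omega
    have h3 : a - 1 ≠ 0 := by
      have := hS a (Finset.mem_insert_self a s)
      omega
    rw [Finset.prod_insert ha, Finset.sum_insert ha, ArithmeticFunction.cardFactors_mul h3 h2, ih h1]

theorem omega_totient (m T : ℕ) (hm : m ≠ 0) :
    (T + 1) * (m.primeFactors.filter
      (fun r => T < ArithmeticFunction.cardFactors (r - 1))).card
      ≤ ArithmeticFunction.cardFactors (Nat.totient m) := by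
  have hdvd : ∏ r ∈ m.primeFactors, (r - 1) ∣ Nat.totient m := by
    rw [Nat.totient_eq_prod_factorization hm, Finsupp.prod]
    exact Finset.prod_dvd_prod_of_dvd _ _ fun r _ => Dvd.intro_left _ rfl
  have h0 : Nat.totient m ≠ 0 := (Nat.totient_pos.mpr (Nat.pos_of_ne_zero hm)).ne'
  refine le_trans ?_ (omega_dvd _ _ h0 hdvd)
  rw [omb_prod _ fun r hr => (Nat.prime_of_mem_primeFactors hr).two_le]
  calc (T + 1) * (m.primeFactors.filter
      (fun r => T < ArithmeticFunction.cardFactors (r - 1))).card
      = ∑ r ∈ m.primeFactors.filter (fun r => T < ArithmeticFunction.cardFactors (r - 1)),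
          (T + 1) := by
        rw [Finset.sum_const, smul_eq_mul, mul_comm]
    _ ≤ ∑ r ∈ m.primeFactors.filter (fun r => T < ArithmeticFunction.cardFactors (r - 1)),
          ArithmeticFunction.cardFactors (r - 1) := by
        apply Finset.sum_le_sum
        intro r hr
        exact (Finset.mem_filter.mp hr).2
    _ ≤ ∑ r ∈ m.primeFactors, ArithmeticFunction.cardFactors (r - 1) :=
        Finset.sum_le_sum_of_subset (Finset.filter_subset _ _)

end Pool.Agent.Lib.H30F
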