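import Pool.Agent.Lib.H30F.Cases
import Pool.Agent.Lib.H30F.OmegaBound

/-!
# Chunk CASES2

PROOF. `cases_main` with the same `K`. First alternative: `2^(K+1) ∣ p - 1` gives `K + 1 ≤ Ω(p - 1)`
(`omega_two_pow_dvd`), contradiction. Fourth: `φ(m) ∣ (q-1) φ(m) = p - 1`, so `Ω(φ(m)) ≤ Ω(p - 1) ≤ K` (`omega_dvd`).
-/

namespace Pool.Agent.Lib.H30F

theorem cases_two (p x K y n : ℕ) (hp : p.Prime) (h3 : 3 ≤ p) (hy : 1 ≤ y)
    (hyx : y ^ (2 * (K + 1)) ≤ x) (hn : Nat.totient n = p - 1) (h1 : n ≠ p) (h2 : n ≠ 2 * p)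
    (hK : ArithmeticFunction.cardFactors (p - 1) ≤ K) :
    p ≤ Nat.sqrt x + 1 ∨
    (∃ r j : ℕ, r.Prime ∧ 1 ≤ j ∧ y < (r ^ j) ^ 3 ∧ Nat.totient ((r ^ j) ^ 2) ∣ p - 1) ∨
    (∃ q m : ℕ, q.Prime ∧ y < q ∧ 3 ≤ m ∧
      ArithmeticFunction.cardFactors (Nat.totient m) ≤ K ∧
      p = (q - 1) * Nat.totient m + 1) := by
  have hp0 : p - 1 ≠ 0 := by omega
  rcases cases_main p x K y n hp h3 hy hyx hn h1 h2 with h | h | h | h
  · have := omega_two_pow_dvd (K + 1) (p - 1) hp0 h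
    omega
  · exact Or.inl h
  · exact Or.inr (Or.inl h)
  · obtain ⟨q, m, hq, hyq, hm, -, he⟩ := h
    refine Or.inr (Or.inr ⟨q, m, hq, hyq, hm, ?_, he⟩)
    have hd : Nat.totient m ∣ p - 1 := ⟨q - 1, by rw [he]; simp [mul_comm]⟩
    exact (omega_dvd _ _ hp0 hd).trans hK

end Pool.Agent.Lib.H30F
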