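import Pool.Agent.Lib.H30F.SieveUp
import Pool.Agent.Lib.Sieve.Averages

/-!
# Chunk CNT1

Primes `2^j t + 1`, `t ≤ M`.

PROOF. Split according to `2^j t + 1 ≤ z` (at most `z` values of `t`) or `> z`. For the latter use `sieve_upper` with
`k = 1`, `Ω p = {-(2^j)⁻¹}` (one class; if `(t : ZMod p) = -(2^j)⁻¹` for a prime `4 < p ≤ z` then `p ∣ 2^j t + 1`, and
`2^j t + 1 > z ≥ p` is not prime). `dens Ω p = 1/p` for the primes `4 < p ≤ z`, and
`∏_{4 < p ≤ z} (1 - 1/p) = ∏_{p ≤ z} (1 - 1/p) / ((1 - 1/2)(1 - 1/3))` `≤ 3 / log z` (`Sieve.prod_one_sub_inv_le`)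
(if `z < 3` the missing factors are not there: the product over `p ≤ 4`, `p ≤ z` is still `≥ 1/3`). So `C = 9`.
-/

namespace Pool.Agent.Lib.H30F

open Pool.Agent.Lib.Sieve

theorem sprimes_prod_le (z : ℕ) (hz : 2 ≤ z) :
    ∏ p ∈ sprimes 4 z, (1 - 1 / (p : ℝ)) ≤ 3 / Real.log z := by
  have hz' : (2 : ℝ) ≤ z := by exact_mod_cast hz
  have hlog : 0 < Real.log z := Real.log_pos (by linarith)
  have h1 := prod_one_sub_inv_le z hz
  have hfac : ∀ p : ℕ, p.Prime → 1 / 2 ≤ 1 - 1 / (p : ℝ) ∧ 1 - 1 / (p : ℝ) ≤ 1 := by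
    intro p hp
    have : (2 : ℝ) ≤ p := by exact_mod_cast hp.two_le
    have h2 : 1 / (p : ℝ) ≤ 1 / 2 := one_div_le_one_div_of_le (by norm_num) this
    have h3 : 0 ≤ 1 / (p : ℝ) := by positivity
    constructor <;> linarith
  have hsplit : ∏ p ∈ primesUpTo z, (1 - 1 / (p : ℝ)) =
      (∏ p ∈ sprimes 4 z, (1 - 1 / (p : ℝ))) *
      ∏ p ∈ (primesUpTo z).filter (fun p => ¬ 4 < p), (1 - 1 / (p : ℝ)) := by
    unfold sprimes
    rw [Finset.prod_filter_mul_prod_filter_not]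
  have hnn : 0 ≤ ∏ p ∈ sprimes 4 z, (1 - 1 / (p : ℝ)) := by
    apply Finset.prod_nonneg
    intro p hp
    have := (hfac p (mem_sprimes.mp hp).1).1
    linarith
  have hsmall : 1 / 3 ≤ ∏ p ∈ (primesUpTo z).filter (fun p => ¬ 4 < p), (1 - 1 / (p : ℝ)) := by
    have hsub : (primesUpTo z).filter (fun p => ¬ 4 < p) ⊆ {2, 3} := by
      intro p hp
      have hp' := Finset.mem_filter.mp hp
      have hpp := (mem_primesUpTo.mp hp'.1).1
      have h2 := hpp.two_le
      have h4 : p ≤ 4 := not_lt.mp hp'.2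
      have h5 : p ≠ 4 := by
        rintro rfl
        exact absurd hpp (by decide)
      rw [Finset.mem_insert, Finset.mem_singleton]
      omega
    have hall : ∏ p ∈ ({2, 3} : Finset ℕ), (1 - 1 / (p : ℝ)) = 1 / 3 := by
      rw [Finset.prod_pair (by norm_num)]
      norm_num
    rw [← hall]
    rw [← Finset.prod_sdiff hsub]
    have hle : ∏ p ∈ ({2, 3} : Finset ℕ) \ (primesUpTo z).filter (fun p => ¬ 4 < p),
        (1 - 1 / (p : ℝ)) ≤ 1 := by
      apply Finset.prod_le_one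
      · intro p hp
        have hp := (Finset.mem_sdiff.mp hp).1
        rw [Finset.mem_insert, Finset.mem_singleton] at hp
        rcases hp with rfl | rfl <;> norm_num
      · intro p hp
        have hp := (Finset.mem_sdiff.mp hp).1
        rw [Finset.mem_insert, Finset.mem_singleton] at hp
        rcases hp with rfl | rfl <;> norm_num
    refine mul_le_of_le_one_left ?_ hle
    apply Finset.prod_nonneg
    intro p hp
    have hp' := Finset.mem_filter.mp hp
    have := (hfac p (mem_primesUpTo.mp hp'.1).1).1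
    linarith
  have h2 : (∏ p ∈ sprimes 4 z, (1 - 1 / (p : ℝ))) * (1 / 3) ≤ 1 / Real.log z := by
    calc (∏ p ∈ sprimes 4 z, (1 - 1 / (p : ℝ))) * (1 / 3)
        ≤ (∏ p ∈ sprimes 4 z, (1 - 1 / (p : ℝ))) *
          ∏ p ∈ (primesUpTo z).filter (fun p => ¬ 4 < p), (1 - 1 / (p : ℝ)) :=
          mul_le_mul_of_nonneg_left hsmall hnn
      _ = _ := hsplit.symm
      _ ≤ _ := h1
  have h3 : 3 / Real.log z = 3 * (1 / Real.log z) := by ring
  rw [h3]
  linarith

theorem count_one : ∃ C : ℝ, 0 < C ∧ ∀ j z M : ℕ, 2 ≤ z → z ^ 224 ≤ M →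
    (((Finset.Icc 1 M).filter (fun t => (2 ^ j * t + 1).Prime)).card : ℝ)
      ≤ z + C * M / Real.log z := by
  refine ⟨9, by norm_num, ?_⟩
  intro j z M hz hM
  let Ω : (p : ℕ) → Finset (ZMod p) := fun p => {-((2 : ZMod p) ^ j)⁻¹}
  set A := (Finset.Icc 1 M).filter (fun t => (2 ^ j * t + 1).Prime ∧ z < 2 ^ j * t + 1) with hAdef
  have hA : (A.card : ℝ) ≤ 3 * (M : ℝ) * ∏ p ∈ sprimes (2 * 1 + 2) z, (1 - dens Ω p) := by
    apply sieve_upper 1 z M hz Ω
    · intro p _ _ _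
      simp [Ω]
    · exact hM
    · intro u hu
      rw [hAdef, Finset.mem_filter, Finset.mem_Icc] at hu
      obtain ⟨⟨hu1, hu2⟩, hup, huz⟩ := hu
      refine ⟨hu1, hu2, ?_⟩
      intro p hp h4 hpz hmem
      have hmem' : (u : ZMod p) = -((2 : ZMod p) ^ j)⁻¹ := by simpa [Ω] using hmem
      have : Fact p.Prime := ⟨hp⟩
      have h2 : (2 : ZMod p) ≠ 0 := by
        intro h0
        have h0' : ((2 : ℕ) : ZMod p) = 0 := by exact_mod_cast h0
        rw [ZMod.natCast_eq_zero_iff] at h0'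
        have := Nat.le_of_dvd (by norm_num) h0'
        omega
      have h2j : (2 : ZMod p) ^ j ≠ 0 := pow_ne_zero _ h2
      have hz0 : ((2 ^ j * u + 1 : ℕ) : ZMod p) = 0 := by
        push_cast
        rw [hmem', mul_neg, mul_inv_cancel₀ h2j]
        ring
      rw [ZMod.natCast_eq_zero_iff] at hz0
      have := (Nat.prime_dvd_prime_iff_eq hp hup).mp hz0
      omega
  have hdens : ∏ p ∈ sprimes (2 * 1 + 2) z, (1 - dens Ω p) =
      ∏ p ∈ sprimes 4 z, (1 - 1 / (p : ℝ)) := by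
    apply Finset.prod_congr rfl
    intro p _
    simp [dens, Ω]
  rw [hdens] at hA
  have hprod := sprimes_prod_le z hz
  have hsub : (Finset.Icc 1 M).filter (fun t => (2 ^ j * t + 1).Prime) ⊆ Finset.Icc 1 z ∪ A := by
    intro t ht
    rw [Finset.mem_filter, Finset.mem_Icc] at ht
    rw [Finset.mem_union, Finset.mem_Icc, hAdef, Finset.mem_filter, Finset.mem_Icc]
    by_cases h : z < 2 ^ j * t + 1
    · right
      exact ⟨ht.1, ht.2, h⟩
    · left
      push Not at h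
      refine ⟨ht.1.1, ?_⟩
      have : t ≤ 2 ^ j * t := Nat.le_mul_of_pos_left t (by positivity)
      omega
  have hcard : ((Finset.Icc 1 M).filter (fun t => (2 ^ j * t + 1).Prime)).card ≤ z + A.card := by
    refine (Finset.card_le_card hsub).trans ((Finset.card_union_le _ _).trans ?_)
    rw [Nat.card_Icc]
    omega
  have hcard' : (((Finset.Icc 1 M).filter (fun t => (2 ^ j * t + 1).Prime)).card : ℝ) ≤
      z + A.card := by exact_mod_cast hcard
  have hfin : 3 * (M : ℝ) * ∏ p ∈ sprimes 4 z, (1 - 1 / (p : ℝ)) ≤ 9 * M / Real.log z := by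
    calc 3 * (M : ℝ) * ∏ p ∈ sprimes 4 z, (1 - 1 / (p : ℝ))
        ≤ 3 * (M : ℝ) * (3 / Real.log z) := mul_le_mul_of_nonneg_left hprod (by positivity)
      _ = 9 * M / Real.log z := by ring
  linarith

end Pool.Agent.Lib.H30F
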