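import Pool.Agent.Lib.H30F.SieveUp
import Pool.Agent.Lib.Sieve.Averages

/-!
# Chunk CNT2

Upper bound for the number of `u ≤ M` with `u + 1` and `b u + 1` both prime (and `> z`).

PROOF. `sieve_upper` with `k = 2`, `Ω p = {-1, -b⁻¹}` (in `ZMod p`; `b⁻¹ = 0` if `p ∣ b`: take `Ω p = {-1}` if `p ∣ b` or,
simpler, `Ω p = {-1, -b⁻¹}` if `p ∤ b (b - 1)` and `Ω p = ∅` otherwise). If a prime `6 < p ≤ z`, `p ∤ b (b-1)` has
`(u : ZMod p) ∈ Ω p` then `p` divides `u + 1` or `b u + 1`, which are primes `> z ≥ p`: impossible. For `p ∤ b (b-1)` the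
two classes are different, `dens Ω p = 2/p` and `1 - 2/p ≤ (1 - 1/p)^2`. So with `N = b (b-1)`
`∏_{6 < p ≤ z} (1 - dens) ≤ ∏_{6 < p ≤ z, p ∤ N} (1 - 1/p)^2 ≤ (∏_{p ≤ z} (1 - 1/p))^2 * (∏_{p ≤ 6, or p ∣ N} (1 - 1/p))^(-2)`
`≤ (1 / log z)^2 * (15/4)^2 * (N / φ(N))^2` (`Sieve.prod_one_sub_inv_le`, `Nat.totient_eq_mul_prod_factors`).
`C = 3 (15/4)^2` works.
-/

namespace Pool.Agent.Lib.H30F

open Pool.Agent.Lib.Sieve

theorem cnt2_prod_mono {T U : Finset ℕ} (h : T ⊆ U) (f : ℕ → ℝ) (h0 : ∀ p ∈ U, 0 ≤ f p)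
    (h1 : ∀ p ∈ U, f p ≤ 1) : ∏ p ∈ U, f p ≤ ∏ p ∈ T, f p := by
  rw [← Finset.prod_sdiff h]
  refine mul_le_of_le_one_left (Finset.prod_nonneg fun p hp => h0 p (h hp)) ?_
  exact Finset.prod_le_one (fun p hp => h0 p (Finset.mem_sdiff.1 hp).1)
    (fun p hp => h1 p (Finset.mem_sdiff.1 hp).1)

theorem cnt2_prod_union {A B : Finset ℕ} (f : ℕ → ℝ) (hA : ∀ p ∈ A, 0 ≤ f p)
    (h0 : ∀ p ∈ B, 0 ≤ f p)
    (h1 : ∀ p ∈ B, f p ≤ 1) : (∏ p ∈ A, f p) * ∏ p ∈ B, f p ≤ ∏ p ∈ A ∪ B, f p := by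
  have e : A ∪ B = A ∪ (B \ A) := by
    ext p
    simp only [Finset.mem_union, Finset.mem_sdiff]
    tauto
  rw [e, Finset.prod_union Finset.disjoint_sdiff]
  exact mul_le_mul_of_nonneg_left (cnt2_prod_mono Finset.sdiff_subset f h0 h1)
    (Finset.prod_nonneg hA)

theorem cnt2_tot (N : ℕ) : (Nat.totient N : ℝ) = N * ∏ p ∈ N.primeFactors, (1 - 1 / (p : ℝ)) := by
  have h := Nat.totient_eq_mul_prod_factors N
  have h' : ((Nat.totient N : ℚ) : ℝ) =
      ((N * ∏ p ∈ N.primeFactors, (1 - (p : ℚ)⁻¹) : ℚ) : ℝ) := by rw [h]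
  push_cast at h'
  rw [h']
  simp only [one_div]

theorem cnt2_split (N z : ℕ) (hz : 2 ≤ z) (hN : 1 ≤ N) :
    ∏ p ∈ (sprimes 6 z).filter (fun p => ¬ p ∣ N), (1 - 1 / (p : ℝ)) ≤
      15 / 4 / Real.log z * ((N : ℝ) / Nat.totient N) := by
  have hz' : (2 : ℝ) ≤ z := by exact_mod_cast hz
  have hlog : 0 < Real.log z := Real.log_pos (by linarith)
  have h1 := prod_one_sub_inv_le z hz
  have hfac : ∀ p : ℕ, p.Prime → 1 / 2 ≤ 1 - 1 / (p : ℝ) ∧ 1 - 1 / (p : ℝ) ≤ 1 := by
    intro p hp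
    have : (2 : ℝ) ≤ p := by exact_mod_cast hp.two_le
    have h2 : 1 / (p : ℝ) ≤ 1 / 2 := one_div_le_one_div_of_le (by norm_num) this
    have h3 : 0 ≤ 1 / (p : ℝ) := by positivity
    constructor <;> linarith
  have hf0 : ∀ p : ℕ, p.Prime → 0 ≤ 1 - 1 / (p : ℝ) := fun p hp => by
    have := (hfac p hp).1
    linarith
  set S := (sprimes 6 z).filter (fun p => ¬ p ∣ N) with hS
  have hSsub : S ⊆ primesUpTo z := by
    intro p hp
    rw [hS, Finset.mem_filter, mem_sprimes] at hp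
    exact mem_primesUpTo.2 ⟨hp.1.1, hp.1.2.2⟩
  have hsplit : (∏ p ∈ primesUpTo z \ S, (1 - 1 / (p : ℝ))) * ∏ p ∈ S, (1 - 1 / (p : ℝ)) =
      ∏ p ∈ primesUpTo z, (1 - 1 / (p : ℝ)) := Finset.prod_sdiff hSsub
  have hrest : primesUpTo z \ S ⊆ ({2, 3, 5} : Finset ℕ) ∪ N.primeFactors := by
    intro p hp
    rw [Finset.mem_sdiff, mem_primesUpTo, hS, Finset.mem_filter, mem_sprimes] at hp
    obtain ⟨⟨hpp, hpz⟩, hn⟩ := hp
    rw [Finset.mem_union, Nat.mem_primeFactors]
    by_cases hd : p ∣ N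
    · right
      exact ⟨hpp, hd, by omega⟩
    · left
      have h6 : p ≤ 6 := by
        by_contra hcon
        exact hn ⟨⟨hpp, by omega, hpz⟩, hd⟩
      have h2 := hpp.two_le
      have h4 : p ≠ 4 := by
        rintro rfl
        exact absurd hpp (by decide)
      have h6' : p ≠ 6 := by
        rintro rfl
        exact absurd hpp (by decide)
      simp only [Finset.mem_insert, Finset.mem_singleton]
      omega
  have hprime : ∀ p ∈ ({2, 3, 5} : Finset ℕ) ∪ N.primeFactors, p.Prime := by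
    intro p hp
    rw [Finset.mem_union] at hp
    rcases hp with hp | hp
    · simp only [Finset.mem_insert, Finset.mem_singleton] at hp
      rcases hp with rfl | rfl | rfl <;> norm_num
    · exact Nat.prime_of_mem_primeFactors hp
  have hlow : 4 / 15 * ((Nat.totient N : ℝ) / N) ≤ ∏ p ∈ primesUpTo z \ S, (1 - 1 / (p : ℝ)) := by
    have hN0 : (0 : ℝ) < N := by exact_mod_cast hN
    have e1 : (Nat.totient N : ℝ) / N = ∏ p ∈ N.primeFactors, (1 - 1 / (p : ℝ)) := by
      rw [cnt2_tot, mul_comm, mul_div_assoc, div_self hN0.ne', mul_one]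
    have e2 : ∏ p ∈ ({2, 3, 5} : Finset ℕ), (1 - 1 / (p : ℝ)) = 4 / 15 := by
      rw [Finset.prod_insert (by decide), Finset.prod_insert (by decide), Finset.prod_singleton]
      norm_num
    rw [e1, ← e2]
    refine (cnt2_prod_union _ ?_ ?_ ?_).trans (cnt2_prod_mono hrest _ ?_ ?_)
    · exact fun p hp => hf0 p (hprime p (Finset.mem_union_left _ hp))
    · exact fun p hp => hf0 p (hprime p (Finset.mem_union_right _ hp))
    · exact fun p hp => (hfac p (hprime p (Finset.mem_union_right _ hp))).2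
    · exact fun p hp => hf0 p (hprime p hp)
    · exact fun p hp => (hfac p (hprime p hp)).2
  have hSnn : 0 ≤ ∏ p ∈ S, (1 - 1 / (p : ℝ)) := by
    apply Finset.prod_nonneg
    intro p hp
    exact hf0 p (mem_primesUpTo.1 (hSsub hp)).1
  have hN0 : (0 : ℝ) < N := by exact_mod_cast hN
  have ht0 : (0 : ℝ) < Nat.totient N := by
    exact_mod_cast Nat.totient_pos.2 (by omega)
  have h5 : 4 / 15 * ((Nat.totient N : ℝ) / N) * ∏ p ∈ S, (1 - 1 / (p : ℝ)) ≤ 1 / Real.log z := by
    calc 4 / 15 * ((Nat.totient N : ℝ) / N) * ∏ p ∈ S, (1 - 1 / (p : ℝ))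
        ≤ (∏ p ∈ primesUpTo z \ S, (1 - 1 / (p : ℝ))) * ∏ p ∈ S, (1 - 1 / (p : ℝ)) :=
          mul_le_mul_of_nonneg_right hlow hSnn
      _ = _ := hsplit
      _ ≤ _ := h1
  have h6 : ∏ p ∈ S, (1 - 1 / (p : ℝ)) = (4 / 15 * ((Nat.totient N : ℝ) / N) *
      ∏ p ∈ S, (1 - 1 / (p : ℝ))) * (15 / 4 * ((N : ℝ) / Nat.totient N)) := by
    field_simp
  rw [h6]
  calc _ ≤ 1 / Real.log z * (15 / 4 * ((N : ℝ) / Nat.totient N)) :=
        mul_le_mul_of_nonneg_right h5 (by positivity)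
    _ = _ := by ring

theorem count_two : ∃ C : ℝ, 0 < C ∧ ∀ b z M : ℕ, 2 ≤ b → 2 ≤ z → z ^ 422 ≤ M →
    (((Finset.Icc 1 M).filter (fun u => (u + 1).Prime ∧ z < u + 1 ∧ (b * u + 1).Prime)).card : ℝ)
      ≤ C * M / Real.log z ^ 2 *
        (((b * (b - 1) : ℕ) : ℝ) / Nat.totient (b * (b - 1))) ^ 2 := by
  refine ⟨3 * (15 / 4) ^ 2, by norm_num, ?_⟩
  intro b z M hb hz hM
  set N : ℕ := b * (b - 1) with hNdef
  have hN : 1 ≤ N := Nat.mul_pos (by omega) (by omega)
  let Ω : (p : ℕ) → Finset (ZMod p) := fun p => if p ∣ N then ∅ else {-1, -(b : ZMod p)⁻¹}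
  set A := (Finset.Icc 1 M).filter (fun u => (u + 1).Prime ∧ z < u + 1 ∧ (b * u + 1).Prime)
    with hAdef
  have hA : (A.card : ℝ) ≤ 3 * (M : ℝ) * ∏ p ∈ sprimes (2 * 2 + 2) z, (1 - dens Ω p) := by
    apply sieve_upper 2 z M hz Ω
    · intro p _ _ _
      simp only [Ω]
      split_ifs
      · simp
      · exact Finset.card_le_two
    · exact hM
    · intro u hu
      rw [hAdef, Finset.mem_filter, Finset.mem_Icc] at hu
      obtain ⟨⟨hu1, hu2⟩, hup, huz, hbp⟩ := hu
      refine ⟨hu1, hu2, ?_⟩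
      intro p hp h6 hpz hmem
      simp only [Ω] at hmem
      split_ifs at hmem with hd
      · simp at hmem
      · have : Fact p.Prime := ⟨hp⟩
        rw [Finset.mem_insert, Finset.mem_singleton] at hmem
        rcases hmem with h | h
        · have hz0 : ((u + 1 : ℕ) : ZMod p) = 0 := by
            push_cast
            rw [h]
            ring
          rw [ZMod.natCast_eq_zero_iff] at hz0
          have := (Nat.prime_dvd_prime_iff_eq hp hup).mp hz0
          omega
        · have hb0 : (b : ZMod p) ≠ 0 := by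
            intro h0
            rw [ZMod.natCast_eq_zero_iff] at h0
            exact hd (Dvd.dvd.mul_right h0 _)
          have hz0 : ((b * u + 1 : ℕ) : ZMod p) = 0 := by
            push_cast
            rw [h, mul_neg, mul_inv_cancel₀ hb0]
            ring
          rw [ZMod.natCast_eq_zero_iff] at hz0
          have h7 := (Nat.prime_dvd_prime_iff_eq hp hbp).mp hz0
          have h8 : 1 * u ≤ b * u := Nat.mul_le_mul_right _ (by omega)
          omega
  have hprod : ∏ p ∈ sprimes (2 * 2 + 2) z, (1 - dens Ω p) ≤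
      (∏ p ∈ (sprimes 6 z).filter (fun p => ¬ p ∣ N), (1 - 1 / (p : ℝ))) ^ 2 := by
    have e : sprimes (2 * 2 + 2) z = sprimes 6 z := rfl
    rw [e, ← Finset.prod_pow, Finset.prod_filter]
    apply Finset.prod_le_prod
    · intro p hp
      rw [mem_sprimes] at hp
      have hp7 : (7 : ℝ) ≤ p := by exact_mod_cast (by omega : 7 ≤ p)
      have : dens Ω p ≤ 2 / p := by
        unfold dens
        have hc : (Ω p).card ≤ 2 := by
          simp only [Ω]
          split_ifs
          · simp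
          · exact Finset.card_le_two
        have hc' : ((Ω p).card : ℝ) ≤ 2 := by exact_mod_cast hc
        gcongr
      have h2 : (2 : ℝ) / p ≤ 2 / 7 := by gcongr
      linarith
    · intro p hp
      rw [mem_sprimes] at hp
      have hp7 : (7 : ℝ) ≤ p := by exact_mod_cast (by omega : 7 ≤ p)
      have : Fact p.Prime := ⟨hp.1⟩
      by_cases hd : p ∣ N
      · have hc : (Ω p).card = 0 := by
          simp only [Ω]
          rw [if_pos hd]
          simp
        rw [if_neg (not_not.2 hd)]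
        unfold dens
        rw [hc]
        simp
      · rw [if_pos hd]
        have hb0 : (b : ZMod p) ≠ 0 := by
          intro h0
          rw [ZMod.natCast_eq_zero_iff] at h0
          exact hd (Dvd.dvd.mul_right h0 _)
        have hne : (-1 : ZMod p) ≠ -(b : ZMod p)⁻¹ := by
          intro h
          have h1 : (b : ZMod p)⁻¹ = 1 := by
            have := congrArg Neg.neg h
            rw [neg_neg, neg_neg] at this
            exact this.symm
          have h2 : (b : ZMod p) = 1 := by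
            rw [inv_eq_one] at h1
            exact h1
          have h3 : ((b - 1 : ℕ) : ZMod p) = 0 := by
            rw [Nat.cast_sub (by omega), h2]
            simp
          rw [ZMod.natCast_eq_zero_iff] at h3
          exact hd (Dvd.dvd.mul_left h3 _)
        have hc : (Ω p).card = 2 := by
          simp only [Ω]
          rw [if_neg hd]
          exact Finset.card_pair hne
        unfold dens
        rw [hc]
        have : (0 : ℝ) ≤ (1 / (p : ℝ)) ^ 2 := by positivity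
        have e3 : (1 - 1 / (p : ℝ)) ^ 2 = 1 - ((2 : ℕ) : ℝ) / p + (1 / (p : ℝ)) ^ 2 := by
          push_cast
          ring
        rw [e3]
        linarith
  have hsp := cnt2_split N z hz hN
  have hSnn : 0 ≤ ∏ p ∈ (sprimes 6 z).filter (fun p => ¬ p ∣ N), (1 - 1 / (p : ℝ)) := by
    apply Finset.prod_nonneg
    intro p hp
    rw [Finset.mem_filter, mem_sprimes] at hp
    have hp7 : (7 : ℝ) ≤ p := by exact_mod_cast (by omega : 7 ≤ p)
    have h2 : (1 : ℝ) / p ≤ 1 / 7 := by gcongr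
    linarith
  have hsq := pow_le_pow_left₀ hSnn hsp 2
  calc (A.card : ℝ) ≤ _ := hA
    _ ≤ 3 * (M : ℝ) * (15 / 4 / Real.log z * ((N : ℝ) / Nat.totient N)) ^ 2 :=
        mul_le_mul_of_nonneg_left (hprod.trans hsq) (by positivity)
    _ = _ := by ring

end Pool.Agent.Lib.H30F
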