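import Mathlib

/-!
# Chunk CNT3

Numbers `p ≤ x` such that `p - 1` is divisible by `φ(s^2)` for a prime power `s > Y`.

PROOF. For `s = r^j`, `φ(s^2) = r^(2j-1) (r-1) ≥ s^2/2` (`Nat.totient_prime_pow`; `2 (r-1) ≥ r`). If it divides
`p - 1 ≥ 1` then `s^2 ≤ 2 (p - 1) ≤ 2 x`, so `s ∈ (Y, 2x]`. For each such `s` the number of `p ∈ [2, x]` with
`d = φ(s^2) ∣ p - 1` is at most `x / d ≤ 2 x / s^2` (`Nat.Ioc_filter_dvd_card_eq_div` after the shift `p ↦ p - 1`). Sum: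
`∑_{s > Y} 2 x / s^2 ≤ 2 x / Y` (`1/s^2 ≤ 1/(s-1) - 1/s`, telescoping).
-/

namespace Pool.Agent.Lib.H30F

theorem cnt3_tot (r j : ℕ) (hr : r.Prime) (hj : 1 ≤ j) :
    (r ^ j) ^ 2 ≤ 2 * Nat.totient ((r ^ j) ^ 2) := by
  rw [← pow_mul, Nat.totient_prime_pow hr (by omega)]
  have h2 := hr.two_le
  have h3 : r ≤ 2 * (r - 1) := by omega
  calc r ^ (j * 2) = r ^ (j * 2 - 1) * r := by
        rw [← pow_succ]
        congr 1
        omega
    _ ≤ r ^ (j * 2 - 1) * (2 * (r - 1)) := Nat.mul_le_mul_left _ h3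
    _ = 2 * (r ^ (j * 2 - 1) * (r - 1)) := by ring

theorem cnt3_one (x d : ℕ) :
    ((Finset.Icc 2 x).filter (fun p => d ∣ p - 1)).card ≤ x / d := by
  have h : ((Finset.Icc 2 x).filter (fun p => d ∣ p - 1)).image (fun p => p - 1)
      ⊆ (Finset.Ioc 0 x).filter (fun m => d ∣ m) := by
    intro m hm
    rw [Finset.mem_image] at hm
    obtain ⟨p, hp, rfl⟩ := hm
    rw [Finset.mem_filter, Finset.mem_Icc] at hp
    rw [Finset.mem_filter, Finset.mem_Ioc]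
    exact ⟨⟨by omega, by omega⟩, hp.2⟩
  have hinj : Set.InjOn (fun p : ℕ => p - 1)
      (((Finset.Icc 2 x).filter (fun p => d ∣ p - 1) : Finset ℕ) : Set ℕ) := by
    intro a ha b hb hab
    rw [Finset.mem_coe, Finset.mem_filter, Finset.mem_Icc] at ha hb
    have : a - 1 = b - 1 := hab
    omega
  rw [← Finset.card_image_of_injOn hinj, ← Nat.Ioc_filter_dvd_card_eq_div x d]
  exact Finset.card_le_card h

theorem cnt3_tel (Y n : ℕ) (hY : 1 ≤ Y) (hn : Y ≤ n) :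
    ∑ s ∈ Finset.Ioc Y n, (1 : ℝ) / (s : ℝ) ^ 2 ≤ 1 / Y - 1 / n := by
  induction n, hn using Nat.le_induction with
  | base => simp
  | succ n hn ih =>
    rw [← Finset.insert_Ioc_right_eq_Ioc_add_one (by omega : Y ≤ n),
      Finset.sum_insert (by simp)]
    have hn0 : (0 : ℝ) < n := by exact_mod_cast (by omega : 0 < n)
    have h1 : (1 : ℝ) / ((n + 1 : ℕ) : ℝ) ^ 2 ≤ 1 / n - 1 / ((n + 1 : ℕ) : ℝ) := by
      push_cast
      rw [div_sub_div _ _ hn0.ne' (by positivity), div_le_div_iff₀ (by positivity) (by positivity)]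
      nlinarith
    linarith

open Classical in
theorem count_three (x Y : ℕ) (hY : 1 ≤ Y) :
    (((Finset.Icc 2 x).filter (fun p => ∃ r j : ℕ, r.Prime ∧ 1 ≤ j ∧ Y < r ^ j ∧
      Nat.totient ((r ^ j) ^ 2) ∣ p - 1)).card : ℝ) ≤ 2 * x / Y := by
  set A := (Finset.Icc 2 x).filter (fun p => ∃ r j : ℕ, r.Prime ∧ 1 ≤ j ∧ Y < r ^ j ∧
      Nat.totient ((r ^ j) ^ 2) ∣ p - 1) with hA
  set G := (Finset.Ioc Y (2 * x)).filter (fun s => s ^ 2 ≤ 2 * Nat.totient (s ^ 2)) with hG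
  have hsub : A ⊆ G.biUnion (fun s => (Finset.Icc 2 x).filter
      (fun p => Nat.totient (s ^ 2) ∣ p - 1)) := by
    intro p hp
    rw [hA, Finset.mem_filter, Finset.mem_Icc] at hp
    obtain ⟨⟨hp2, hpx⟩, r, j, hr, hj, hYs, hdvd⟩ := hp
    have ht := cnt3_tot r j hr hj
    have hle : Nat.totient ((r ^ j) ^ 2) ≤ p - 1 := Nat.le_of_dvd (by omega) hdvd
    have hs1 : r ^ j ≤ (r ^ j) ^ 2 := Nat.le_self_pow (by norm_num) _
    rw [Finset.mem_biUnion]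
    refine ⟨r ^ j, ?_, ?_⟩
    · rw [hG, Finset.mem_filter, Finset.mem_Ioc]
      exact ⟨⟨hYs, by omega⟩, ht⟩
    · rw [Finset.mem_filter, Finset.mem_Icc]
      exact ⟨⟨hp2, hpx⟩, hdvd⟩
  have hx0 : (0 : ℝ) ≤ x := Nat.cast_nonneg _
  have hY0 : (0 : ℝ) < Y := by exact_mod_cast hY
  have hterm : ∀ s ∈ G, ((((Finset.Icc 2 x).filter
      (fun p => Nat.totient (s ^ 2) ∣ p - 1)).card : ℕ) : ℝ) ≤ 2 * x * (1 / (s : ℝ) ^ 2) := by
    intro s hs
    rw [hG, Finset.mem_filter, Finset.mem_Ioc] at hs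
    have hs0 : 0 < s := by omega
    have hs0' : (0 : ℝ) < s := by exact_mod_cast hs0
    have h1 : ((((Finset.Icc 2 x).filter
      (fun p => Nat.totient (s ^ 2) ∣ p - 1)).card : ℕ) : ℝ) ≤ (x : ℝ) / Nat.totient (s ^ 2) := by
      refine le_trans ?_ (Nat.cast_div_le (m := x) (n := Nat.totient (s ^ 2)))
      exact_mod_cast cnt3_one x _
    have hd0 : (0 : ℝ) < Nat.totient (s ^ 2) := by
      exact_mod_cast Nat.totient_pos.mpr (pow_pos hs0 2)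
    have h2 : ((s : ℝ)) ^ 2 ≤ 2 * Nat.totient (s ^ 2) := by exact_mod_cast hs.2
    refine h1.trans ?_
    rw [mul_one_div, div_le_div_iff₀ hd0 (by positivity)]
    calc (x : ℝ) * (s : ℝ) ^ 2 ≤ x * (2 * Nat.totient (s ^ 2)) :=
          mul_le_mul_of_nonneg_left h2 hx0
      _ = 2 * x * Nat.totient (s ^ 2) := by ring
  have hsumG : ∑ s ∈ G, (1 : ℝ) / (s : ℝ) ^ 2 ≤ 1 / Y := by
    have h1 : ∑ s ∈ G, (1 : ℝ) / (s : ℝ) ^ 2 ≤ ∑ s ∈ Finset.Ioc Y (2 * x), (1 : ℝ) / (s : ℝ) ^ 2 := by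
      apply Finset.sum_le_sum_of_subset_of_nonneg (Finset.filter_subset _ _)
      intro i _ _
      positivity
    refine h1.trans ?_
    by_cases h : Y ≤ 2 * x
    · have := cnt3_tel Y (2 * x) hY h
      have h3 : (0 : ℝ) ≤ 1 / ((2 * x : ℕ) : ℝ) := by positivity
      linarith
    · rw [Finset.Ioc_eq_empty (by omega)]
      simp
  calc (A.card : ℝ) ≤ ((G.biUnion (fun s => (Finset.Icc 2 x).filter
      (fun p => Nat.totient (s ^ 2) ∣ p - 1))).card : ℝ) := by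
        exact_mod_cast Finset.card_le_card hsub
    _ ≤ ∑ s ∈ G, ((((Finset.Icc 2 x).filter
      (fun p => Nat.totient (s ^ 2) ∣ p - 1)).card : ℕ) : ℝ) := by
        exact_mod_cast Finset.card_biUnion_le
    _ ≤ ∑ s ∈ G, 2 * x * (1 / (s : ℝ) ^ 2) := Finset.sum_le_sum hterm
    _ = 2 * x * ∑ s ∈ G, (1 : ℝ) / (s : ℝ) ^ 2 := by rw [Finset.mul_sum]
    _ ≤ 2 * x * (1 / Y) := mul_le_mul_of_nonneg_left hsumG (by positivity)
    _ = 2 * x / Y := by ring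

end Pool.Agent.Lib.H30F
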