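import Pool.Agent.Lib.Sieve.PrimeSum

/-!
# Chunk MSUM

`∑_{m ∈ F} 1/φ(m) ≤ 100^K exp((1/25) ∑_{r ≤ X} 1/r)` for every finite set `F` of positive integers with at most `K`
distinct prime factors, all `≤ X`.

PROOF (Rankin). Let `g(m) = (1/100)^(ω(m)) / φ(m)`, `ω(m) = m.primeFactors.card`. For `m ∈ F`:
`1/φ(m) ≤ 100^K g(m)`. `g` is multiplicative on coprime arguments (`Nat.Coprime.primeFactors_mul`/`card_union_of_disjoint`,
`Nat.totient_mul`), `g 1 = 1`, `g(r^(e+1)) = (1/100) / (r^e (r-1))`, so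
`∑_e g(r^e) = 1 + (1/100) r/(r-1)^2 ≤ 1 + 1/(25 r)` (geometric series; `r ≤ 2 (r - 1)`) and
`EulerProduct.summable_and_hasSum_smoothNumbers_prod_primesBelow_tsum` (with `N = X + 1`) gives
`∑_{m ∈ F} g(m) ≤ ∑_{m smooth} g(m) = ∏_{r ≤ X} (∑_e g(r^e)) ≤ ∏ (1 + 1/(25 r)) ≤ exp(∑ 1/(25 r))`.
(Alternative without series: induction on the set of primes, `F` is contained in a product of finite sets
`{0..A}^(primes ≤ X)`.) See `Sieve/Averages.lean`, `prod_one_sub_inv_le`, for the use of the Euler product.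
-/

namespace Pool.Agent.Lib.H30F

open Pool.Agent.Lib.Sieve

/-- The weight of Rankin's trick. -/
noncomputable def msum_g (m : ℕ) : ℝ := (1 / 100 : ℝ) ^ m.primeFactors.card / (Nat.totient m : ℝ)

theorem msum_g_nonneg (m : ℕ) : 0 ≤ msum_g m := by
  unfold msum_g
  positivity

theorem msum_g_one : msum_g 1 = 1 := by
  simp [msum_g]

theorem msum_g_mul {m n : ℕ} (h : Nat.Coprime m n) : msum_g (m * n) = msum_g m * msum_g n := by
  unfold msum_g
  rw [h.primeFactors_mul, Finset.card_union_of_disjoint h.disjoint_primeFactors,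
    Nat.totient_mul h, pow_add, Nat.cast_mul, mul_div_mul_comm]

theorem msum_g_pow {r : ℕ} (hr : r.Prime) (e : ℕ) :
    msum_g (r ^ (e + 1)) = (1 / 100) / ((r : ℝ) - 1) * ((r : ℝ)⁻¹) ^ e := by
  unfold msum_g
  rw [Nat.primeFactors_prime_pow (Nat.succ_ne_zero e) hr, Finset.card_singleton, pow_one,
    Nat.totient_prime_pow_succ hr, Nat.cast_mul, Nat.cast_sub hr.one_lt.le, Nat.cast_pow,
    Nat.cast_one, inv_pow]
  have h1 : (0 : ℝ) < r := by exact_mod_cast hr.pos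
  have h2 : (0 : ℝ) < (r : ℝ) - 1 := by
    have : (1 : ℝ) < r := by exact_mod_cast hr.one_lt
    linarith
  field_simp

theorem msum_hasSum {r : ℕ} (hr : r.Prime) :
    HasSum (fun e : ℕ => msum_g (r ^ e))
      ((1 / 100) / ((r : ℝ) - 1) * (1 - (r : ℝ)⁻¹)⁻¹ + 1) := by
  have h0 : (0 : ℝ) ≤ (r : ℝ)⁻¹ := by positivity
  have h1 : (r : ℝ)⁻¹ < 1 := by
    apply inv_lt_one_of_one_lt₀
    exact_mod_cast hr.one_lt
  have h2 : HasSum (fun e : ℕ => msum_g (r ^ (e + 1)))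
      ((1 / 100) / ((r : ℝ) - 1) * (1 - (r : ℝ)⁻¹)⁻¹) := by
    have h3 := (hasSum_geometric_of_lt_one h0 h1).mul_left ((1 / 100) / ((r : ℝ) - 1))
    refine h3.congr_fun ?_
    intro e
    exact msum_g_pow hr e
  have h4 := (hasSum_nat_add_iff (f := fun e : ℕ => msum_g (r ^ e)) 1).1 h2
  rw [Finset.sum_range_one, pow_zero, msum_g_one] at h4
  exact h4

theorem msum_factor {r : ℕ} (hr : r.Prime) :
    (∑' e : ℕ, msum_g (r ^ e)) ≤ Real.exp ((1 / 25) * ((1 : ℝ) / r)) := by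
  rw [(msum_hasSum hr).tsum_eq]
  have h1 : (2 : ℝ) ≤ r := by exact_mod_cast hr.two_le
  have h2 : (1 / 100) / ((r : ℝ) - 1) * (1 - (r : ℝ)⁻¹)⁻¹ ≤ (1 / 25) * ((1 : ℝ) / r) := by
    have h3 : (1 / 100) / ((r : ℝ) - 1) * (1 - (r : ℝ)⁻¹)⁻¹ = (1 / 100) * r / ((r : ℝ) - 1) ^ 2 := by
      have h5 : (r : ℝ) ≠ 0 := by linarith
      have h6 : (r : ℝ) - 1 ≠ 0 := by linarith
      have h7 : (1 : ℝ) - (r : ℝ)⁻¹ = ((r : ℝ) - 1) / r := by
        field_simp
      rw [h7]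
      field_simp
    have h4 : (0 : ℝ) < ((r : ℝ) - 1) ^ 2 := by
      have : (0 : ℝ) < (r : ℝ) - 1 := by linarith
      positivity
    have h5 : (0 : ℝ) < r := by linarith
    rw [h3, div_le_iff₀ h4]
    have h6 : (1 / 25) * ((1 : ℝ) / r) * ((r : ℝ) - 1) ^ 2 = ((1 / 25) * ((r : ℝ) - 1) ^ 2) / r := by
      ring
    rw [h6, le_div_iff₀ h5]
    nlinarith [sq_nonneg ((r : ℝ) - 2)]
  have h8 := Real.add_one_le_exp ((1 / 25) * ((1 : ℝ) / r))
  linarith

theorem sum_inv_totient (K X : ℕ) (F : Finset ℕ)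
    (hF : ∀ m ∈ F, 1 ≤ m ∧ m.primeFactors.card ≤ K ∧ ∀ r ∈ m.primeFactors, r ≤ X) :
    ∑ m ∈ F, (1 : ℝ) / Nat.totient m
      ≤ 100 ^ K * Real.exp ((1 / 25) * ∑ r ∈ primesUpTo X, (1 : ℝ) / r) := by
  have h1 := EulerProduct.summable_and_hasSum_smoothNumbers_prod_primesBelow_tsum
    (f := msum_g) msum_g_one (fun h => msum_g_mul h) (fun {p} hp => by
      have h2 := (msum_hasSum hp).summable
      refine h2.congr ?_
      intro e
      rw [Real.norm_of_nonneg (msum_g_nonneg _)]) (X + 1)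
  obtain ⟨-, hhas⟩ := h1
  have h3 : ∑ m ∈ F, msum_g m ≤ ∏ p ∈ (X + 1).primesBelow, ∑' n : ℕ, msum_g (p ^ n) := by
    let s : Finset (Nat.smoothNumbers (X + 1)) :=
      F.attach.map ⟨fun m => ⟨m.1, by
        obtain ⟨hm1, -, hm2⟩ := hF m.1 m.2
        rw [Nat.mem_smoothNumbers]
        refine ⟨by omega, fun q hq => ?_⟩
        have := hm2 q (Nat.mem_primeFactors_iff_mem_primeFactorsList.2 hq)
        omega⟩, fun a b hab => by
        apply Subtype.ext
        exact congrArg (fun x => x.1) hab⟩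
    have h4 := sum_le_hasSum s (fun i _ => msum_g_nonneg _) hhas
    refine le_trans (le_of_eq ?_) h4
    rw [Finset.sum_map]
    exact (Finset.sum_attach F fun m => msum_g m).symm
  have h5 : ∏ p ∈ (X + 1).primesBelow, ∑' n : ℕ, msum_g (p ^ n)
      ≤ Real.exp ((1 / 25) * ∑ r ∈ primesUpTo X, (1 : ℝ) / r) := by
    rw [Finset.mul_sum, Real.exp_sum]
    refine Finset.prod_le_prod (fun p _ => tsum_nonneg fun n => msum_g_nonneg _) ?_
    intro p hp
    exact msum_factor (mem_primesUpTo.1 hp).1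
  have h6 : ∀ m ∈ F, (1 : ℝ) / Nat.totient m ≤ 100 ^ K * msum_g m := by
    intro m hm
    obtain ⟨-, hm1, -⟩ := hF m hm
    unfold msum_g
    rw [← mul_div_assoc]
    apply div_le_div_of_nonneg_right _ (Nat.cast_nonneg _)
    have h7 : (1 / 100 : ℝ) ^ K ≤ (1 / 100 : ℝ) ^ m.primeFactors.card :=
      pow_le_pow_of_le_one (by norm_num) (by norm_num) hm1
    calc (1 : ℝ) = 100 ^ K * (1 / 100) ^ K := by
          rw [← mul_pow]
          norm_num
      _ ≤ 100 ^ K * (1 / 100) ^ m.primeFactors.card :=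
          mul_le_mul_of_nonneg_left h7 (by positivity)
  calc ∑ m ∈ F, (1 : ℝ) / Nat.totient m ≤ ∑ m ∈ F, 100 ^ K * msum_g m := Finset.sum_le_sum h6
    _ = 100 ^ K * ∑ m ∈ F, msum_g m := by rw [Finset.mul_sum]
    _ ≤ _ := mul_le_mul_of_nonneg_left (h3.trans h5) (by positivity)

end Pool.Agent.Lib.H30F
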