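import Pool.Agent.Lib.H30F.PrimeRec

/-!
# Chunk TOTB

`N / φ(N) ≤ C (log log x)^18` for `1 ≤ N ≤ x^2`, `x ≥ 16`.

PROOF. `N / φ(N) = ∏_{r ∣ N} (1 - 1/r)⁻¹` (`Nat.totient_eq_mul_prod_factors`) `= ∏ (1 + 1/(r-1)) ≤ exp ∑_{r ∣ N} 1/(r-1)`
`≤ exp (2 ∑_{r ∣ N} 1/r)`. Let `w = ⌈log x⌉₊ ≥ 3` (`log 16 > 2.77`). The `r ≤ w` contribute to `∑ 1/r` at most
`9 log log w + C₀` (PREC); the `r > w`: let `k` be their number, `w ^ k ≤ N ≤ x ^ 2`, so `k ≤ k log w ≤ 2 log x`
(`log w ≥ 1` for `w ≥ 3`) and they contribute at most `k / w ≤ 2`. So the whole is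
`≤ exp(18 log log w + 2 C₀ + 4) = C₁ (log w)^18` and `w ≤ log x + 1 ≤ (log x)^2`, `log w ≤ 2 log log x`
(`log x + 1 ≤ (log x)^2` holds for `log x ≥ 1.62`).
-/

namespace Pool.Agent.Lib.H30F

open Pool.Agent.Lib.Sieve

theorem totb_ratio (N : ℕ) (hN : 1 ≤ N) :
    (N : ℝ) / Nat.totient N ≤ Real.exp (2 * ∑ p ∈ N.primeFactors, (1 : ℝ) / p) := by
  have hφ : (0 : ℝ) < (Nat.totient N : ℝ) := by exact_mod_cast Nat.totient_pos.mpr hN
  have hkey := Nat.totient_mul_prod_primeFactors N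
  have hcast : (Nat.totient N : ℝ) * ∏ p ∈ N.primeFactors, (p : ℝ)
      = N * ∏ p ∈ N.primeFactors, ((p : ℝ) - 1) := by
    have h1 : ((Nat.totient N * ∏ p ∈ N.primeFactors, p : ℕ) : ℝ)
        = ((N * ∏ p ∈ N.primeFactors, (p - 1) : ℕ) : ℝ) := by rw [hkey]
    push_cast at h1
    rw [h1]
    congr 1
    apply Finset.prod_congr rfl
    intro p hp
    have : 1 ≤ p := (Nat.prime_of_mem_primeFactors hp).one_lt.le
    push_cast [Nat.cast_sub this]
    ring
  have hpos : ∀ p ∈ N.primeFactors, (0 : ℝ) < (p : ℝ) - 1 := by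
    intro p hp
    have : 1 < p := (Nat.prime_of_mem_primeFactors hp).one_lt
    have : (1 : ℝ) < p := by exact_mod_cast this
    linarith
  have hprod : (0 : ℝ) < ∏ p ∈ N.primeFactors, ((p : ℝ) - 1) := Finset.prod_pos hpos
  have h2 : (N : ℝ) / Nat.totient N = ∏ p ∈ N.primeFactors, ((p : ℝ) / ((p : ℝ) - 1)) := by
    rw [Finset.prod_div_distrib, div_eq_div_iff hφ.ne' hprod.ne']
    linarith
  rw [h2, Finset.mul_sum, Real.exp_sum]
  apply Finset.prod_le_prod
  · intro p hp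
    have := hpos p hp
    have : (0 : ℝ) ≤ p := Nat.cast_nonneg p
    positivity
  · intro p hp
    have h3 := hpos p hp
    have h4 : (2 : ℝ) ≤ p := by exact_mod_cast (Nat.prime_of_mem_primeFactors hp).two_le
    have h5 : (p : ℝ) / ((p : ℝ) - 1) = 1 / ((p : ℝ) - 1) + 1 := by
      field_simp
      ring
    rw [h5]
    refine (Real.add_one_le_exp _).trans ?_
    apply Real.exp_le_exp.mpr
    rw [mul_one_div, div_le_div_iff₀ h3 (by linarith)]
    linarith

theorem totb_sum (C₀ : ℝ)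
    (hC : ∀ n : ℕ, 3 ≤ n → ∑ p ∈ primesUpTo n, (1 : ℝ) / p ≤ 9 * Real.log (Real.log n) + C₀)
    (x : ℕ) (w : ℕ) (hw : 3 ≤ w) (hxw : Real.log x ≤ w) (hx : 0 < Real.log x)
    (N : ℕ) (hN : 1 ≤ N) (hNx : N ≤ x ^ 2) :
    ∑ p ∈ N.primeFactors, (1 : ℝ) / p ≤ 9 * Real.log (Real.log w) + C₀ + 2 := by
  classical
  have hwpos : (0 : ℝ) < w := by exact_mod_cast (by omega : 0 < w)
  have hsplit : ∑ p ∈ N.primeFactors, (1 : ℝ) / p
      = ∑ p ∈ N.primeFactors.filter (fun p => p ≤ w), (1 : ℝ) / p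
        + ∑ p ∈ N.primeFactors.filter (fun p => ¬ p ≤ w), (1 : ℝ) / p :=
    (Finset.sum_filter_add_sum_filter_not _ _ _).symm
  have h1 : ∑ p ∈ N.primeFactors.filter (fun p => p ≤ w), (1 : ℝ) / p
      ≤ ∑ p ∈ primesUpTo w, (1 : ℝ) / p := by
    apply Finset.sum_le_sum_of_subset_of_nonneg
    · intro p hp
      rw [Finset.mem_filter] at hp
      exact mem_primesUpTo.mpr ⟨Nat.prime_of_mem_primeFactors hp.1, hp.2⟩
    · intro p _ _
      positivity
  set T := N.primeFactors.filter (fun p => ¬ p ≤ w) with hT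
  have h2 : ∑ p ∈ T, (1 : ℝ) / p ≤ T.card * (1 / w) := by
    rw [← nsmul_eq_mul]
    apply Finset.sum_le_card_nsmul
    intro p hp
    rw [hT, Finset.mem_filter] at hp
    have : (w : ℝ) ≤ p := by exact_mod_cast (not_le.mp hp.2).le
    exact one_div_le_one_div_of_le hwpos this
  have h3 : w ^ T.card ≤ x ^ 2 := by
    calc w ^ T.card ≤ ∏ p ∈ T, p := by
          apply Finset.pow_card_le_prod
          intro p hp
          rw [hT, Finset.mem_filter] at hp
          exact (not_le.mp hp.2).le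
      _ ≤ ∏ p ∈ N.primeFactors, p := by
          apply Finset.prod_le_prod_of_subset_of_one_le'
          · exact Finset.filter_subset _ _
          · intro p hp _
            exact (Nat.prime_of_mem_primeFactors hp).one_lt.le
      _ ≤ N := Nat.le_of_dvd hN (Nat.prod_primeFactors_dvd N)
      _ ≤ x ^ 2 := hNx
  have hlogw : 1 ≤ Real.log w := by
    rw [Real.le_log_iff_exp_le hwpos]
    have : (3 : ℝ) ≤ w := by exact_mod_cast hw
    linarith [Real.exp_one_lt_three]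
  have h4 : (T.card : ℝ) * Real.log w ≤ 2 * Real.log x := by
    have h5 : ((w : ℝ)) ^ T.card ≤ (x : ℝ) ^ 2 := by exact_mod_cast h3
    have h6 := Real.log_le_log (by positivity) h5
    rw [Real.log_pow, Real.log_pow] at h6
    exact_mod_cast h6
  have h7 : (T.card : ℝ) ≤ 2 * w := by
    have h8 : (T.card : ℝ) ≤ T.card * Real.log w := by
      have : (0 : ℝ) ≤ T.card := Nat.cast_nonneg _
      nlinarith
    linarith
  have h9 : (T.card : ℝ) * (1 / w) ≤ 2 := by
    rw [mul_one_div, div_le_iff₀ hwpos]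
    exact h7
  have h10 := hC w hw
  rw [hsplit]
  linarith

theorem totient_bound : ∃ C : ℝ, 0 < C ∧ ∀ x : ℕ, 16 ≤ x → ∀ N : ℕ, 1 ≤ N → N ≤ x ^ 2 →
    (N : ℝ) / Nat.totient N ≤ C * Real.log (Real.log x) ^ 18 := by
  obtain ⟨C₀, hC₀, hC⟩ := sum_inv_primes
  refine ⟨2 ^ 18 * Real.exp (2 * C₀ + 4), by positivity, ?_⟩
  intro x hx N hN hNx
  have hx16 : (16 : ℝ) ≤ x := by exact_mod_cast hx
  have hlog16 : (2.77 : ℝ) < Real.log x := by
    have h1 : Real.log 16 ≤ Real.log x := Real.log_le_log (by norm_num) hx16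
    have h2 : Real.log 16 = 4 * Real.log 2 := by
      rw [show (16 : ℝ) = 2 ^ 4 by norm_num, Real.log_pow]
      norm_num
    have h3 := Real.log_two_gt_d9
    linarith
  set w := ⌈Real.log x⌉₊ with hw
  have hw1 : Real.log x ≤ w := Nat.le_ceil _
  have hw2 : (w : ℝ) < Real.log x + 1 := Nat.ceil_lt_add_one (by linarith)
  have hw3 : 3 ≤ w := by
    have h1 : (2 : ℝ) < w := by linarith
    have h2 : 2 < w := by exact_mod_cast h1
    omega
  have hwpos : (0 : ℝ) < w := by linarith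
  have hsum := totb_sum C₀ hC x w hw3 hw1 (by linarith) N hN hNx
  have hlogw : 1 ≤ Real.log w := by
    rw [Real.le_log_iff_exp_le hwpos]
    have : (3 : ℝ) ≤ w := by exact_mod_cast hw3
    linarith [Real.exp_one_lt_three]
  have hlogw2 : Real.log w ≤ 2 * Real.log (Real.log x) := by
    have h1 : (w : ℝ) ≤ Real.log x ^ 2 := by nlinarith
    have h2 := Real.log_le_log hwpos h1
    rw [Real.log_pow] at h2
    exact_mod_cast h2
  calc (N : ℝ) / Nat.totient N ≤ Real.exp (2 * ∑ p ∈ N.primeFactors, (1 : ℝ) / p) :=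
        totb_ratio N hN
    _ ≤ Real.exp (18 * Real.log (Real.log w) + (2 * C₀ + 4)) := by
        apply Real.exp_le_exp.mpr
        linarith
    _ = Real.log w ^ 18 * Real.exp (2 * C₀ + 4) := by
        rw [Real.exp_add]
        congr 1
        rw [show (18 : ℝ) * Real.log (Real.log w) = ((18 : ℕ) : ℝ) * Real.log (Real.log w) by
          norm_num, Real.exp_nat_mul, Real.exp_log (by linarith)]
    _ ≤ (2 * Real.log (Real.log x)) ^ 18 * Real.exp (2 * C₀ + 4) := by
        apply mul_le_mul_of_nonneg_right _ (Real.exp_pos _).le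
        exact pow_le_pow_left₀ (by linarith) hlogw2 18
    _ = 2 ^ 18 * Real.exp (2 * C₀ + 4) * Real.log (Real.log x) ^ 18 := by
        rw [mul_pow]
        ring

end Pool.Agent.Lib.H30F
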