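import Pool.Agent.Lib.H30F.Count2
import Pool.Agent.Lib.H30F.TotBound
import Pool.Agent.Lib.H30F.MSum

/-!
# Chunk CNT4

The main case: primes `p = (q - 1) φ(m) + 1 ≤ x` with `q > y` prime, `m ≥ 3`, `ω(m) ≤ K`.

PROOF. Let `A` be the set on the left. For `p ∈ A` choose `q(p)`, `m(p)` (`choose`/`Classical.choose`), `F = A.image m`.
`A.card = ∑_{m ∈ F} card {p ∈ A : m(p) = m}` (`Finset.card_eq_sum_card_image`). For `m ∈ F`, `b = φ(m)`: `b ≥ 2` since
`m ≥ 3` (`Nat.totient_even`, `Nat.totient_pos`), the map `u ↦ b u + 1` from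
`{u ∈ [1, M] : u + 1 prime, z < u + 1, b u + 1 prime}`, `M = x / b`, is onto the fibre (`u = q - 1`; `b u ≤ x` so `u ≤ M`;
`z < y < q`). If the fibre is nonempty, `M ≥ q - 1 ≥ y ≥ z^422`. So the fibre has at most
`C₂ (x/b) / (log z)^2 (N/φ(N))^2` elements (count_two), `N = b (b - 1) ≤ x^2` and `N ≥ 1`, `N/φ(N) ≤ C₃ (log log x)^18`
(totient_bound). `F` satisfies the hypotheses of `sum_inv_totient` with `X = x`: a prime `r ∣ m` has
`r - 1 ∣ φ(m)`, `r - 1 ≤ φ(m) ≤ (x-1)/(q-1) ≤ x - 1`. Finally `∑_{r ≤ x} 1/r ≤ 9 log log x + C₄` (sum_inv_primes) and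
`exp((1/25)(9 log log x + C₄)) = exp(C₄/25) (log x)^(9/25)` (`Real.rpow_def_of_pos`).
-/

namespace Pool.Agent.Lib.H30F

open Pool.Agent.Lib.Sieve

/-- `2 ≤ φ(m)` for `m ≥ 3` -/
theorem cnt4_two_le {m : ℕ} (hm : 3 ≤ m) : 2 ≤ Nat.totient m := by
  have h1 := Nat.totient_even (n := m) (by omega)
  have h2 : 0 < Nat.totient m := Nat.totient_pos.2 (by omega)
  obtain ⟨t, ht⟩ := h1
  omega

/-- one fibre -/
theorem cnt4_fibre {C₂ C₃ : ℝ} (hC₂ : 0 < C₂) (hC₃ : 0 < C₃)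
    (h2 : ∀ b z M : ℕ, 2 ≤ b → 2 ≤ z → z ^ 422 ≤ M →
      (((Finset.Icc 1 M).filter (fun u => (u + 1).Prime ∧ z < u + 1 ∧ (b * u + 1).Prime)).card : ℝ)
        ≤ C₂ * M / Real.log z ^ 2 *
          (((b * (b - 1) : ℕ) : ℝ) / Nat.totient (b * (b - 1))) ^ 2)
    (h3 : ∀ x : ℕ, 16 ≤ x → ∀ N : ℕ, 1 ≤ N → N ≤ x ^ 2 →
      (N : ℝ) / Nat.totient N ≤ C₃ * Real.log (Real.log x) ^ 18)
    {x y z b : ℕ} (hx : 16 ≤ x) (hz : 2 ≤ z) (hzy : z ^ 422 ≤ y) (hb : 2 ≤ b) (B : Finset ℕ)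
    (hB : ∀ p ∈ B, p ≤ x ∧ p.Prime ∧ ∃ q : ℕ, q.Prime ∧ y < q ∧ p = (q - 1) * b + 1) :
    (B.card : ℝ) ≤ C₂ * C₃ ^ 2 * x * Real.log (Real.log x) ^ 36 / Real.log z ^ 2 * (1 / b) := by
  have hlx : 0 ≤ Real.log (Real.log x) ^ 36 := by
    have : Real.log (Real.log x) ^ 36 = (Real.log (Real.log x) ^ 18) ^ 2 := by ring
    rw [this]
    positivity
  have hlz : 0 < Real.log z := Real.log_pos (by exact_mod_cast (by omega : 1 < z))
  have hb0 : (0 : ℝ) < b := by exact_mod_cast (by omega : 0 < b)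
  rcases B.eq_empty_or_nonempty with rfl | hne
  · rw [Finset.card_empty, Nat.cast_zero]
    positivity
  · have hsub : B ⊆ ((Finset.Icc 1 (x / b)).filter
        (fun u => (u + 1).Prime ∧ z < u + 1 ∧ (b * u + 1).Prime)).image (fun u => b * u + 1) := by
      intro p hp
      obtain ⟨h5, h6, q, h7, h8, h9⟩ := hB p hp
      have hq := h7.two_le
      have e1 : b * (q - 1) + 1 = p := by rw [h9, mul_comm]
      refine Finset.mem_image.2 ⟨q - 1, Finset.mem_filter.2 ⟨Finset.mem_Icc.2 ⟨by omega, ?_⟩, ?_, ?_, ?_⟩,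
        e1⟩
      · rw [Nat.le_div_iff_mul_le (by omega), mul_comm]
        omega
      · rwa [Nat.sub_add_cancel (by omega)]
      · have : z ≤ z ^ 422 := Nat.le_self_pow (by norm_num) z
        omega
      · rwa [e1]
    have hM : z ^ 422 ≤ x / b ∧ b ≤ x := by
      obtain ⟨p, hp⟩ := hne
      obtain ⟨h5, h6, q, h7, h8, h9⟩ := hB p hp
      have hq := h7.two_le
      constructor
      · rw [Nat.le_div_iff_mul_le (by omega)]
        have : z ^ 422 * b ≤ (q - 1) * b := Nat.mul_le_mul_right _ (by omega)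
        omega
      · have : 1 * b ≤ (q - 1) * b := Nat.mul_le_mul_right _ (by omega)
        omega
    have hcard : (B.card : ℝ) ≤ (((Finset.Icc 1 (x / b)).filter
        (fun u => (u + 1).Prime ∧ z < u + 1 ∧ (b * u + 1).Prime)).card : ℝ) := by
      exact_mod_cast (Finset.card_le_card hsub).trans Finset.card_image_le
    have hN1 : 1 ≤ b * (b - 1) := Nat.mul_pos (by omega) (by omega)
    have hN2 : b * (b - 1) ≤ x ^ 2 := by
      rw [sq]
      exact Nat.mul_le_mul hM.2 (by omega)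
    have h10 := h2 b z (x / b) hb hz hM.1
    have h11 := h3 x hx _ hN1 hN2
    have h12 : ((x / b : ℕ) : ℝ) ≤ x * (1 / b) := by
      have := Nat.cast_div_le (α := ℝ) (m := x) (n := b)
      rw [mul_one_div]
      exact this
    calc (B.card : ℝ) ≤ _ := hcard
      _ ≤ _ := h10
      _ ≤ C₂ * (x * (1 / b)) / Real.log z ^ 2 * (C₃ * Real.log (Real.log x) ^ 18) ^ 2 := by
          gcongr
      _ = C₂ * C₃ ^ 2 * x * Real.log (Real.log x) ^ 36 / Real.log z ^ 2 * (1 / b) := by ring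

open Classical in
theorem count_four : ∃ C : ℝ, 0 < C ∧ ∀ x K y z : ℕ, 16 ≤ x → 2 ≤ z → z ^ 422 ≤ y →
    (((Finset.Icc 1 x).filter (fun p => p.Prime ∧ ∃ q m : ℕ, q.Prime ∧ y < q ∧ 3 ≤ m ∧
      m.primeFactors.card ≤ K ∧ p = (q - 1) * Nat.totient m + 1)).card : ℝ)
      ≤ C * x * Real.log (Real.log x) ^ 36 / Real.log z ^ 2 *
        (100 ^ K * Real.log x ^ (9 / 25 : ℝ)) := by
  obtain ⟨C₂, hC₂, h2⟩ := count_two
  obtain ⟨C₃, hC₃, h3⟩ := totient_bound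
  obtain ⟨C₄, hC₄, h4⟩ := sum_inv_primes
  refine ⟨C₂ * C₃ ^ 2 * Real.exp (C₄ / 25), by positivity, fun x K y z hx hz hzy => ?_⟩
  set A := (Finset.Icc 1 x).filter (fun p => p.Prime ∧ ∃ q m : ℕ, q.Prime ∧ y < q ∧ 3 ≤ m ∧
      m.primeFactors.card ≤ K ∧ p = (q - 1) * Nat.totient m + 1) with hA
  have hmem : ∀ p ∈ A, p ≤ x ∧ p.Prime ∧ ∃ m : ℕ, 3 ≤ m ∧ m.primeFactors.card ≤ K ∧
      ∃ q : ℕ, q.Prime ∧ y < q ∧ p = (q - 1) * Nat.totient m + 1 := by
    intro p hp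
    rw [hA, Finset.mem_filter, Finset.mem_Icc] at hp
    obtain ⟨⟨-, h5⟩, h6, q, m, h7, h8, h9, h10, h11⟩ := hp
    exact ⟨h5, h6, m, h9, h10, q, h7, h8, h11⟩
  choose! h5 h6 μ h7 h8 h9 using hmem
  have hlz : 0 < Real.log z := Real.log_pos (by exact_mod_cast (by omega : 1 < z))
  have hlx : 0 ≤ Real.log (Real.log x) ^ 36 := by
    have : Real.log (Real.log x) ^ 36 = (Real.log (Real.log x) ^ 18) ^ 2 := by ring
    rw [this]
    positivity
  have hx16 : (16 : ℝ) ≤ x := by exact_mod_cast hx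
  have hlogx : 0 < Real.log x := Real.log_pos (by linarith)
  have h10 : A.card = ∑ m ∈ A.image μ, (A.filter (fun p => μ p = m)).card :=
    Finset.card_eq_sum_card_image μ A
  have h11 : ∀ m ∈ A.image μ, ((A.filter (fun p => μ p = m)).card : ℝ) ≤
      C₂ * C₃ ^ 2 * x * Real.log (Real.log x) ^ 36 / Real.log z ^ 2 * (1 / Nat.totient m) := by
    intro m hm
    obtain ⟨p₀, hp₀, rfl⟩ := Finset.mem_image.1 hm
    refine cnt4_fibre hC₂ hC₃ h2 h3 hx hz hzy (cnt4_two_le (h7 p₀ hp₀)) _ fun p hp => ?_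
    rw [Finset.mem_filter] at hp
    refine ⟨h5 p hp.1, h6 p hp.1, ?_⟩
    have := h9 p hp.1
    rwa [hp.2] at this
  have h12 : ∑ m ∈ A.image μ, (1 : ℝ) / Nat.totient m ≤
      100 ^ K * Real.exp ((1 / 25) * ∑ r ∈ primesUpTo x, (1 : ℝ) / r) := by
    refine sum_inv_totient K x _ fun m hm => ?_
    obtain ⟨p, hp, rfl⟩ := Finset.mem_image.1 hm
    have h13 := h7 p hp
    refine ⟨by omega, h8 p hp, fun r hr => ?_⟩
    obtain ⟨q, hq1, hq2, hq3⟩ := h9 p hp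
    have h14 := Nat.prime_of_mem_primeFactors hr
    have h15 : Nat.totient r ∣ Nat.totient (μ p) :=
      Nat.totient_dvd_of_dvd (Nat.dvd_of_mem_primeFactors hr)
    rw [Nat.totient_prime h14] at h15
    have h16 : 0 < Nat.totient (μ p) := Nat.totient_pos.2 (by omega)
    have h17 := Nat.le_of_dvd h16 h15
    have h18 : 1 * Nat.totient (μ p) ≤ (q - 1) * Nat.totient (μ p) :=
      Nat.mul_le_mul_right _ (by have := hq1.two_le; omega)
    have h19 := h5 p hp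
    omega
  have h13 : Real.exp ((1 / 25) * ∑ r ∈ primesUpTo x, (1 : ℝ) / r) ≤
      Real.exp (C₄ / 25) * Real.log x ^ (9 / 25 : ℝ) := by
    rw [Real.rpow_def_of_pos hlogx, ← Real.exp_add]
    apply Real.exp_le_exp.2
    have := h4 x (by omega)
    linarith
  have hx0 : (0 : ℝ) ≤ x := by linarith
  calc (A.card : ℝ) = ∑ m ∈ A.image μ, ((A.filter (fun p => μ p = m)).card : ℝ) := by
        rw [h10]; push_cast; rfl
    _ ≤ ∑ m ∈ A.image μ, C₂ * C₃ ^ 2 * x * Real.log (Real.log x) ^ 36 / Real.log z ^ 2 *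
          (1 / Nat.totient m) := Finset.sum_le_sum h11
    _ = C₂ * C₃ ^ 2 * x * Real.log (Real.log x) ^ 36 / Real.log z ^ 2 *
          ∑ m ∈ A.image μ, (1 : ℝ) / Nat.totient m := by rw [Finset.mul_sum]
    _ ≤ C₂ * C₃ ^ 2 * x * Real.log (Real.log x) ^ 36 / Real.log z ^ 2 *
          (100 ^ K * (Real.exp (C₄ / 25) * Real.log x ^ (9 / 25 : ℝ))) := by
        gcongr
        exact h12.trans (by gcongr)
    _ = C₂ * C₃ ^ 2 * Real.exp (C₄ / 25) * x * Real.log (Real.log x) ^ 36 / Real.log z ^ 2 *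
        (100 ^ K * Real.log x ^ (9 / 25 : ℝ)) := by ring

end Pool.Agent.Lib.H30F
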