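import Pool.Agent.Lib.Sieve.PrimeSum

/-!
# Chunk MSUM2

As MSUM, but only the prime factors in a set (predicate) `P` are penalised.

PROOF. Same proof as MSum.lean (copy it) with `g(m) = t^(#{r ∈ m.primeFactors : P r}) / φ(m)`:
`1/φ(m) ≤ t^(-J) g(m)` for `m ∈ F`, `∑_e g(r^e) = 1 + τ r/(r-1)^2 ≤ 1 + 4 τ/r` with `τ = t` if `P r`, `τ = 1` otherwise.
`∏ (1 + 4 τ/r) ≤ exp(∑ 4 τ/r)` and `τ ≤ t + (1 if ¬ P r else 0)`.
-/

namespace Pool.Agent.Lib.H30F

open Pool.Agent.Lib.Sieve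

open Classical in
/-- The weight of Rankin's trick with a predicate. -/
noncomputable def msum2_g (P : ℕ → Prop) (t : ℝ) (m : ℕ) : ℝ :=
  t ^ (m.primeFactors.filter P).card / (Nat.totient m : ℝ)

theorem msum2_g_nonneg (P : ℕ → Prop) {t : ℝ} (ht : 0 < t) (m : ℕ) : 0 ≤ msum2_g P t m := by
  unfold msum2_g
  positivity

theorem msum2_g_one (P : ℕ → Prop) (t : ℝ) : msum2_g P t 1 = 1 := by
  simp [msum2_g]

open Classical in
theorem msum2_g_mul (P : ℕ → Prop) (t : ℝ) {m n : ℕ} (h : Nat.Coprime m n) :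
    msum2_g P t (m * n) = msum2_g P t m * msum2_g P t n := by
  unfold msum2_g
  rw [h.primeFactors_mul, Finset.filter_union, Finset.card_union_of_disjoint
    (Finset.disjoint_filter_filter h.disjoint_primeFactors),
    Nat.totient_mul h, pow_add, Nat.cast_mul, mul_div_mul_comm]

open Classical in
/-- the local factor -/
noncomputable def msum2_t (P : ℕ → Prop) (t : ℝ) (r : ℕ) : ℝ := if P r then t else 1

theorem msum2_t_nonneg (P : ℕ → Prop) {t : ℝ} (ht : 0 < t) (r : ℕ) : 0 ≤ msum2_t P t r := by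
  unfold msum2_t
  split_ifs <;> linarith

open Classical in
theorem msum2_g_pow (P : ℕ → Prop) (t : ℝ) {r : ℕ} (hr : r.Prime) (e : ℕ) :
    msum2_g P t (r ^ (e + 1)) = msum2_t P t r / ((r : ℝ) - 1) * ((r : ℝ)⁻¹) ^ e := by
  have h0 : t ^ (Finset.filter P (r ^ (e + 1)).primeFactors).card = msum2_t P t r := by
    rw [Nat.primeFactors_prime_pow (Nat.succ_ne_zero e) hr, Finset.filter_singleton]
    unfold msum2_t
    split_ifs <;> simp
  unfold msum2_g
  rw [h0, Nat.totient_prime_pow_succ hr, Nat.cast_mul, Nat.cast_sub hr.one_lt.le, Nat.cast_pow,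
    Nat.cast_one, inv_pow]
  have h1 : (0 : ℝ) < r := by exact_mod_cast hr.pos
  have h2 : (0 : ℝ) < (r : ℝ) - 1 := by
    have : (1 : ℝ) < r := by exact_mod_cast hr.one_lt
    linarith
  field_simp

theorem msum2_hasSum (P : ℕ → Prop) (t : ℝ) {r : ℕ} (hr : r.Prime) :
    HasSum (fun e : ℕ => msum2_g P t (r ^ e))
      (msum2_t P t r / ((r : ℝ) - 1) * (1 - (r : ℝ)⁻¹)⁻¹ + 1) := by
  have h0 : (0 : ℝ) ≤ (r : ℝ)⁻¹ := by positivity
  have h1 : (r : ℝ)⁻¹ < 1 := by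
    apply inv_lt_one_of_one_lt₀
    exact_mod_cast hr.one_lt
  have h2 : HasSum (fun e : ℕ => msum2_g P t (r ^ (e + 1)))
      (msum2_t P t r / ((r : ℝ) - 1) * (1 - (r : ℝ)⁻¹)⁻¹) := by
    have h3 := (hasSum_geometric_of_lt_one h0 h1).mul_left (msum2_t P t r / ((r : ℝ) - 1))
    refine h3.congr_fun ?_
    intro e
    exact msum2_g_pow P t hr e
  have h4 := (hasSum_nat_add_iff (f := fun e : ℕ => msum2_g P t (r ^ e)) 1).1 h2
  rw [Finset.sum_range_one, pow_zero, msum2_g_one] at h4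
  exact h4

theorem msum2_factor (P : ℕ → Prop) {t : ℝ} (ht : 0 < t) {r : ℕ} (hr : r.Prime) :
    (∑' e : ℕ, msum2_g P t (r ^ e)) ≤ Real.exp (4 * msum2_t P t r * ((1 : ℝ) / r)) := by
  rw [(msum2_hasSum P t hr).tsum_eq]
  have h0 := msum2_t_nonneg P ht r
  set τ := msum2_t P t r
  have h1 : (2 : ℝ) ≤ r := by exact_mod_cast hr.two_le
  have h2 : τ / ((r : ℝ) - 1) * (1 - (r : ℝ)⁻¹)⁻¹ ≤ 4 * τ * ((1 : ℝ) / r) := by
    have h3 : τ / ((r : ℝ) - 1) * (1 - (r : ℝ)⁻¹)⁻¹ = τ * r / ((r : ℝ) - 1) ^ 2 := by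
      have h5 : (r : ℝ) ≠ 0 := by linarith
      have h6 : (r : ℝ) - 1 ≠ 0 := by linarith
      have h7 : (1 : ℝ) - (r : ℝ)⁻¹ = ((r : ℝ) - 1) / r := by
        field_simp
      rw [h7]
      field_simp
    have h4 : (0 : ℝ) < ((r : ℝ) - 1) ^ 2 := by
      have : (0 : ℝ) < (r : ℝ) - 1 := by linarith
      positivity
    have h5 : (0 : ℝ) < r := by linarith
    rw [h3, div_le_iff₀ h4]
    have h6 : 4 * τ * ((1 : ℝ) / r) * ((r : ℝ) - 1) ^ 2 = τ * (4 * ((r : ℝ) - 1) ^ 2) / r := by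
      ring
    rw [h6, le_div_iff₀ h5, mul_assoc]
    apply mul_le_mul_of_nonneg_left _ h0
    nlinarith [sq_nonneg ((r : ℝ) - 2)]
  have h8 := Real.add_one_le_exp (4 * τ * ((1 : ℝ) / r))
  linarith

open Classical in
theorem sum_inv_totient2 (P : ℕ → Prop) (t : ℝ) (ht0 : 0 < t) (ht1 : t ≤ 1) (J X : ℕ)
    (F : Finset ℕ)
    (hF : ∀ m ∈ F, 1 ≤ m ∧ (m.primeFactors.filter P).card ≤ J ∧ ∀ r ∈ m.primeFactors, r ≤ X) :
    ∑ m ∈ F, (1 : ℝ) / Nat.totient m
      ≤ (1 / t) ^ J * Real.exp (4 * t * ∑ r ∈ primesUpTo X, (1 : ℝ) / r +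
        4 * ∑ r ∈ (primesUpTo X).filter (fun r => ¬ P r), (1 : ℝ) / r) := by
  have h1 := EulerProduct.summable_and_hasSum_smoothNumbers_prod_primesBelow_tsum
    (f := msum2_g P t) (msum2_g_one P t) (fun h => msum2_g_mul P t h) (fun {p} hp => by
      have h2 := (msum2_hasSum P t hp).summable
      refine h2.congr ?_
      intro e
      rw [Real.norm_of_nonneg (msum2_g_nonneg P ht0 _)]) (X + 1)
  obtain ⟨-, hhas⟩ := h1
  have h3 : ∑ m ∈ F, msum2_g P t m ≤ ∏ p ∈ (X + 1).primesBelow, ∑' n : ℕ, msum2_g P t (p ^ n) := by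
    let s : Finset (Nat.smoothNumbers (X + 1)) :=
      F.attach.map ⟨fun m => ⟨m.1, by
        obtain ⟨hm1, -, hm2⟩ := hF m.1 m.2
        rw [Nat.mem_smoothNumbers]
        refine ⟨by omega, fun q hq => ?_⟩
        have := hm2 q (Nat.mem_primeFactors_iff_mem_primeFactorsList.2 hq)
        omega⟩, fun a b hab => by
        apply Subtype.ext
        exact congrArg (fun x => x.1) hab⟩
    have h4 := sum_le_hasSum s (fun i _ => msum2_g_nonneg P ht0 _) hhas
    refine le_trans (le_of_eq ?_) h4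
    rw [Finset.sum_map]
    exact (Finset.sum_attach F fun m => msum2_g P t m).symm
  have h5 : ∏ p ∈ (X + 1).primesBelow, ∑' n : ℕ, msum2_g P t (p ^ n)
      ≤ Real.exp (∑ r ∈ primesUpTo X, 4 * msum2_t P t r * ((1 : ℝ) / r)) := by
    rw [Real.exp_sum]
    refine Finset.prod_le_prod (fun p _ => tsum_nonneg fun n => msum2_g_nonneg P ht0 _) ?_
    intro p hp
    exact msum2_factor P ht0 (mem_primesUpTo.1 hp).1
  have h5' : ∑ r ∈ primesUpTo X, 4 * msum2_t P t r * ((1 : ℝ) / r) ≤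
      4 * t * ∑ r ∈ primesUpTo X, (1 : ℝ) / r +
        4 * ∑ r ∈ (primesUpTo X).filter (fun r => ¬ P r), (1 : ℝ) / r := by
    rw [Finset.mul_sum, Finset.mul_sum, Finset.sum_filter, ← Finset.sum_add_distrib]
    refine Finset.sum_le_sum fun r _ => ?_
    have h9 : (0 : ℝ) ≤ 1 / (r : ℝ) := by positivity
    unfold msum2_t
    by_cases hP : P r
    · simp [hP]
    · simp only [hP, if_false, not_false_eq_true, if_true]
      nlinarith
  have h6 : ∀ m ∈ F, (1 : ℝ) / Nat.totient m ≤ (1 / t) ^ J * msum2_g P t m := by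
    intro m hm
    obtain ⟨-, hm1, -⟩ := hF m hm
    unfold msum2_g
    rw [← mul_div_assoc]
    apply div_le_div_of_nonneg_right _ (Nat.cast_nonneg _)
    have h7 : t ^ J ≤ t ^ (m.primeFactors.filter P).card :=
      pow_le_pow_of_le_one ht0.le ht1 hm1
    calc (1 : ℝ) = (1 / t) ^ J * t ^ J := by
          rw [← mul_pow, one_div, inv_mul_cancel₀ ht0.ne', one_pow]
      _ ≤ (1 / t) ^ J * t ^ (m.primeFactors.filter P).card :=
          mul_le_mul_of_nonneg_left h7 (by positivity)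
  calc ∑ m ∈ F, (1 : ℝ) / Nat.totient m ≤ ∑ m ∈ F, (1 / t) ^ J * msum2_g P t m :=
        Finset.sum_le_sum h6
    _ = (1 / t) ^ J * ∑ m ∈ F, msum2_g P t m := by rw [Finset.mul_sum]
    _ ≤ _ := mul_le_mul_of_nonneg_left
        (h3.trans (h5.trans (Real.exp_le_exp.2 h5'))) (by positivity)

end Pool.Agent.Lib.H30F
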