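import Pool.Agent.Lib.H30F.PrimesFew

/-!
# Chunk SFEW

`∑ 1/q` over the primes `q` with `Ω(q - 1) ≤ T` converges.

PROOF. Dyadic blocks: the `q ∈ (2^i, 2^(i+1)]`, `i ≥ 4`, contribute at most
`2^(-i) C 2^i (log log 2^i)^E/(log 2^i)^2 ≤ C' (log i)^E/i^2 ≤ C'' i^(-3/2)`, summable; the `q ≤ 16` contribute at most `6`.
(`log log 2^i ≤ log i`, `log 2^i = i log 2`; `(log i)^E ≤ C i^(1/2)`: `isLittleO_log_rpow_rpow_atTop` or
`Real.add_pow_le_pow_mul_pow_of_add_eq_one`...)
-/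

namespace Pool.Agent.Lib.H30F

open Pool.Agent.Lib.Sieve

theorem sfew_summable (C : ℝ) (hC : 0 < C) (E : ℕ) :
    Summable (fun i : ℕ => C * |Real.log (Real.log ((2 : ℝ) ^ i))| ^ E / Real.log ((2 : ℝ) ^ i) ^ 2) := by
  have hlog2 : 0 < Real.log 2 := Real.log_pos (by norm_num)
  have hsum : Summable (fun i : ℕ => (i : ℝ) ^ (-(3 / 2) : ℝ)) :=
    Real.summable_nat_rpow.2 (by norm_num)
  refine summable_of_isBigO_nat hsum ?_
  have ht : Filter.Tendsto (fun i : ℕ => Real.log ((2 : ℝ) ^ i)) Filter.atTop Filter.atTop := by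
    have : (fun i : ℕ => Real.log ((2 : ℝ) ^ i)) = fun i : ℕ => (i : ℝ) * Real.log 2 := by
      funext i
      rw [Real.log_pow]
    rw [this]
    exact Filter.Tendsto.atTop_mul_const hlog2 tendsto_natCast_atTop_atTop
  have ho := (isLittleO_log_rpow_rpow_atTop (s := 1 / 2) (E : ℝ) (by norm_num)).bound
    (show (0 : ℝ) < 1 by norm_num)
  refine Asymptotics.IsBigO.of_bound (C / Real.log 2 ^ 2) ?_
  filter_upwards [ht.eventually ho, Filter.eventually_ge_atTop 1] with i hi h1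
  have hi0 : (0 : ℝ) < i := by exact_mod_cast h1
  have hu : Real.log ((2 : ℝ) ^ i) = i * Real.log 2 := by rw [Real.log_pow]
  have hu0 : 0 < Real.log ((2 : ℝ) ^ i) := by rw [hu]; positivity
  have hle : Real.log ((2 : ℝ) ^ i) ≤ i := by
    rw [hu]
    have := Real.log_two_lt_d9
    nlinarith
  rw [Real.rpow_natCast, one_mul, Real.norm_eq_abs, abs_pow, Real.norm_eq_abs,
    abs_of_nonneg (Real.rpow_nonneg hu0.le _)] at hi
  have h2 : Real.log ((2 : ℝ) ^ i) ^ (1 / 2 : ℝ) ≤ (i : ℝ) ^ (1 / 2 : ℝ) :=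
    Real.rpow_le_rpow hu0.le hle (by norm_num)
  have h3 : |Real.log (Real.log ((2 : ℝ) ^ i))| ^ E ≤ (i : ℝ) ^ (1 / 2 : ℝ) := hi.trans h2
  rw [Real.norm_eq_abs, abs_of_nonneg (by positivity), Real.norm_eq_abs,
    abs_of_nonneg (Real.rpow_nonneg hi0.le _)]
  have h4 : (i : ℝ) ^ (1 / 2 : ℝ) / (i : ℝ) ^ 2 = (i : ℝ) ^ (-(3 / 2) : ℝ) := by
    rw [← Real.rpow_natCast, ← Real.rpow_sub hi0]
    congr 1
    norm_num
  calc C * |Real.log (Real.log ((2 : ℝ) ^ i))| ^ E / Real.log ((2 : ℝ) ^ i) ^ 2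
      ≤ C * (i : ℝ) ^ (1 / 2 : ℝ) / Real.log ((2 : ℝ) ^ i) ^ 2 := by gcongr
    _ = C / Real.log 2 ^ 2 * ((i : ℝ) ^ (1 / 2 : ℝ) / (i : ℝ) ^ 2) := by
      rw [hu]
      field_simp
    _ = C / Real.log 2 ^ 2 * (i : ℝ) ^ (-(3 / 2) : ℝ) := by rw [h4]

theorem sum_few (T : ℕ) : ∃ S : ℝ, 0 ≤ S ∧ ∀ X : ℕ,
    ∑ q ∈ (primesUpTo X).filter (fun q => ArithmeticFunction.cardFactors (q - 1) ≤ T), (1 : ℝ) / q
      ≤ S := by
  obtain ⟨C, hC, E, hCE⟩ := primes_few T
  set b : ℕ → ℝ := fun i : ℕ =>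
    C * |Real.log (Real.log ((2 : ℝ) ^ i))| ^ E / Real.log ((2 : ℝ) ^ i) ^ 2 with hb
  have hbs : Summable b := sfew_summable C hC E
  have hb0 : ∀ i, 0 ≤ b i := by
    intro i
    rw [hb]
    positivity
  have hts : (0 : ℝ) ≤ ∑' i, b i := tsum_nonneg hb0
  refine ⟨17 + ∑' i, b i, by linarith, ?_⟩
  intro X
  set F : Finset ℕ := (primesUpTo X).filter
    (fun q => ArithmeticFunction.cardFactors (q - 1) ≤ T) with hF
  rw [← Finset.sum_filter_add_sum_filter_not F (fun q => q ≤ 16)]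
  refine add_le_add ?_ ?_
  · have h1 : ∑ q ∈ F.filter (fun q => q ≤ 16), (1 : ℝ) / q ≤
        ∑ q ∈ F.filter (fun q => q ≤ 16), (1 : ℝ) := by
      refine Finset.sum_le_sum fun q hq => ?_
      rw [Finset.mem_filter, hF, Finset.mem_filter, mem_primesUpTo] at hq
      have : (1 : ℝ) ≤ q := by exact_mod_cast hq.1.1.1.one_lt.le
      rw [div_le_one (by linarith)]
      exact this
    refine h1.trans ?_
    rw [Finset.sum_const, nsmul_eq_mul, mul_one]
    have h2 : (F.filter (fun q => q ≤ 16)).card ≤ (Finset.range 17).card := by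
      refine Finset.card_le_card fun q hq => ?_
      rw [Finset.mem_filter] at hq
      rw [Finset.mem_range]
      omega
    rw [Finset.card_range] at h2
    exact_mod_cast h2
  · set G : Finset ℕ := F.filter (fun q => ¬ q ≤ 16) with hG
    have hmem : ∀ q ∈ G, q.Prime ∧ q ≤ X ∧ ArithmeticFunction.cardFactors (q - 1) ≤ T ∧
        16 < q := by
      intro q hq
      rw [hG, Finset.mem_filter, hF, Finset.mem_filter, mem_primesUpTo] at hq
      exact ⟨hq.1.1.1, hq.1.1.2, hq.1.2, by omega⟩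
    have hlog : ∀ q ∈ G, 2 ^ Nat.log 2 (q - 1) < q ∧ q ≤ 2 * 2 ^ Nat.log 2 (q - 1) := by
      intro q hq
      obtain ⟨_, _, _, h4⟩ := hmem q hq
      have h5 := Nat.pow_log_le_self 2 (x := q - 1) (by omega)
      have h6 := Nat.lt_pow_succ_log_self (b := 2) (by norm_num) (q - 1)
      rw [pow_succ] at h6
      omega
    have hmaps : ∀ q ∈ G, Nat.log 2 (q - 1) ∈ Finset.Ico 4 X := by
      intro q hq
      obtain ⟨_, h2, _, h4⟩ := hmem q hq
      obtain ⟨h5, h6⟩ := hlog q hq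
      rw [Finset.mem_Ico]
      refine ⟨?_, ?_⟩
      · have : 2 ^ 4 ≤ q - 1 := by omega
        exact (Nat.le_log_iff_pow_le (by norm_num) (by omega)).2 this
      · have := Nat.lt_two_pow_self (n := Nat.log 2 (q - 1))
        omega
    rw [← Finset.sum_fiberwise_of_maps_to hmaps]
    refine le_trans ?_ (hbs.sum_le_tsum (Finset.Ico 4 X) (fun i _ => hb0 i))
    refine Finset.sum_le_sum fun i hi => ?_
    rw [Finset.mem_Ico] at hi
    have h16 : 16 ≤ 2 ^ i := by
      calc 16 = 2 ^ 4 := by norm_num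
        _ ≤ 2 ^ i := Nat.pow_le_pow_right (by norm_num) hi.1
    have hcard := hCE (2 ^ i) h16
    have h2i : (0 : ℝ) < (2 : ℝ) ^ i := by positivity
    have hsub : G.filter (fun q => Nat.log 2 (q - 1) = i) ⊆
        (Finset.Ioc (2 ^ i) (2 * 2 ^ i)).filter (fun q => q.Prime ∧
          ArithmeticFunction.cardFactors (q - 1) ≤ T) := by
      intro q hq
      rw [Finset.mem_filter] at hq
      obtain ⟨h1, _, h3, _⟩ := hmem q hq.1
      have h5 := hlog q hq.1
      rw [hq.2] at h5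
      rw [Finset.mem_filter, Finset.mem_Ioc]
      exact ⟨h5, h1, h3⟩
    calc ∑ q ∈ G.filter (fun q => Nat.log 2 (q - 1) = i), (1 : ℝ) / q
        ≤ ∑ q ∈ (Finset.Ioc (2 ^ i) (2 * 2 ^ i)).filter (fun q => q.Prime ∧
          ArithmeticFunction.cardFactors (q - 1) ≤ T), (1 : ℝ) / q := by
          refine Finset.sum_le_sum_of_subset_of_nonneg hsub ?_
          intro q _ _
          positivity
      _ ≤ ∑ q ∈ (Finset.Ioc (2 ^ i) (2 * 2 ^ i)).filter (fun q => q.Prime ∧
          ArithmeticFunction.cardFactors (q - 1) ≤ T), (1 : ℝ) / (2 : ℝ) ^ i := by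
          refine Finset.sum_le_sum fun q hq => ?_
          rw [Finset.mem_filter, Finset.mem_Ioc] at hq
          have : ((2 : ℝ) ^ i) ≤ q := by exact_mod_cast hq.1.1.le
          exact one_div_le_one_div_of_le h2i this
      _ ≤ b i := by
          rw [Finset.sum_const, nsmul_eq_mul]
          push_cast at hcard
          have h7 : Real.log (Real.log ((2 : ℝ) ^ i)) ^ E ≤
              |Real.log (Real.log ((2 : ℝ) ^ i))| ^ E := by
            rw [← abs_pow]
            exact le_abs_self _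
          have h8 : C * (2 : ℝ) ^ i * Real.log (Real.log ((2 : ℝ) ^ i)) ^ E /
              Real.log ((2 : ℝ) ^ i) ^ 2 ≤ C * (2 : ℝ) ^ i *
              |Real.log (Real.log ((2 : ℝ) ^ i))| ^ E / Real.log ((2 : ℝ) ^ i) ^ 2 := by
            gcongr
          have h9 := hcard.trans h8
          calc _ ≤ (C * (2 : ℝ) ^ i * |Real.log (Real.log ((2 : ℝ) ^ i))| ^ E /
              Real.log ((2 : ℝ) ^ i) ^ 2) * (1 / (2 : ℝ) ^ i) :=
                mul_le_mul_of_nonneg_right h9 (by positivity)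
            _ = b i := by
              rw [hb]
              field_simp

end Pool.Agent.Lib.H30F
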