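import Pool.Agent.Lib.H30F.Count4
import Pool.Agent.Lib.H30F.SumFew
import Pool.Agent.Lib.H30F.MSum2
import Pool.Agent.Lib.H30F.OmegaBound

/-!
# Chunk CNT5

The main case with the condition `Ω(φ(m)) ≤ K ≤ B log log x`: the sum over `m` is `(log x)^ε`.

PROOF. As `count_four` (Count4.lean; copy it, `cnt4_fibre` is used as it is) with `sum_inv_totient2` instead of
`sum_inv_totient`: choose `t = min 1 (ε/72)`, so `4 t * 9 ≤ ε/2`; choose `T` with `B log(1/t)/(T + 1) ≤ ε/2`; `P r` is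
`T < Ω(r - 1)`; `J = K/(T+1)` (`omega_totient` and `Nat.le_div_iff_mul_le`);
`(1/t)^J ≤ exp(J log(1/t)) ≤ exp(B log log x log(1/t)/(T+1)) ≤ (log x)^(ε/2)`;
`exp(4 t ∑ 1/r) ≤ exp(4 t (9 log log x + C₄)) ≤ C (log x)^(ε/2)`; `exp(4 ∑_{Ω(r-1) ≤ T} 1/r) ≤ exp(4 S)` (`sum_few`).
-/

namespace Pool.Agent.Lib.H30F

open Pool.Agent.Lib.Sieve

open Classical in
theorem count_five (ε : ℝ) (hε : 0 < ε) (B : ℕ) : ∃ C : ℝ, 0 < C ∧ ∀ x K y z : ℕ,
    16 ≤ x → 2 ≤ z → z ^ 422 ≤ y → (K : ℝ) ≤ B * Real.log (Real.log x) →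
    (((Finset.Icc 1 x).filter (fun p => p.Prime ∧ ∃ q m : ℕ, q.Prime ∧ y < q ∧ 3 ≤ m ∧
      ArithmeticFunction.cardFactors (Nat.totient m) ≤ K ∧
      p = (q - 1) * Nat.totient m + 1)).card : ℝ)
      ≤ C * x * Real.log (Real.log x) ^ 36 / Real.log z ^ 2 * Real.log x ^ ε := by
  obtain ⟨C₂, hC₂, h2⟩ := count_two
  obtain ⟨C₃, hC₃, h3⟩ := totient_bound
  obtain ⟨C₄, hC₄, h4⟩ := sum_inv_primes
  set t : ℝ := min 1 (ε / 72) with ht
  have ht0 : 0 < t := lt_min one_pos (by linarith)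
  have ht1 : t ≤ 1 := min_le_left _ _
  have ht2 : t ≤ ε / 72 := min_le_right _ _
  have hlt : 0 ≤ Real.log (1 / t) := Real.log_nonneg (by rw [le_div_iff₀ ht0]; linarith)
  set T : ℕ := ⌈2 * B * Real.log (1 / t) / ε⌉₊ with hT
  have hT1 : (B : ℝ) * Real.log (1 / t) ≤ ε / 2 * (T + 1) := by
    have h5 : 2 * B * Real.log (1 / t) / ε ≤ T := Nat.le_ceil _
    rw [div_le_iff₀ hε] at h5
    nlinarith
  obtain ⟨S, hS0, hS⟩ := sum_few T
  refine ⟨C₂ * C₃ ^ 2 * Real.exp (4 * t * C₄ + 4 * S), by positivity,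
    fun x K y z hx hz hzy hKB => ?_⟩
  set A := (Finset.Icc 1 x).filter (fun p => p.Prime ∧ ∃ q m : ℕ, q.Prime ∧ y < q ∧ 3 ≤ m ∧
      ArithmeticFunction.cardFactors (Nat.totient m) ≤ K ∧ p = (q - 1) * Nat.totient m + 1) with hA
  have hmem : ∀ p ∈ A, p ≤ x ∧ p.Prime ∧ ∃ m : ℕ, 3 ≤ m ∧
      ArithmeticFunction.cardFactors (Nat.totient m) ≤ K ∧
      ∃ q : ℕ, q.Prime ∧ y < q ∧ p = (q - 1) * Nat.totient m + 1 := by
    intro p hp
    rw [hA, Finset.mem_filter, Finset.mem_Icc] at hp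
    obtain ⟨⟨-, h5⟩, h6, q, m, h7, h8, h9, h10, h11⟩ := hp
    exact ⟨h5, h6, m, h9, h10, q, h7, h8, h11⟩
  choose! h5 h6 μ h7 h8 h9 using hmem
  have hlz : 0 < Real.log z := Real.log_pos (by exact_mod_cast (by omega : 1 < z))
  have hlx : 0 ≤ Real.log (Real.log x) ^ 36 := by
    have : Real.log (Real.log x) ^ 36 = (Real.log (Real.log x) ^ 18) ^ 2 := by ring
    rw [this]
    positivity
  have hx16 : (16 : ℝ) ≤ x := by exact_mod_cast hx
  have hlogx1 : 1 ≤ Real.log x := by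
    rw [Real.le_log_iff_exp_le (by linarith)]
    have := Real.exp_one_lt_d9
    linarith
  have hlogx : 0 < Real.log x := by linarith
  have hll : 0 ≤ Real.log (Real.log x) := Real.log_nonneg hlogx1
  have h10 : A.card = ∑ m ∈ A.image μ, (A.filter (fun p => μ p = m)).card :=
    Finset.card_eq_sum_card_image μ A
  have h11 : ∀ m ∈ A.image μ, ((A.filter (fun p => μ p = m)).card : ℝ) ≤
      C₂ * C₃ ^ 2 * x * Real.log (Real.log x) ^ 36 / Real.log z ^ 2 * (1 / Nat.totient m) := by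
    intro m hm
    obtain ⟨p₀, hp₀, rfl⟩ := Finset.mem_image.1 hm
    refine cnt4_fibre hC₂ hC₃ h2 h3 hx hz hzy (cnt4_two_le (h7 p₀ hp₀)) _ fun p hp => ?_
    rw [Finset.mem_filter] at hp
    refine ⟨h5 p hp.1, h6 p hp.1, ?_⟩
    have := h9 p hp.1
    rwa [hp.2] at this
  have h12 : ∑ m ∈ A.image μ, (1 : ℝ) / Nat.totient m ≤
      (1 / t) ^ (K / (T + 1)) * Real.exp (4 * t * ∑ r ∈ primesUpTo x, (1 : ℝ) / r + 4 * S) := by
    refine (sum_inv_totient2 (fun r => T < ArithmeticFunction.cardFactors (r - 1)) t ht0 ht1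
      (K / (T + 1)) x (A.image μ) fun m hm => ?_).trans ?_
    rotate_left
    · apply mul_le_mul_of_nonneg_left _ (by positivity)
      apply Real.exp_le_exp.2
      have h20 : ∀ inst : DecidablePred
          (fun r => ¬ (T < ArithmeticFunction.cardFactors (r - 1))),
          ∑ r ∈ @Finset.filter _ (fun r => ¬ (T < ArithmeticFunction.cardFactors (r - 1))) inst
            (primesUpTo x), (1 : ℝ) / r ≤ S := by
        intro inst
        refine le_trans (le_of_eq ?_) (hS x)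
        refine Finset.sum_congr ?_ fun _ _ => rfl
        ext r
        simp only [Finset.mem_filter, not_lt]
      refine add_le_add le_rfl (mul_le_mul_of_nonneg_left (h20 _) (by norm_num))
    obtain ⟨p, hp, rfl⟩ := Finset.mem_image.1 hm
    have h13 := h7 p hp
    refine ⟨by omega, ?_, fun r hr => ?_⟩
    · rw [Nat.le_div_iff_mul_le (by omega), mul_comm]
      refine le_trans (le_of_eq ?_) ((omega_totient (μ p) T (by omega)).trans (h8 p hp))
      refine congrArg (fun s : Finset ℕ => (T + 1) * s.card) ?_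
      ext r
      simp only [Finset.mem_filter]
    obtain ⟨q, hq1, hq2, hq3⟩ := h9 p hp
    have h14 := Nat.prime_of_mem_primeFactors hr
    have h15 : Nat.totient r ∣ Nat.totient (μ p) :=
      Nat.totient_dvd_of_dvd (Nat.dvd_of_mem_primeFactors hr)
    rw [Nat.totient_prime h14] at h15
    have h16 : 0 < Nat.totient (μ p) := Nat.totient_pos.2 (by omega)
    have h17 := Nat.le_of_dvd h16 h15
    have h18 : 1 * Nat.totient (μ p) ≤ (q - 1) * Nat.totient (μ p) :=
      Nat.mul_le_mul_right _ (by have := hq1.two_le; omega)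
    have h19 := h5 p hp
    omega
  have h21 : (1 / t) ^ (K / (T + 1)) ≤ Real.exp (ε / 2 * Real.log (Real.log x)) := by
    have e1 : (1 / t) ^ (K / (T + 1)) = Real.exp (((K / (T + 1) : ℕ) : ℝ) * Real.log (1 / t)) := by
      rw [Real.exp_nat_mul, Real.exp_log (by positivity)]
    rw [e1]
    apply Real.exp_le_exp.2
    have hT0 : (0 : ℝ) < (T : ℝ) + 1 := by positivity
    have e2 : ((K / (T + 1) : ℕ) : ℝ) ≤ K / ((T : ℝ) + 1) := by
      have := Nat.cast_div_le (α := ℝ) (m := K) (n := T + 1)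
      push_cast at this
      exact this
    calc ((K / (T + 1) : ℕ) : ℝ) * Real.log (1 / t)
        ≤ (B * Real.log (Real.log x) / ((T : ℝ) + 1)) * Real.log (1 / t) := by
          apply mul_le_mul_of_nonneg_right _ hlt
          exact e2.trans (div_le_div_of_nonneg_right hKB hT0.le)
      _ = (B * Real.log (1 / t)) * Real.log (Real.log x) / ((T : ℝ) + 1) := by ring
      _ ≤ (ε / 2 * (T + 1)) * Real.log (Real.log x) / ((T : ℝ) + 1) := by
          gcongr
      _ = ε / 2 * Real.log (Real.log x) := by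
          field_simp
  have h13 : (1 / t) ^ (K / (T + 1)) *
      Real.exp (4 * t * ∑ r ∈ primesUpTo x, (1 : ℝ) / r + 4 * S) ≤
      Real.exp (4 * t * C₄ + 4 * S) * Real.log x ^ ε := by
    rw [Real.rpow_def_of_pos hlogx, ← Real.exp_add]
    refine (mul_le_mul_of_nonneg_right h21 (Real.exp_pos _).le).trans ?_
    rw [← Real.exp_add]
    apply Real.exp_le_exp.2
    have h22 := h4 x (by omega)
    have h23 : 4 * t * ∑ r ∈ primesUpTo x, (1 : ℝ) / r ≤
        4 * t * (9 * Real.log (Real.log x) + C₄) :=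
      mul_le_mul_of_nonneg_left h22 (by positivity)
    have h24 : t * Real.log (Real.log x) ≤ ε / 72 * Real.log (Real.log x) :=
      mul_le_mul_of_nonneg_right ht2 hll
    nlinarith
  have hx0 : (0 : ℝ) ≤ x := by linarith
  calc (A.card : ℝ) = ∑ m ∈ A.image μ, ((A.filter (fun p => μ p = m)).card : ℝ) := by
        rw [h10]; push_cast; rfl
    _ ≤ ∑ m ∈ A.image μ, C₂ * C₃ ^ 2 * x * Real.log (Real.log x) ^ 36 / Real.log z ^ 2 *
          (1 / Nat.totient m) := Finset.sum_le_sum h11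
    _ = C₂ * C₃ ^ 2 * x * Real.log (Real.log x) ^ 36 / Real.log z ^ 2 *
          ∑ m ∈ A.image μ, (1 : ℝ) / Nat.totient m := by rw [Finset.mul_sum]
    _ ≤ C₂ * C₃ ^ 2 * x * Real.log (Real.log x) ^ 36 / Real.log z ^ 2 *
          (Real.exp (4 * t * C₄ + 4 * S) * Real.log x ^ ε) := by
        gcongr
        exact h12.trans h13
    _ = C₂ * C₃ ^ 2 * Real.exp (4 * t * C₄ + 4 * S) * x * Real.log (Real.log x) ^ 36 /
        Real.log z ^ 2 * Real.log x ^ ε := by ring

end Pool.Agent.Lib.H30F
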