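import Pool.Agent.Lib.H30F.Count2

/-!
# Chunk CNT6

Primes `r ≤ M` with `m r + 1` prime.

PROOF. Exactly as Count2.lean (copy it when it is there): `sieve_upper` with `k = 2`, `Ω p = {0, -m⁻¹}` if `p ∤ m` and `∅`
otherwise (`-m⁻¹ ≠ 0` in `ZMod p`); `dens Ω p = 2/p` for `p ∤ m`, and
`∏_{6 < p ≤ z, p ∤ m} (1 - 2/p) ≤ ∏_{6 < p ≤ z, p ∤ m} (1 - 1/p)^2 ≤ (1/log z)^2 (15/4)^2 (m/φ(m))^2`.
-/

namespace Pool.Agent.Lib.H30F

open Pool.Agent.Lib.Sieve

theorem count_six : ∃ C : ℝ, 0 < C ∧ ∀ m z M : ℕ, 1 ≤ m → 2 ≤ z → z ^ 422 ≤ M →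
    (((Finset.Icc 1 M).filter (fun r => r.Prime ∧ z < r ∧ (m * r + 1).Prime)).card : ℝ)
      ≤ C * M / Real.log z ^ 2 * ((m : ℝ) / Nat.totient m) ^ 2 := by
  refine ⟨3 * (15 / 4) ^ 2, by norm_num, ?_⟩
  intro m z M hm hz hM
  let Ω : (p : ℕ) → Finset (ZMod p) := fun p => if p ∣ m then ∅ else {0, -(m : ZMod p)⁻¹}
  set A := (Finset.Icc 1 M).filter (fun r => r.Prime ∧ z < r ∧ (m * r + 1).Prime)
    with hAdef
  have hA : (A.card : ℝ) ≤ 3 * (M : ℝ) * ∏ p ∈ sprimes (2 * 2 + 2) z, (1 - dens Ω p) := by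
    apply sieve_upper 2 z M hz Ω
    · intro p _ _ _
      simp only [Ω]
      split_ifs
      · simp
      · exact Finset.card_le_two
    · exact hM
    · intro u hu
      rw [hAdef, Finset.mem_filter, Finset.mem_Icc] at hu
      obtain ⟨⟨hu1, hu2⟩, hup, huz, hbp⟩ := hu
      refine ⟨hu1, hu2, ?_⟩
      intro p hp h6 hpz hmem
      simp only [Ω] at hmem
      split_ifs at hmem with hd
      · simp at hmem
      · have : Fact p.Prime := ⟨hp⟩
        rw [Finset.mem_insert, Finset.mem_singleton] at hmem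
        rcases hmem with h | h
        · rw [ZMod.natCast_eq_zero_iff] at h
          have := (Nat.prime_dvd_prime_iff_eq hp hup).mp h
          omega
        · have hb0 : (m : ZMod p) ≠ 0 := by
            intro h0
            rw [ZMod.natCast_eq_zero_iff] at h0
            exact hd h0
          have hz0 : ((m * u + 1 : ℕ) : ZMod p) = 0 := by
            push_cast
            rw [h, mul_neg, mul_inv_cancel₀ hb0]
            ring
          rw [ZMod.natCast_eq_zero_iff] at hz0
          have h7 := (Nat.prime_dvd_prime_iff_eq hp hbp).mp hz0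
          have h8 : 1 * u ≤ m * u := Nat.mul_le_mul_right _ hm
          omega
  have hprod : ∏ p ∈ sprimes (2 * 2 + 2) z, (1 - dens Ω p) ≤
      (∏ p ∈ (sprimes 6 z).filter (fun p => ¬ p ∣ m), (1 - 1 / (p : ℝ))) ^ 2 := by
    have e : sprimes (2 * 2 + 2) z = sprimes 6 z := rfl
    rw [e, ← Finset.prod_pow, Finset.prod_filter]
    apply Finset.prod_le_prod
    · intro p hp
      rw [mem_sprimes] at hp
      have hp7 : (7 : ℝ) ≤ p := by exact_mod_cast (by omega : 7 ≤ p)
      have : dens Ω p ≤ 2 / p := by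
        unfold dens
        have hc : (Ω p).card ≤ 2 := by
          simp only [Ω]
          split_ifs
          · simp
          · exact Finset.card_le_two
        have hc' : ((Ω p).card : ℝ) ≤ 2 := by exact_mod_cast hc
        gcongr
      have h2 : (2 : ℝ) / p ≤ 2 / 7 := by gcongr
      linarith
    · intro p hp
      rw [mem_sprimes] at hp
      have hp7 : (7 : ℝ) ≤ p := by exact_mod_cast (by omega : 7 ≤ p)
      have : Fact p.Prime := ⟨hp.1⟩
      by_cases hd : p ∣ m
      · have hc : (Ω p).card = 0 := by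
          simp only [Ω]
          rw [if_pos hd]
          simp
        rw [if_neg (not_not.2 hd)]
        unfold dens
        rw [hc]
        simp
      · rw [if_pos hd]
        have hb0 : (m : ZMod p) ≠ 0 := by
          intro h0
          rw [ZMod.natCast_eq_zero_iff] at h0
          exact hd h0
        have hne : (0 : ZMod p) ≠ -(m : ZMod p)⁻¹ := by
          intro h
          have h1 : (m : ZMod p)⁻¹ = 0 := by
            have := congrArg Neg.neg h
            rw [neg_neg, neg_zero] at this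
            exact this.symm
          exact hb0 (inv_eq_zero.1 h1)
        have hc : (Ω p).card = 2 := by
          simp only [Ω]
          rw [if_neg hd]
          exact Finset.card_pair hne
        unfold dens
        rw [hc]
        have : (0 : ℝ) ≤ (1 / (p : ℝ)) ^ 2 := by positivity
        have e3 : (1 - 1 / (p : ℝ)) ^ 2 = 1 - ((2 : ℕ) : ℝ) / p + (1 / (p : ℝ)) ^ 2 := by
          push_cast
          ring
        rw [e3]
        linarith
  have hsp := cnt2_split m z hz hm
  have hSnn : 0 ≤ ∏ p ∈ (sprimes 6 z).filter (fun p => ¬ p ∣ m), (1 - 1 / (p : ℝ)) := by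
    apply Finset.prod_nonneg
    intro p hp
    rw [Finset.mem_filter, mem_sprimes] at hp
    have hp7 : (7 : ℝ) ≤ p := by exact_mod_cast (by omega : 7 ≤ p)
    have h2 : (1 : ℝ) / p ≤ 1 / 7 := by gcongr
    linarith
  have hsq := pow_le_pow_left₀ hSnn hsp 2
  calc (A.card : ℝ) ≤ _ := hA
    _ ≤ 3 * (M : ℝ) * (15 / 4 / Real.log z * ((m : ℝ) / Nat.totient m)) ^ 2 :=
        mul_le_mul_of_nonneg_left (hprod.trans hsq) (by positivity)
    _ = _ := by ring

end Pool.Agent.Lib.H30F
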