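import Mathlib

/-!
# The iteration `n ↦ φ(n) + 1` (MP_fecc7a_nt): definitions
-/

namespace Pool.Agent.Lib.H30F

/-- The iteration map `f(n) = φ(n) + 1` of the problem. -/
def step (n : ℕ) : ℕ := Nat.totient n + 1

/-- `n` reaches `p`: some iterate of `f` maps `n` to `p`. -/
def Reaches (n p : ℕ) : Prop := ∃ i : ℕ, step^[i] n = p

/-- The set `R(p)` of the positive integers which reach `p`. -/
def R (p : ℕ) : Set ℕ := {n | 0 < n ∧ Reaches n p}

end Pool.Agent.Lib.H30F
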