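import Mathlib

/-!
# Chunk DENS

`x / (log x)^(21/20) = o(π(x))`.

PROOF. `Chebyshev.pi_ge`: `π(x) ≥ (x log 2 - log (x+1)) / log x ≥ x / (2 log x)` for large `x`
(`log (x + 1) ≤ x (log 2 - 1/2)` eventually). So the quotient is at most `2 / (log x)^(1/20) → 0`.
-/

namespace Pool.Agent.Lib.H30F

open Filter

theorem density_zero (C : ℝ) (f : ℕ → ℝ) (h0 : ∀ x, 0 ≤ f x)
    (hf : ∀ᶠ x : ℕ in atTop, f x ≤ C * (x / Real.log x ^ (21 / 20 : ℝ))) :
    Tendsto (fun x : ℕ => f x / (Nat.primeCounting x : ℝ)) atTop (nhds 0) := by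
  have hlogtend : Tendsto (fun x : ℕ => Real.log (x : ℝ)) atTop atTop :=
    Real.tendsto_log_atTop.comp tendsto_natCast_atTop_atTop
  have hpow : Tendsto (fun x : ℕ => Real.log (x : ℝ) ^ (-(1 / 20) : ℝ)) atTop (nhds 0) :=
    (tendsto_rpow_neg_atTop (by norm_num : (0 : ℝ) < 1 / 20)).comp hlogtend
  have hlim : Tendsto (fun x : ℕ => 2 * |C| * Real.log (x : ℝ) ^ (-(1 / 20) : ℝ)) atTop
      (nhds 0) := by
    have := hpow.const_mul (2 * |C|)
    rwa [mul_zero] at this
  have hlit : ∀ᶠ x : ℕ in atTop, Real.log ((x : ℝ) + 1) ≤ (1 / 12) * ((x : ℝ) + 1) := by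
    have h1 := Real.isLittleO_log_id_atTop.bound (by norm_num : (0 : ℝ) < 1 / 12)
    have h2 : Tendsto (fun x : ℕ => (x : ℝ) + 1) atTop atTop :=
      tendsto_natCast_atTop_atTop.atTop_add tendsto_const_nhds
    filter_upwards [h2.eventually h1] with x hx
    have hx1 : (0 : ℝ) ≤ (x : ℝ) + 1 := by positivity
    simp only [id, Real.norm_eq_abs] at hx
    rw [abs_of_nonneg hx1] at hx
    exact (le_abs_self _).trans hx
  refine squeeze_zero' (Eventually.of_forall fun x => ?_) ?_ hlim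
  · exact div_nonneg (h0 x) (Nat.cast_nonneg _)
  filter_upwards [hf, hlit, eventually_ge_atTop 3] with x h1 h2 h3
  have h3' : (3 : ℝ) ≤ x := by exact_mod_cast h3
  have hlog : 0 < Real.log x := Real.log_pos (by linarith)
  have hl2 := Real.log_two_gt_d9
  have hpi : (x : ℝ) / (2 * Real.log x) ≤ (Nat.primeCounting x : ℝ) := by
    refine le_trans ?_ (Chebyshev.pi_ge x)
    rw [div_le_div_iff₀ (by positivity) hlog]
    have : (x : ℝ) ≤ 2 * (x * Real.log 2 - Real.log (x + 1)) := by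
      have h4 : Real.log ((x : ℝ) + 1) ≤ (1 / 12) * ((x : ℝ) + 1) := h2
      nlinarith
    nlinarith
  have hxpos : 0 < (x : ℝ) / (2 * Real.log x) := by positivity
  have h1' : f x ≤ |C| * (x / Real.log x ^ (21 / 20 : ℝ)) := by
    refine h1.trans ?_
    apply mul_le_mul_of_nonneg_right (le_abs_self C)
    positivity
  calc f x / (Nat.primeCounting x : ℝ) ≤ f x / ((x : ℝ) / (2 * Real.log x)) :=
        div_le_div_of_nonneg_left (h0 x) hxpos hpi
    _ ≤ (|C| * (x / Real.log x ^ (21 / 20 : ℝ))) / ((x : ℝ) / (2 * Real.log x)) :=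
        div_le_div_of_nonneg_right h1' hxpos.le
    _ = 2 * |C| * Real.log (x : ℝ) ^ (-(1 / 20) : ℝ) := by
        have e1 : Real.log (x : ℝ) ^ (-(1 / 20) : ℝ) =
            Real.log x / Real.log x ^ (21 / 20 : ℝ) := by
          rw [eq_div_iff (by positivity), ← Real.rpow_add hlog]
          norm_num
        rw [e1]
        field_simp

end Pool.Agent.Lib.H30F
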