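import Mathlib

/-!
# Chunk PAR

Choice of the parameters. `L = log x`, `l = log log x`, `K = ⌊l/10⌋₊`, `y = ⌊exp(L/(2(K+1)))⌋₊`, `Y = ⌊exp(L/(6(K+1)))⌋₊`,
`z = ⌊exp(L/(1000(K+1)))⌋₊`.

PROOF. All are eventual statements. `K + 1 ≤ l` eventually (`l → ∞`), so `L/(1000(K+1)) ≥ L/(1000 l) → ∞`.
* `y ≤ exp(L/(2(K+1)))` gives `y^(2(K+1)) ≤ exp L = x` (cast to `ℝ`).
* `z^422 ≤ exp(0.422 L/(K+1)) ≤ exp(L/(2(K+1)))`, an integer, so `z^422 ≤ y`. Same for `Y^3 ≤ y`.
* `z ≥ exp(L/(1000(K+1))) - 1 ≥ exp(L/(2000 (K+1)))` eventually, so `log z ≥ L/(2000 (K+1)) ≥ L/(2000 l)`.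
* `Y ≥ exp(L/(6(K+1))) - 1 ≥ exp(L/(12 l)) ≥ L^2` eventually (`L/(12 l) ≥ 2 l` eventually).
* `2^(K+1) ≥ 2^(l/10) = L^(log 2/10) ≥ L^(0.069)` (`Real.log_two_gt_d9`) and `100^K ≤ 100^(l/10) = L^(log 100/10) ≤ L^(0.47)`
  (`log 100 = 2 log 10 ≤ 4.61`; `100 < 128 = 2^7` gives `log 100 ≤ 7 log 2 ≤ 4.853`, `L^(0.4853)`: enough).
* `z ≤ exp(L/1000) ≤ x^(1/4)`.. so `z^224 ≤ √x/...`: `z^224 ≤ exp(0.224 L) ≤ x/2^(K+1) - 1` eventually, because
  `2^(K+1) ≤ 2 exp(l/10 * log 2) ≤ 2 L`.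
-/

namespace Pool.Agent.Lib.H30F

open Filter

theorem par_core (x : ℕ) (L l : ℝ) (hL : L = Real.log x) (hl : l = Real.log L) (hx : 1 ≤ x)
    (hl2 : 2 ≤ l) (h1 : 18 * l ^ 2 ≤ L) (h2 : 2000 * l ≤ L) : ∃ K y Y z : ℕ,
    1 ≤ y ∧ y ^ (2 * (K + 1)) ≤ x ∧ Y ^ 3 ≤ y ∧ 1 ≤ Y ∧ 2 ≤ z ∧ z ^ 422 ≤ y ∧
    z ^ 224 ≤ x / 2 ^ (K + 1) ∧
    L ^ 2 ≤ (Y : ℝ) ∧
    (z : ℝ) ≤ (x : ℝ) ^ (1 / 2 : ℝ) ∧
    L / (2000 * l) ≤ Real.log z ∧
    L ^ (69 / 1000 : ℝ) ≤ (2 : ℝ) ^ (K + 1) ∧
    (100 : ℝ) ^ K ≤ L ^ (49 / 100 : ℝ) := by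
  have hx0 : (0 : ℝ) < x := by exact_mod_cast hx
  have hLp : 4000 ≤ L := by linarith
  have hL0 : 0 < L := by linarith
  have hexpL : Real.exp L = x := by rw [hL, Real.exp_log hx0]
  have hexpl : Real.exp l = L := by rw [hl, Real.exp_log hL0]
  set K : ℕ := ⌊l / 10⌋₊ with hK
  have hK1 : (K : ℝ) ≤ l / 10 := Nat.floor_le (by linarith)
  have hK2 : l / 10 < (K : ℝ) + 1 := Nat.lt_floor_add_one _
  set c : ℝ := (K : ℝ) + 1 with hc
  have hc1 : 1 ≤ c := by
    have : (0 : ℝ) ≤ K := Nat.cast_nonneg _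
    linarith
  have hcl : c ≤ l := by linarith
  have hc0 : 0 < c := by linarith
  set E : ℝ := L / (1000 * c) with hE
  have hEc : 1000 * E * c = L := by
    rw [hE]; field_simp
  have hE0 : 0 < E := by positivity
  have hEl : L / (1000 * l) ≤ E := by
    rw [hE]
    gcongr
  have hE2 : 2 ≤ E := by
    refine le_trans ?_ hEl
    rw [le_div_iff₀ (by linarith)]
    linarith
  have hEL : 1000 * E ≤ L := by nlinarith
  set y : ℕ := ⌊Real.exp (500 * E)⌋₊ with hy
  set Y : ℕ := ⌊Real.exp (1000 * E / 6)⌋₊ with hY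
  set z : ℕ := ⌊Real.exp E⌋₊ with hz
  have hyle : (y : ℝ) ≤ Real.exp (500 * E) := Nat.floor_le (Real.exp_pos _).le
  have hYle : (Y : ℝ) ≤ Real.exp (1000 * E / 6) := Nat.floor_le (Real.exp_pos _).le
  have hzle : (z : ℝ) ≤ Real.exp E := Nat.floor_le (Real.exp_pos _).le
  have hYge : Real.exp (1000 * E / 6) - 1 ≤ (Y : ℝ) := by
    have := Nat.lt_floor_add_one (Real.exp (1000 * E / 6))
    rw [← hY] at this
    linarith
  have hzge : Real.exp E - 1 ≤ (z : ℝ) := by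
    have := Nat.lt_floor_add_one (Real.exp E)
    rw [← hz] at this
    linarith
  have hLY : L ^ 2 ≤ (Y : ℝ) := by
    refine le_trans ?_ hYge
    have h3 : 3 * l ≤ 1000 * E / 6 := by
      have : L / l ≤ 1000 * E := by
        have h4 : 1000 * (L / (1000 * l)) ≤ 1000 * E := by linarith
        have h5 : 1000 * (L / (1000 * l)) = L / l := by
          field_simp
        linarith
      have h6 : 18 * l ≤ L / l := by
        rw [le_div_iff₀ (by linarith)]
        nlinarith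
      linarith
    have h7 : Real.exp (3 * l) ≤ Real.exp (1000 * E / 6) := Real.exp_le_exp.2 h3
    have h8 : Real.exp (3 * l) = L ^ 3 := by
      have : 3 * l = l + l + l := by ring
      rw [this, Real.exp_add, Real.exp_add, hexpl]
      ring
    rw [h8] at h7
    nlinarith [sq_nonneg L]
  have hY1 : 1 ≤ Y := by
    have : (0 : ℝ) < Y := lt_of_lt_of_le (by positivity) hLY
    have h := Nat.cast_pos.1 this
    omega
  have hpow : ∀ n : ℕ, Real.exp E ^ n = Real.exp (n * E) := by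
    intro n
    rw [← Real.exp_nat_mul]
  refine ⟨K, y, Y, z, ?_, ?_, ?_, hY1, ?_, ?_, ?_, hLY, ?_, ?_, ?_, ?_⟩
  · rw [hy]
    apply Nat.le_floor
    rw [Nat.cast_one]
    exact Real.one_le_exp (by positivity)
  · have h : (y : ℝ) ^ (2 * (K + 1)) ≤ (x : ℝ) := by
      calc (y : ℝ) ^ (2 * (K + 1)) ≤ (Real.exp (500 * E)) ^ (2 * (K + 1)) :=
            pow_le_pow_left₀ (Nat.cast_nonneg _) hyle _
        _ = Real.exp (((2 * (K + 1) : ℕ) : ℝ) * (500 * E)) := by rw [← Real.exp_nat_mul]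
        _ = x := by
          rw [← hexpL]
          congr 1
          push_cast
          rw [← hEc, hc]
          ring
    exact_mod_cast h
  · rw [hy]
    apply Nat.le_floor
    push_cast
    calc (Y : ℝ) ^ 3 ≤ (Real.exp (1000 * E / 6)) ^ 3 := pow_le_pow_left₀ (Nat.cast_nonneg _) hYle _
      _ = Real.exp (((3 : ℕ) : ℝ) * (1000 * E / 6)) := by rw [← Real.exp_nat_mul]
      _ ≤ Real.exp (500 * E) := by
        apply Real.exp_le_exp.2
        push_cast
        linarith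
  · rw [hz]
    apply Nat.le_floor
    push_cast
    have := Real.add_one_le_exp E
    linarith
  · rw [hy]
    apply Nat.le_floor
    push_cast
    calc (z : ℝ) ^ 422 ≤ (Real.exp E) ^ 422 := pow_le_pow_left₀ (Nat.cast_nonneg _) hzle _
      _ = Real.exp (((422 : ℕ) : ℝ) * E) := hpow 422
      _ ≤ Real.exp (500 * E) := by
        apply Real.exp_le_exp.2
        push_cast
        linarith
  · rw [Nat.le_div_iff_mul_le (by positivity)]
    have h : (z : ℝ) ^ 224 * (2 : ℝ) ^ (K + 1) ≤ (x : ℝ) := by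
      have h1 : (z : ℝ) ^ 224 ≤ Real.exp (((224 : ℕ) : ℝ) * E) := by
        rw [← hpow]
        exact pow_le_pow_left₀ (Nat.cast_nonneg _) hzle _
      have h2 : (2 : ℝ) ^ (K + 1) ≤ L := by
        have h3 : (2 : ℝ) ≤ Real.exp 1 := by
          have := Real.add_one_le_exp (1 : ℝ)
          linarith
        calc (2 : ℝ) ^ (K + 1) ≤ (Real.exp 1) ^ (K + 1) :=
              pow_le_pow_left₀ (by norm_num) h3 _
          _ = Real.exp (((K + 1 : ℕ) : ℝ) * 1) := by rw [← Real.exp_nat_mul]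
          _ ≤ Real.exp l := by
            apply Real.exp_le_exp.2
            push_cast
            linarith
          _ = L := hexpl
      have h4 : Real.exp (((224 : ℕ) : ℝ) * E) ≤ Real.exp (224 / 1000 * L) := by
        apply Real.exp_le_exp.2
        push_cast
        linarith
      have h5 : L ≤ Real.exp (776 / 1000 * L) := by
        have h6 : Real.exp (776 / 1000 * L) = Real.exp (388 / 1000 * L) ^ 2 := by
          rw [sq, ← Real.exp_add]
          congr 1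
          ring
        rw [h6]
        have h7 := Real.add_one_le_exp (388 / 1000 * L)
        have h8 : (388 / 1000 * L + 1) ^ 2 ≤ Real.exp (388 / 1000 * L) ^ 2 :=
          pow_le_pow_left₀ (by positivity) h7 2
        nlinarith [sq_nonneg (L - 1)]
      calc (z : ℝ) ^ 224 * (2 : ℝ) ^ (K + 1)
          ≤ Real.exp (224 / 1000 * L) * Real.exp (776 / 1000 * L) :=
            mul_le_mul (h1.trans h4) (h2.trans h5) (by positivity) (Real.exp_pos _).le
        _ = x := by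
          rw [← Real.exp_add, ← hexpL]
          congr 1
          ring
    exact_mod_cast h
  · refine hzle.trans ?_
    rw [Real.rpow_def_of_pos hx0, ← hL]
    apply Real.exp_le_exp.2
    linarith
  · have h1 : Real.exp (E / 2) ≤ (z : ℝ) := by
      refine le_trans ?_ hzge
      have h2 : Real.exp E = Real.exp (E / 2) * Real.exp (E / 2) := by
        rw [← Real.exp_add]
        congr 1
        ring
      have h3 := Real.add_one_le_exp (E / 2)
      rw [h2]
      nlinarith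
    have h4 : E / 2 ≤ Real.log z := by
      rw [← Real.log_exp (E / 2)]
      exact Real.log_le_log (Real.exp_pos _) h1
    refine le_trans ?_ h4
    have h5 : L / (2000 * l) = L / (1000 * l) / 2 := by
      field_simp
      norm_num
    rw [h5]
    linarith
  · rw [Real.rpow_def_of_pos hL0, ← hl]
    have h1 : (2 : ℝ) ^ (K + 1) = Real.exp (Real.log 2 * c) := by
      rw [← Real.rpow_natCast, Real.rpow_def_of_pos (by norm_num : (0 : ℝ) < 2)]
      push_cast
      rw [hc]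
    rw [h1]
    apply Real.exp_le_exp.2
    have h2 := Real.log_two_gt_d9
    nlinarith
  · rw [Real.rpow_def_of_pos hL0, ← hl]
    have h1 : (100 : ℝ) ^ K = Real.exp (Real.log 100 * K) := by
      rw [← Real.rpow_natCast, Real.rpow_def_of_pos (by norm_num : (0 : ℝ) < 100)]
    rw [h1]
    apply Real.exp_le_exp.2
    have h2 : Real.log 100 ≤ 7 * Real.log 2 := by
      have h3 : Real.log 100 ≤ Real.log (2 ^ 7) := Real.log_le_log (by norm_num) (by norm_num)
      rw [Real.log_pow] at h3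
      push_cast at h3
      exact h3
    have h4 := Real.log_two_lt_d9
    have h5 : Real.log 100 ≤ 49 / 10 := by linarith
    have h6 : (0 : ℝ) ≤ K := Nat.cast_nonneg _
    nlinarith

theorem params : ∀ᶠ x : ℕ in atTop, ∃ K y Y z : ℕ,
    1 ≤ y ∧ y ^ (2 * (K + 1)) ≤ x ∧ Y ^ 3 ≤ y ∧ 1 ≤ Y ∧ 2 ≤ z ∧ z ^ 422 ≤ y ∧
    z ^ 224 ≤ x / 2 ^ (K + 1) ∧
    Real.log x ^ 2 ≤ (Y : ℝ) ∧
    (z : ℝ) ≤ (x : ℝ) ^ (1 / 2 : ℝ) ∧
    Real.log x / (2000 * Real.log (Real.log x)) ≤ Real.log z ∧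
    Real.log x ^ (69 / 1000 : ℝ) ≤ (2 : ℝ) ^ (K + 1) ∧
    (100 : ℝ) ^ K ≤ Real.log x ^ (49 / 100 : ℝ) := by
  have hL : Tendsto (fun x : ℕ => Real.log (x : ℝ)) atTop atTop :=
    Real.tendsto_log_atTop.comp tendsto_natCast_atTop_atTop
  have hl : Tendsto (fun x : ℕ => Real.log (Real.log (x : ℝ))) atTop atTop :=
    Real.tendsto_log_atTop.comp hL
  have ho1 : ∀ᶠ L : ℝ in atTop, 18 * Real.log L ^ 2 ≤ L := by
    have h := (Real.isLittleO_pow_log_id_atTop (n := 2)).bound (show (0 : ℝ) < 1 / 18 by norm_num)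
    filter_upwards [h, eventually_ge_atTop (1 : ℝ)] with L hL1 hL2
    simp only [id, Real.norm_eq_abs] at hL1
    rw [abs_of_nonneg (by positivity), abs_of_nonneg (by linarith : (0 : ℝ) ≤ L)] at hL1
    linarith
  have ho2 : ∀ᶠ L : ℝ in atTop, 2000 * Real.log L ≤ L := by
    have h := (Real.isLittleO_pow_log_id_atTop (n := 1)).bound
      (show (0 : ℝ) < 1 / 2000 by norm_num)
    filter_upwards [h, eventually_ge_atTop (1 : ℝ)] with L hL1 hL2
    simp only [id, Real.norm_eq_abs, pow_one] at hL1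
    rw [abs_of_nonneg (Real.log_nonneg hL2), abs_of_nonneg (by linarith : (0 : ℝ) ≤ L)] at hL1
    linarith
  filter_upwards [hL.eventually ho1, hL.eventually ho2, hl.eventually_ge_atTop 2,
    eventually_ge_atTop 1] with x h1 h2 h3 h4
  exact par_core x _ _ rfl rfl h4 h3 h1 h2

end Pool.Agent.Lib.H30F
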