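import Pool.Agent.Lib.H30F.Cases
import Pool.Agent.Lib.H30F.Count1
import Pool.Agent.Lib.H30F.Count3
import Pool.Agent.Lib.H30F.Count4
import Pool.Agent.Lib.H30F.Params
import Pool.Agent.Lib.H30F.Asy

/-!
# Chunk MAINC

All but `O(x / (log x)^(21/20))` primes `p ≤ x` have only the solutions `p`, `2p` of `φ(n) = p - 1`.

PROOF. Take `x` large (`params`, `asy_*`, `x ≥ 16`), `K, y, Y, z` from `params`. By `cases_main` the set on the left is
contained in the union of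
* `{p : 2^(K+1) ∣ p - 1, p prime}`: image of `{t ∈ [1, M] : 2^(K+1) t + 1 prime}`, `M = x / 2^(K+1)`, under
  `t ↦ 2^(K+1) t + 1`: at most `z + C₁ M / log z` (count_one) `≤ √x + C₁ x / 2^(K+1) / log z`;
* `{p ≤ Nat.sqrt x + 1}`: at most `Nat.sqrt x + 1 ≤ √x + 2`;
* the set of `count_three` (`y < (r^j)^3` and `Y^3 ≤ y` give `Y < r^j`): at most `2 x / Y ≤ 2 x / (log x)^2`;
* the set of `count_four`.
Insert the bounds of `params` (`1 / log z ≤ 2000 log log x / log x`) and `asy_one`, ..., `asy_four`; the constant is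
`1 + 1 + C₁ + C₄`.
-/

namespace Pool.Agent.Lib.H30F

open Filter

open Classical in
theorem mainc_cover (x K y Y : ℕ) (hy : 1 ≤ y) (hyx : y ^ (2 * (K + 1)) ≤ x) (hY : Y ^ 3 ≤ y) :
    (Finset.Icc 1 x).filter (fun p => p.Prime ∧ 3 ≤ p ∧
      ∃ n : ℕ, Nat.totient n = p - 1 ∧ n ≠ p ∧ n ≠ 2 * p) ⊆
    (((Finset.Icc 1 (x / 2 ^ (K + 1))).filter (fun t => (2 ^ (K + 1) * t + 1).Prime)).image
      (fun t => 2 ^ (K + 1) * t + 1)) ∪ (Finset.Icc 1 (Nat.sqrt x + 1) ∪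
    ((Finset.Icc 2 x).filter (fun p => ∃ r j : ℕ, r.Prime ∧ 1 ≤ j ∧ Y < r ^ j ∧
      Nat.totient ((r ^ j) ^ 2) ∣ p - 1) ∪
    (Finset.Icc 1 x).filter (fun p => p.Prime ∧ ∃ q m : ℕ, q.Prime ∧ y < q ∧ 3 ≤ m ∧
      m.primeFactors.card ≤ K ∧ p = (q - 1) * Nat.totient m + 1))) := by
  intro p hp
  rw [Finset.mem_filter, Finset.mem_Icc] at hp
  obtain ⟨⟨hp1, hpx⟩, hpp, hp3, n, hn1, hn2, hn3⟩ := hp
  rw [Finset.mem_union, Finset.mem_union, Finset.mem_union]
  rcases cases_main p x K y n hpp hp3 hy hyx hn1 hn2 hn3 with h | h | h | h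
  · left
    obtain ⟨t, ht⟩ := h
    have e : 2 ^ (K + 1) * t + 1 = p := by omega
    have ht0 : t ≠ 0 := by
      rintro rfl
      omega
    refine Finset.mem_image.2 ⟨t, Finset.mem_filter.2 ⟨Finset.mem_Icc.2 ⟨by omega, ?_⟩, ?_⟩, e⟩
    · rw [Nat.le_div_iff_mul_le (by positivity), mul_comm]
      omega
    · rwa [e]
  · right; left
    exact Finset.mem_Icc.2 ⟨hp1, h⟩
  · right; right; left
    obtain ⟨r, j, hr, hj, hyr, hd⟩ := h
    refine Finset.mem_filter.2 ⟨Finset.mem_Icc.2 ⟨by omega, hpx⟩, r, j, hr, hj, ?_, hd⟩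
    exact lt_of_pow_lt_pow_left₀ 3 (Nat.zero_le _) (lt_of_le_of_lt hY hyr)
  · right; right; right
    exact Finset.mem_filter.2 ⟨Finset.mem_Icc.2 ⟨hp1, hpx⟩, hpp, h⟩

open Classical in
theorem main_count : ∃ C : ℝ, 0 < C ∧ ∀ᶠ x : ℕ in atTop,
    (((Finset.Icc 1 x).filter (fun p => p.Prime ∧ 3 ≤ p ∧
      ∃ n : ℕ, Nat.totient n = p - 1 ∧ n ≠ p ∧ n ≠ 2 * p)).card : ℝ)
      ≤ C * (x / Real.log x ^ (21 / 20 : ℝ)) := by
  obtain ⟨C₁, hC₁, hc1⟩ := count_one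
  obtain ⟨C₄, hC₄, hc4⟩ := count_four
  refine ⟨1 + 1 + C₁ + C₄, by positivity, ?_⟩
  have hll : ∀ᶠ x : ℕ in atTop, 1 ≤ Real.log (Real.log (x : ℝ)) :=
    (Real.tendsto_log_atTop.comp asy_log).eventually (eventually_ge_atTop 1)
  filter_upwards [params, asy_one, asy_two, asy_three, asy_four, eventually_ge_atTop 16, hll,
    asy_log.eventually (eventually_ge_atTop 1)] with x hpar h1 h2 h3 h4 hx16 hl1 hL1
  obtain ⟨K, y, Y, z, hy, hyx, hYy, hY1, hz2, hz422, hz224, hYL, hzx, hlz, h2K, h100⟩ := hpar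
  have hx0 : (0 : ℝ) ≤ x := Nat.cast_nonneg _
  have hL0 : 0 < Real.log x := by linarith
  have hz2' : (2 : ℝ) ≤ z := by exact_mod_cast hz2
  have hlogz : 0 < Real.log z := Real.log_pos (by linarith)
  have hinv : 1 / Real.log z ≤ 2000 * Real.log (Real.log x) / Real.log x := by
    have h5 : 0 < Real.log x / (2000 * Real.log (Real.log x)) := by positivity
    have := one_div_le_one_div_of_le h5 hlz
    rwa [one_div_div] at this
  -- the four pieces
  have p1 : ((((Finset.Icc 1 (x / 2 ^ (K + 1))).filter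
      (fun t => (2 ^ (K + 1) * t + 1).Prime)).image
      (fun t => 2 ^ (K + 1) * t + 1)).card : ℝ) ≤
      (x : ℝ) ^ (1 / 2 : ℝ) + C₁ * (x / Real.log x ^ (21 / 20 : ℝ)) := by
    have h5 := hc1 (K + 1) z (x / 2 ^ (K + 1)) hz2 hz224
    have h6 : ((((Finset.Icc 1 (x / 2 ^ (K + 1))).filter
      (fun t => (2 ^ (K + 1) * t + 1).Prime)).image
      (fun t => 2 ^ (K + 1) * t + 1)).card : ℝ) ≤
      (((Finset.Icc 1 (x / 2 ^ (K + 1))).filter
        (fun t => (2 ^ (K + 1) * t + 1).Prime)).card : ℝ) := by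
      exact_mod_cast Finset.card_image_le
    have h7 : ((x / 2 ^ (K + 1) : ℕ) : ℝ) ≤ (x : ℝ) / Real.log x ^ (69 / 1000 : ℝ) := by
      refine (Nat.cast_div_le (α := ℝ) (m := x) (n := 2 ^ (K + 1))).trans ?_
      push_cast
      have : 0 < Real.log x ^ (69 / 1000 : ℝ) := Real.rpow_pos_of_pos hL0 _
      gcongr
    have h8 : C₁ * ((x / 2 ^ (K + 1) : ℕ) : ℝ) / Real.log z ≤
        C₁ * (x / Real.log x ^ (21 / 20 : ℝ)) := by
      calc C₁ * ((x / 2 ^ (K + 1) : ℕ) : ℝ) / Real.log z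
          = C₁ * (((x / 2 ^ (K + 1) : ℕ) : ℝ) * (1 / Real.log z)) := by ring
        _ ≤ C₁ * ((x : ℝ) / Real.log x ^ (69 / 1000 : ℝ) *
              (2000 * Real.log (Real.log x) / Real.log x)) := by
            apply mul_le_mul_of_nonneg_left _ hC₁.le
            apply mul_le_mul h7 hinv (by positivity) (by positivity)
        _ ≤ _ := mul_le_mul_of_nonneg_left h3 hC₁.le
    linarith
  have p2 : ((Finset.Icc 1 (Nat.sqrt x + 1)).card : ℝ) ≤ (x : ℝ) ^ (1 / 2 : ℝ) + 2 := by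
    rw [Nat.card_Icc]
    have h5 : (Nat.sqrt x : ℝ) ≤ (x : ℝ) ^ (1 / 2 : ℝ) := by
      rw [← Real.sqrt_eq_rpow]
      exact Real.nat_sqrt_le_real_sqrt
    have e : ((Nat.sqrt x + 1 + 1 - 1 : ℕ) : ℝ) = (Nat.sqrt x : ℝ) + 1 := by
      rw [Nat.add_sub_cancel]
      push_cast
      ring
    rw [e]
    linarith
  have p3 := count_three x Y hY1
  have p3' : 2 * (x : ℝ) / Y ≤ x / Real.log x ^ (21 / 20 : ℝ) := by
    refine le_trans ?_ h2
    have : 0 < Real.log x ^ 2 := by positivity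
    gcongr
  have p4 := hc4 x K y z hx16 hz2 hz422
  have p4' : C₄ * x * Real.log (Real.log x) ^ 36 / Real.log z ^ 2 *
        (100 ^ K * Real.log x ^ (9 / 25 : ℝ)) ≤ C₄ * (x / Real.log x ^ (21 / 20 : ℝ)) := by
    calc C₄ * x * Real.log (Real.log x) ^ 36 / Real.log z ^ 2 *
        (100 ^ K * Real.log x ^ (9 / 25 : ℝ))
        = C₄ * (x * Real.log (Real.log x) ^ 36 * (1 / Real.log z) ^ 2 *
          (100 ^ K * Real.log x ^ (9 / 25 : ℝ))) := by ring
      _ ≤ C₄ * ((x : ℝ) * Real.log (Real.log x) ^ 36 *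
          (2000 * Real.log (Real.log x) / Real.log x) ^ 2 *
          (Real.log x ^ (49 / 100 : ℝ) * Real.log x ^ (9 / 25 : ℝ))) := by
          have : (0 : ℝ) ≤ Real.log x ^ (9 / 25 : ℝ) := Real.rpow_nonneg hL0.le _
          gcongr
      _ ≤ _ := mul_le_mul_of_nonneg_left h4 hC₄.le
  have hcov := mainc_cover x K y Y hy hyx hYy
  have hcard := (Finset.card_le_card hcov).trans ((Finset.card_union_le _ _).trans
    (Nat.add_le_add_left ((Finset.card_union_le _ _).trans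
      (Nat.add_le_add_left (Finset.card_union_le _ _) _)) _))
  have hcard' := (Nat.cast_le (α := ℝ)).2 hcard
  push_cast at hcard'
  refine hcard'.trans ?_
  have e : (1 + 1 + C₁ + C₄) * ((x : ℝ) / Real.log x ^ (21 / 20 : ℝ)) =
      x / Real.log x ^ (21 / 20 : ℝ) + x / Real.log x ^ (21 / 20 : ℝ) +
      C₁ * (x / Real.log x ^ (21 / 20 : ℝ)) + C₄ * (x / Real.log x ^ (21 / 20 : ℝ)) := by ring
  rw [e]
  have p3'' := p3.trans p3'
  have p4'' := p4.trans p4'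
  linarith

end Pool.Agent.Lib.H30F
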