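import Mathlib

/-!
# Chunk MOD4

For `p ≡ 3 mod 4` there are only `O(√x)` exceptions.

PROOF. Let `p ≡ 3 mod 4` be prime, `φ(n) = p - 1 ≡ 2 mod 4`, `n ≠ p, 2p`. Then `n = 4` (`p = 3`), or `n = q^k` or `2 q^k`,
`q` odd prime, `k ≥ 1` [two different odd prime factors give `4 ∣ φ(n)`; `4 ∣ n` and an odd prime factor give `4 ∣ φ(n)`;
`8 ∣ n` gives `4 ∣ φ(n)`], `φ(n) = q^(k-1) (q-1)`, and `k = 1` would give `q = p`, `n = p` or `2p`. So `k ≥ 2`, and
`p = φ(s^2 q^e) + 1` with `s = q^(k/2)`, `e = k % 2`, `q = s.minFac` (`Nat.Prime.pow_minFac`), and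
`s^2 ≤ q^k ≤ 2 q^(k-1) (q-1) = 2 (p - 1) ≤ 2 x`, so `s ≤ Nat.sqrt (2 x)`. So the set is contained in `{3}` and the images of
`[1, Nat.sqrt (2x)]` under `s ↦ φ(s^2 (s.minFac)^e) + 1`, `e = 0, 1`: at most `2 √(2x) + 1 ≤ 4 √x` elements for `x ≥ 1`
(`2 √2 + 1 ≤ 4`); for `x = 0` the set is empty.
-/

namespace Pool.Agent.Lib.H30F

theorem mod4_struct (n : ℕ) (h : Nat.totient n % 4 = 2) :
    n = 4 ∨ ∃ q k : ℕ, q.Prime ∧ q ≠ 2 ∧ 1 ≤ k ∧ (n = q ^ k ∨ n = 2 * q ^ k) := by
  have hn0 : n ≠ 0 := by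
    rintro rfl
    simp at h
  by_cases hodd : ∃ q : ℕ, q.Prime ∧ q ≠ 2 ∧ q ∣ n
  · obtain ⟨q, hq, hq2, hqn⟩ := hodd
    right
    obtain ⟨k, m, hm, hkm⟩ := Nat.exists_eq_pow_mul_and_not_dvd hn0 q hq.ne_one
    have hk : 1 ≤ k := by
      by_contra hk
      have : k = 0 := by omega
      rw [this, pow_zero, one_mul] at hkm
      exact hm (hkm ▸ hqn)
    have hcop : Nat.Coprime (q ^ k) m := Nat.Coprime.pow_left k ((Nat.Prime.coprime_iff_not_dvd hq).mpr hm)
    have hφ : Nat.totient n = q ^ (k - 1) * (q - 1) * Nat.totient m := by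
      rw [hkm, Nat.totient_mul hcop, Nat.totient_prime_pow hq (by omega)]
    have he : Even (q - 1) := by
      rcases hq.eq_two_or_odd' with h1 | h1
      · exact absurd h1 hq2
      · obtain ⟨c, hc⟩ := h1
        exact ⟨c, by omega⟩
    have hm12 : m ≤ 2 := by
      by_contra hm2
      have hme : Even (Nat.totient m) := Nat.totient_even (by omega)
      obtain ⟨a, ha⟩ := he
      obtain ⟨b, hb⟩ := hme
      have : Nat.totient n = 4 * (q ^ (k - 1) * a * b) := by
        rw [hφ, ha, hb]
        ring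
      omega
    have hm0 : m ≠ 0 := by
      rintro rfl
      rw [mul_zero] at hkm
      exact hn0 hkm
    refine ⟨q, k, hq, hq2, hk, ?_⟩
    rcases (by omega : m = 1 ∨ m = 2) with h1 | h1
    · left; rw [hkm, h1, mul_one]
    · right; rw [hkm, h1, mul_comm]
  · left
    push Not at hodd
    have hpow : n = 2 ^ n.primeFactorsList.length := by
      apply Nat.eq_prime_pow_of_unique_prime_dvd hn0
      intro d hd hdn
      by_contra hd2
      exact hodd d hd hd2 hdn
    set k := n.primeFactorsList.length with hk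
    have hk0 : k ≠ 0 := by
      intro h0
      rw [h0, pow_zero] at hpow
      rw [hpow] at h
      simp at h
    rw [hpow, Nat.totient_prime_pow Nat.prime_two (by omega)] at h
    have hk2 : k = 2 := by
      by_contra hne
      rcases (by omega : k = 1 ∨ 3 ≤ k) with h1 | h1
      · rw [h1] at h
        norm_num at h
      · obtain ⟨c, hc⟩ : ∃ c, k = c + 3 := ⟨k - 3, by omega⟩
        rw [hc] at h
        have h4 : 2 ^ (c + 3 - 1) * (2 - 1) = 4 * 2 ^ c := by
          rw [show c + 3 - 1 = c + 2 by omega, pow_add]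
          ring
        rw [h4] at h
        omega
    rw [hpow, hk2]
    norm_num

open Classical in
theorem mod_four (x : ℕ) :
    (((Finset.Icc 1 x).filter (fun p => p.Prime ∧ p % 4 = 3 ∧
      ∃ n : ℕ, Nat.totient n = p - 1 ∧ n ≠ p ∧ n ≠ 2 * p)).card : ℝ) ≤ 4 * Real.sqrt x := by
  set A := (Finset.Icc 1 x).filter (fun p => p.Prime ∧ p % 4 = 3 ∧
      ∃ n : ℕ, Nat.totient n = p - 1 ∧ n ≠ p ∧ n ≠ 2 * p) with hA
  set I := Finset.Icc 1 (Nat.sqrt (2 * x)) with hI
  have hsub : A ⊆ insert 3 (I.image (fun s => Nat.totient (s ^ 2 * s.minFac ^ 0) + 1) ∪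
      I.image (fun s => Nat.totient (s ^ 2 * s.minFac ^ 1) + 1)) := by
    intro p hp
    rw [hA, Finset.mem_filter, Finset.mem_Icc] at hp
    obtain ⟨⟨_, hpx⟩, hpp, hp4, n, hn, hnp, hn2p⟩ := hp
    rw [Finset.mem_insert]
    rcases mod4_struct n (by omega) with h4 | ⟨q, k, hq, hq2, hk, hqk⟩
    · left
      rw [h4] at hn
      have h1 : Nat.totient 4 = 2 := by decide
      omega
    right
    have hodd : Odd q := by
      rcases hq.eq_two_or_odd' with h1 | h1
      · exact absurd h1 hq2
      · exact h1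
    have hφ : Nat.totient n = Nat.totient (q ^ k) := by
      rcases hqk with h1 | h1
      · rw [h1]
      · rw [h1, Nat.totient_mul (by
          rw [Nat.coprime_two_left]
          exact hodd.pow)]
        simp
    have hφ2 : Nat.totient (q ^ k) = q ^ (k - 1) * (q - 1) := Nat.totient_prime_pow hq (by omega)
    have hq0 := hq.two_le
    have hk2 : 2 ≤ k := by
      by_contra hlt
      have hk1 : k = 1 := by omega
      rw [hk1] at hφ2 hqk hφ
      simp only [pow_one] at hqk
      have h1 : q = p := by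
        have : Nat.totient n = q - 1 := by rw [hφ, hφ2]; simp
        have := hpp.pos
        omega
      rcases hqk with h2 | h2
      · exact hnp (by rw [h2, h1])
      · exact hn2p (by rw [h2, h1])
    set s := q ^ (k / 2) with hs
    have hk20 : k / 2 ≠ 0 := by omega
    have hmin : s.minFac = q := by rw [hs]; exact Nat.Prime.pow_minFac hq hk20
    have hs2 : ∀ e, e = k % 2 → s ^ 2 * s.minFac ^ e = q ^ k := by
      intro e he
      rw [hmin, hs, ← pow_mul, ← pow_add]
      congr 1
      omega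
    have hle : q ^ k ≤ 2 * (p - 1) := by
      rw [← hn, hφ, hφ2]
      have h3 : q ≤ 2 * (q - 1) := by omega
      calc q ^ k = q ^ (k - 1) * q := by
            rw [← pow_succ]
            congr 1
            omega
        _ ≤ q ^ (k - 1) * (2 * (q - 1)) := Nat.mul_le_mul_left _ h3
        _ = 2 * (q ^ (k - 1) * (q - 1)) := by ring
    have hsI : s ∈ I := by
      rw [hI, Finset.mem_Icc]
      refine ⟨Nat.one_le_pow _ _ (by omega), ?_⟩
      rw [Nat.le_sqrt']
      have h5 : s ^ 2 ≤ q ^ k := by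
        rw [hs, ← pow_mul]
        exact Nat.pow_le_pow_right (by omega) (by omega)
      omega
    have hpe : ∀ e, e = k % 2 → Nat.totient (s ^ 2 * s.minFac ^ e) + 1 = p := by
      intro e he
      rw [hs2 e he, ← hφ, hn]
      have := hpp.pos
      omega
    rw [Finset.mem_union, Finset.mem_image, Finset.mem_image]
    rcases Nat.mod_two_eq_zero_or_one k with h0 | h0
    · left
      exact ⟨s, hsI, hpe 0 h0.symm⟩
    · right
      exact ⟨s, hsI, hpe 1 h0.symm⟩
  have hcard : A.card ≤ 2 * Nat.sqrt (2 * x) + 1 := by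
    refine (Finset.card_le_card hsub).trans ((Finset.card_insert_le _ _).trans ?_)
    have h1 := Finset.card_union_le (I.image (fun s => Nat.totient (s ^ 2 * s.minFac ^ 0) + 1))
      (I.image (fun s => Nat.totient (s ^ 2 * s.minFac ^ 1) + 1))
    have h2 : (I.image (fun s => Nat.totient (s ^ 2 * s.minFac ^ 0) + 1)).card ≤ I.card :=
      Finset.card_image_le
    have h3 : (I.image (fun s => Nat.totient (s ^ 2 * s.minFac ^ 1) + 1)).card ≤ I.card :=
      Finset.card_image_le
    have h4 : I.card = Nat.sqrt (2 * x) := by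
      rw [hI, Nat.card_Icc]
      omega
    omega
  by_cases hx : x = 0
  · have : A = ∅ := by
      rw [hA, hx]
      simp
    rw [this]
    simp
  · have hx1 : (1 : ℝ) ≤ x := by exact_mod_cast Nat.one_le_iff_ne_zero.mpr hx
    have h1 : (Nat.sqrt (2 * x) : ℝ) ≤ Real.sqrt 2 * Real.sqrt x := by
      rw [← Real.sqrt_mul (by norm_num)]
      have := Real.nat_sqrt_le_real_sqrt (a := 2 * x)
      push_cast at this
      exact this
    have h2 : Real.sqrt 2 ≤ 3 / 2 := by
      rw [Real.sqrt_le_left (by norm_num)]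
      norm_num
    have h3 : 1 ≤ Real.sqrt x := by
      rw [Real.one_le_sqrt]
      exact hx1
    have h4 : (A.card : ℝ) ≤ 2 * (Nat.sqrt (2 * x) : ℝ) + 1 := by exact_mod_cast hcard
    nlinarith

end Pool.Agent.Lib.H30F
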