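import Pool.Agent.Lib.H30F.Red
import Pool.Agent.Lib.H30F.MainCount
import Pool.Agent.Lib.H30F.Mod4
import Pool.Agent.Lib.H30F.Density

/-!
# Chunk FIN

PROOF. By `red`, an exceptional prime `p ≥ 3` has a solution `n ≠ p, 2p` of `φ(n) = p - 1`; the prime `2` is one more
exception at most. So the count is at most `1 +` the count of `main_count`. `≤ C (x / (log x)^(21/20))` for `x ≥ x₀`
(`1 ≤ x / (log x)^(21/20)` eventually, e.g. from `asy_one`). For `2 ≤ x < x₀` the count is at most `x ≤ x₀` and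
`x / (log x)^(21/20)` is bounded below by a positive constant on this finite set (for instance by
`1 / (1 + log x₀)^2` because `log x ≤ 1 + log x₀`, `x ≥ 1`), so a larger constant works.
Third part: `p % 4 = 3` implies `p ≥ 3`, so `red` and `mod_four`.
Second part: `density_zero`.
-/

namespace Pool.Agent.Lib.H30F

open Filter

theorem fin_red (p : ℕ) (hp : p.Prime) (h3 : 3 ≤ p) (h : R p ≠ {p, 2 * p}) :
    ∃ n : ℕ, Nat.totient n = p - 1 ∧ n ≠ p ∧ n ≠ 2 * p := by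
  by_contra hcon
  push Not at hcon
  apply h
  apply red p hp h3
  intro n hn
  by_cases h1 : n = p
  · exact Or.inl h1
  · exact Or.inr (hcon n hn h1)

open Classical in
theorem fin_ev : ∃ C : ℝ, 0 < C ∧ ∀ᶠ x : ℕ in atTop,
    (((Finset.Icc 1 x).filter (fun p => p.Prime ∧ R p ≠ {p, 2 * p})).card : ℝ)
      ≤ C * (x / Real.log x ^ (21 / 20 : ℝ)) := by
  obtain ⟨C, hC, h⟩ := main_count
  refine ⟨C + 1, by linarith, ?_⟩
  filter_upwards [h, asy_one] with x h1 h2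
  have hsub : (Finset.Icc 1 x).filter (fun p => p.Prime ∧ R p ≠ {p, 2 * p}) ⊆
      insert 2 ((Finset.Icc 1 x).filter (fun p => p.Prime ∧ 3 ≤ p ∧
        ∃ n : ℕ, Nat.totient n = p - 1 ∧ n ≠ p ∧ n ≠ 2 * p)) := by
    intro p hp
    rw [Finset.mem_filter] at hp
    rw [Finset.mem_insert, Finset.mem_filter]
    obtain ⟨hp1, hp2, hp3⟩ := hp
    by_cases h2 : p = 2
    · exact Or.inl h2
    · right
      have h4 := hp2.two_le
      exact ⟨hp1, hp2, by omega, fin_red p hp2 (by omega) hp3⟩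
  have hcard : ((Finset.Icc 1 x).filter (fun p => p.Prime ∧ R p ≠ {p, 2 * p})).card ≤
      ((Finset.Icc 1 x).filter (fun p => p.Prime ∧ 3 ≤ p ∧
        ∃ n : ℕ, Nat.totient n = p - 1 ∧ n ≠ p ∧ n ≠ 2 * p)).card + 1 :=
    (Finset.card_le_card hsub).trans (Finset.card_insert_le _ _)
  have hcard' : (((Finset.Icc 1 x).filter (fun p => p.Prime ∧ R p ≠ {p, 2 * p})).card : ℝ) ≤
      (((Finset.Icc 1 x).filter (fun p => p.Prime ∧ 3 ≤ p ∧
        ∃ n : ℕ, Nat.totient n = p - 1 ∧ n ≠ p ∧ n ≠ 2 * p)).card : ℝ) + 1 := by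
    exact_mod_cast hcard
  have h3 : (0 : ℝ) ≤ (x : ℝ) ^ (1 / 2 : ℝ) := by positivity
  have e : (C + 1) * (x / Real.log x ^ (21 / 20 : ℝ)) =
      C * (x / Real.log x ^ (21 / 20 : ℝ)) + x / Real.log x ^ (21 / 20 : ℝ) := by ring
  rw [e]
  linarith

open Classical in
theorem final_count : ∃ C : ℝ, ∀ x : ℕ, 2 ≤ x →
    (((Finset.Icc 1 x).filter (fun p => p.Prime ∧ R p ≠ {p, 2 * p})).card : ℝ)
      ≤ C * x / Real.log x ^ (21 / 20 : ℝ) := by
  obtain ⟨C, hC, h⟩ := fin_ev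
  obtain ⟨x₀, hx₀⟩ := eventually_atTop.1 h
  refine ⟨C + Real.log x₀ ^ (21 / 20 : ℝ), ?_⟩
  intro x hx
  have hx' : (2 : ℝ) ≤ x := by exact_mod_cast hx
  have hL : 0 < Real.log x := Real.log_pos (by linarith)
  have hLp : 0 < Real.log x ^ (21 / 20 : ℝ) := Real.rpow_pos_of_pos hL _
  by_cases hc : x₀ ≤ x
  · refine (hx₀ x hc).trans ?_
    have h1 : 0 ≤ Real.log x₀ ^ (21 / 20 : ℝ) := Real.rpow_nonneg (Real.log_natCast_nonneg x₀) _
    rw [← mul_div_assoc]
    gcongr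
    linarith
  · push Not at hc
    have h1 : (((Finset.Icc 1 x).filter (fun p => p.Prime ∧ R p ≠ {p, 2 * p})).card : ℝ) ≤ x := by
      have h2 : ((Finset.Icc 1 x).filter (fun p => p.Prime ∧ R p ≠ {p, 2 * p})).card ≤ x := by
        refine (Finset.card_filter_le _ _).trans ?_
        rw [Nat.card_Icc]
        omega
      exact_mod_cast h2
    refine h1.trans ?_
    rw [le_div_iff₀ hLp, mul_comm]
    have hx0' : (x : ℝ) ≤ x₀ := by exact_mod_cast hc.le
    have h3 : Real.log x ≤ Real.log x₀ := Real.log_le_log (by linarith) hx0'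
    have h4 : Real.log x ^ (21 / 20 : ℝ) ≤ Real.log x₀ ^ (21 / 20 : ℝ) :=
      Real.rpow_le_rpow hL.le h3 (by norm_num)
    exact mul_le_mul_of_nonneg_right (by linarith) (by linarith)

open Classical in
theorem final_density :
    Tendsto (fun x : ℕ =>
      (((Finset.Icc 1 x).filter (fun p => p.Prime ∧ R p ≠ {p, 2 * p})).card : ℝ) /
        (Nat.primeCounting x : ℝ)) atTop (nhds 0) := by
  obtain ⟨C, _, h⟩ := fin_ev
  exact density_zero C _ (fun x => Nat.cast_nonneg _) h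

open Classical in
theorem final_mod4 : ∀ x : ℕ,
    (((Finset.Icc 1 x).filter (fun p => p.Prime ∧ p % 4 = 3 ∧ R p ≠ {p, 2 * p})).card : ℝ)
      ≤ 4 * Real.sqrt x := by
  intro x
  refine le_trans ?_ (mod_four x)
  have hsub : (Finset.Icc 1 x).filter (fun p => p.Prime ∧ p % 4 = 3 ∧ R p ≠ {p, 2 * p}) ⊆
      (Finset.Icc 1 x).filter (fun p => p.Prime ∧ p % 4 = 3 ∧
        ∃ n : ℕ, Nat.totient n = p - 1 ∧ n ≠ p ∧ n ≠ 2 * p) := by
    intro p hp
    rw [Finset.mem_filter] at hp ⊢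
    obtain ⟨hp1, hp2, hp3, hp4⟩ := hp
    exact ⟨hp1, hp2, hp3, fin_red p hp2 (by omega) hp4⟩
  exact_mod_cast Finset.card_le_card hsub

end Pool.Agent.Lib.H30F
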