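import Pool.Agent.Lib.H30F.PrimeRec

/-!
# Chunk OMBIG

Few integers have many prime factors (counted with multiplicity).

PROOF. `g(v) = (3/2)^(Ω v) / v` is completely multiplicative (`ArithmeticFunction.cardFactors_mul`; `g 0 = 0`), `0 ≤ g`,
`g p = 3/(2p) < 1` for primes, so `EulerProduct.summable_and_hasSum_smoothNumbers_prod_primesBelow_geometric` (see the use in
`Sieve/Averages.lean`, `prod_one_sub_inv_le`) gives
`∑_{1 ≤ v ≤ x} g(v) ≤ ∏_{p ≤ x} (1 - 3/(2p))⁻¹ ≤ exp(∑_{p ≤ x} 6/p)` (`(1-u)⁻¹ ≤ exp(u/(1-u))`, and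
`u/(1-u) = 3/(2p-3) ≤ 6/p` for `p ≥ 2`) `≤ exp(6 C₀) (log x)^54` by `sum_inv_primes`. For `v ≤ x` with `Ω v > k`,
`k = B log log x`: `1 ≤ x/v ≤ x g(v) (3/2)^(-k)`. So the count is at most
`x (3/2)^(-B log log x) exp(6 C₀) (log x)^54 = C x (log x)^(54 - B log(3/2))`, `log(3/2) ≥ 1/3`
(`Real.add_one_le_exp`: `exp(1/3) ≤ 3/2` because `exp 1 ≤ 27/8`). `B = ⌈3 (A + 54)⌉₊`.
-/

namespace Pool.Agent.Lib.H30F

open Pool.Agent.Lib.Sieve

/-- The completely multiplicative function `(3/2)^(Ω v) / v`. -/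
noncomputable def ombHom : ℕ →*₀ ℝ where
  toFun n := if n = 0 then 0 else (3 / 2 : ℝ) ^ (ArithmeticFunction.cardFactors n) / n
  map_zero' := by simp
  map_one' := by simp
  map_mul' := by
    intro a b
    by_cases ha : a = 0
    · simp [ha]
    by_cases hb : b = 0
    · simp [hb]
    have hab : a * b ≠ 0 := mul_ne_zero ha hb
    have ha' : (a : ℝ) ≠ 0 := Nat.cast_ne_zero.mpr ha
    have hb' : (b : ℝ) ≠ 0 := Nat.cast_ne_zero.mpr hb
    simp only [ha, hb, hab, if_false]
    rw [ArithmeticFunction.cardFactors_mul ha hb, pow_add]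
    push_cast
    field_simp

theorem ombHom_apply {n : ℕ} (hn : n ≠ 0) :
    ombHom n = (3 / 2 : ℝ) ^ (ArithmeticFunction.cardFactors n) / n := by
  change (if n = 0 then (0 : ℝ) else _) = _
  rw [if_neg hn]

theorem ombHom_nonneg (n : ℕ) : 0 ≤ ombHom n := by
  by_cases hn : n = 0
  · rw [hn, map_zero]
  · rw [ombHom_apply hn]
    positivity

theorem ombHom_prime {p : ℕ} (hp : p.Prime) : ombHom p = 3 / (2 * p) := by
  rw [ombHom_apply hp.ne_zero, ArithmeticFunction.cardFactors_apply_prime hp, pow_one]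
  have : (p : ℝ) ≠ 0 := Nat.cast_ne_zero.mpr hp.ne_zero
  field_simp

theorem omb_factor {p : ℕ} (hp : p.Prime) : (1 - ombHom p)⁻¹ ≤ Real.exp (6 / p) := by
  have hp2 : (2 : ℝ) ≤ p := by exact_mod_cast hp.two_le
  rw [ombHom_prime hp]
  have h1 : (1 - 3 / (2 * (p : ℝ)))⁻¹ = 1 + 3 / (2 * p - 3) := by
    have h2 : (2 * (p : ℝ) - 3) ≠ 0 := by
      have : 0 < 2 * (p : ℝ) - 3 := by linarith
      exact this.ne'
    have h3 : (p : ℝ) ≠ 0 := by
      have : 0 < (p : ℝ) := by linarith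
      exact this.ne'
    have h4 : 1 - 3 / (2 * (p : ℝ)) = (2 * p - 3) / (2 * p) := by
      field_simp
    rw [h4, inv_div]
    field_simp
    ring
  rw [h1]
  have h5 : 3 / (2 * (p : ℝ) - 3) ≤ 6 / p := by
    rw [div_le_div_iff₀ (by linarith) (by linarith)]
    nlinarith
  have h6 := Real.add_one_le_exp (6 / (p : ℝ))
  linarith

theorem omb_sum (x : ℕ) :
    ∑ m ∈ Finset.Icc 1 x, ombHom m ≤ Real.exp (∑ p ∈ primesUpTo x, 6 / (p : ℝ)) := by
  have hnorm : ∀ {p : ℕ}, p.Prime → ‖ombHom p‖ < 1 := by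
    intro p hp
    have hp2 : (2 : ℝ) ≤ p := by exact_mod_cast hp.two_le
    rw [Real.norm_eq_abs, abs_of_nonneg (ombHom_nonneg p), ombHom_prime hp, div_lt_one (by linarith)]
    linarith
  obtain ⟨hsum, hhas⟩ := EulerProduct.summable_and_hasSum_smoothNumbers_prod_primesBelow_geometric
    (f := (ombHom : ℕ →* ℝ)) (fun {p} hp => hnorm hp) (x + 1)
  have h3 : ∑ m ∈ Finset.Icc 1 x, ombHom m ≤ ∏ p ∈ (x + 1).primesBelow, (1 - ombHom p)⁻¹ := by
    let s : Finset (Nat.smoothNumbers (x + 1)) :=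
      (Finset.Icc 1 x).attach.map ⟨fun m => ⟨m.1, by
        have hm := Finset.mem_Icc.mp m.2
        exact Nat.mem_smoothNumbers_of_lt (by omega) (by omega)⟩, fun a b hab => by
        apply Subtype.ext
        exact congrArg (fun x => x.1) hab⟩
    have h4 := sum_le_hasSum s (fun i _ => ombHom_nonneg _) hhas
    refine le_trans (le_of_eq ?_) h4
    rw [Finset.sum_map]
    exact (Finset.sum_attach (Finset.Icc 1 x) fun m => ombHom m).symm
  refine h3.trans ?_
  rw [Real.exp_sum]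
  apply Finset.prod_le_prod
  · intro p hp
    have hp' : p.Prime := (Nat.mem_primesBelow.mp hp).2
    have := hnorm hp'
    rw [Real.norm_eq_abs, abs_of_nonneg (ombHom_nonneg p)] at this
    exact inv_nonneg.mpr (by linarith)
  · intro p hp
    exact omb_factor (Nat.mem_primesBelow.mp hp).2

open Classical in
theorem omega_big (A : ℝ) : ∃ B : ℕ, 1 ≤ B ∧ ∃ C : ℝ, 0 < C ∧ ∀ x : ℕ, 3 ≤ x →
    (((Finset.Icc 1 x).filter (fun v =>
      B * Real.log (Real.log x) < (ArithmeticFunction.cardFactors v : ℝ))).card : ℝ)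
      ≤ C * x / Real.log x ^ A := by
  obtain ⟨C₀, hC₀, hsum⟩ := sum_inv_primes
  refine ⟨⌈3 * (A + 54)⌉₊ + 1, by omega, Real.exp (6 * C₀), Real.exp_pos _, ?_⟩
  intro x hx
  have hx3 : (3 : ℝ) ≤ x := by exact_mod_cast hx
  have hx0 : (0 : ℝ) < x := by linarith
  have hlog1 : 1 ≤ Real.log x := by
    rw [Real.le_log_iff_exp_le hx0]
    have := Real.exp_one_lt_three
    linarith
  have hlog0 : 0 < Real.log x := by linarith
  set L : ℝ := Real.log (Real.log x) with hL
  have hL0 : 0 ≤ L := Real.log_nonneg hlog1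
  set B : ℕ := ⌈3 * (A + 54)⌉₊ + 1 with hB
  have hB1 : 3 * (A + 54) ≤ (B : ℝ) := by
    have := Nat.le_ceil (3 * (A + 54))
    rw [hB]
    push_cast
    linarith
  have hl32 : (1 : ℝ) / 3 ≤ Real.log (3 / 2) := by
    rw [Real.le_log_iff_exp_le (by norm_num)]
    have h1 : Real.exp (1 / 3) ^ 3 = Real.exp 1 := by
      rw [← Real.exp_nat_mul]
      norm_num
    have h2 : Real.exp 1 < 3 := Real.exp_one_lt_three
    by_contra hcon
    push Not at hcon
    have h3 : (3 / 2 : ℝ) ^ 3 ≤ Real.exp (1 / 3) ^ 3 :=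
      pow_le_pow_left₀ (by norm_num) hcon.le 3
    rw [h1] at h3
    norm_num at h3
    linarith
  -- one term
  have hterm : ∀ v ∈ (Finset.Icc 1 x).filter (fun v =>
      B * L < (ArithmeticFunction.cardFactors v : ℝ)),
      (1 : ℝ) ≤ (x * Real.exp (-(B * L / 3))) * ombHom v := by
    intro v hv
    rw [Finset.mem_filter, Finset.mem_Icc] at hv
    obtain ⟨⟨hv1, hv2⟩, hv3⟩ := hv
    have hv0 : (0 : ℝ) < v := by exact_mod_cast hv1
    have hvx : (v : ℝ) ≤ x := by exact_mod_cast hv2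
    rw [ombHom_apply (by omega)]
    have h1 : Real.exp (B * L / 3) ≤ (3 / 2 : ℝ) ^ (ArithmeticFunction.cardFactors v) := by
      rw [← Real.exp_log (show (0 : ℝ) < (3 / 2 : ℝ) ^ (ArithmeticFunction.cardFactors v) by
        positivity), Real.log_pow]
      apply Real.exp_le_exp.mpr
      have h2 : (0 : ℝ) ≤ (ArithmeticFunction.cardFactors v : ℝ) := Nat.cast_nonneg _
      nlinarith
    have h3 : 1 ≤ Real.exp (-(B * L / 3)) * (3 / 2 : ℝ) ^ (ArithmeticFunction.cardFactors v) := by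
      rw [Real.exp_neg, ← div_eq_inv_mul, one_le_div (Real.exp_pos _)]
      exact h1
    have h4 : 1 ≤ (x : ℝ) / v := by
      rw [one_le_div hv0]
      exact hvx
    calc (1 : ℝ) ≤ ((x : ℝ) / v) *
          (Real.exp (-(B * L / 3)) * (3 / 2 : ℝ) ^ (ArithmeticFunction.cardFactors v)) := by
          nlinarith
      _ = _ := by ring
  have hcard : (((Finset.Icc 1 x).filter (fun v =>
      B * L < (ArithmeticFunction.cardFactors v : ℝ))).card : ℝ)
      ≤ (x * Real.exp (-(B * L / 3))) * ∑ m ∈ Finset.Icc 1 x, ombHom m := by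
    rw [Finset.card_eq_sum_ones, Nat.cast_sum, Finset.mul_sum]
    have hs1 := Finset.sum_le_sum hterm
    refine le_trans (le_of_eq ?_) (hs1.trans ?_)
    · refine Finset.sum_congr rfl fun v _ => ?_
      exact Nat.cast_one
    apply Finset.sum_le_sum_of_subset_of_nonneg (Finset.filter_subset _ _)
    intro v _ _
    have := ombHom_nonneg v
    positivity
  refine hcard.trans ?_
  have h5 : ∑ m ∈ Finset.Icc 1 x, ombHom m ≤ Real.exp (54 * L + 6 * C₀) := by
    refine (omb_sum x).trans ?_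
    apply Real.exp_le_exp.mpr
    have h6 := hsum x hx
    have h7 : ∑ p ∈ primesUpTo x, 6 / (p : ℝ) = 6 * ∑ p ∈ primesUpTo x, (1 : ℝ) / p := by
      rw [Finset.mul_sum]
      refine Finset.sum_congr rfl fun p _ => ?_
      ring
    rw [h7]
    linarith
  have h8 : Real.log x ^ A = Real.exp (A * L) := by
    rw [Real.rpow_def_of_pos hlog0, mul_comm]
  rw [h8]
  have h9 : Real.exp (6 * C₀) * x / Real.exp (A * L) = x * Real.exp (6 * C₀ - A * L) := by
    rw [Real.exp_sub]
    ring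
  rw [h9]
  calc x * Real.exp (-(B * L / 3)) * ∑ m ∈ Finset.Icc 1 x, ombHom m
      ≤ x * Real.exp (-(B * L / 3)) * Real.exp (54 * L + 6 * C₀) := by
        apply mul_le_mul_of_nonneg_left h5
        positivity
    _ = x * Real.exp (-(B * L / 3) + (54 * L + 6 * C₀)) := by
        rw [mul_assoc, ← Real.exp_add]
    _ ≤ x * Real.exp (6 * C₀ - A * L) := by
        apply mul_le_mul_of_nonneg_left _ hx0.le
        apply Real.exp_le_exp.mpr
        nlinarith

end Pool.Agent.Lib.H30F
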