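import Mathlib

/-!
# Chunk PAR2

Parameters for `K = ⌊B log log x⌋₊`: `y = ⌊exp(L/(2(K+1)))⌋₊`, `Y = ⌊exp(L/(6(K+1)))⌋₊`, `z = ⌊exp(L/(1000(K+1)))⌋₊`,
`L = log x`. Same proof as Params.lean (copy it; there `B = 1/10`); `K + 1 ≤ 2 B l` eventually, `l = log log x`, so
`log z ≥ L/(2000 (K+1)) ≥ L/(4000 B l)`.
-/

namespace Pool.Agent.Lib.H30F

open Filter

theorem par2_core (B x : ℕ) (hB : 1 ≤ B) (L l : ℝ) (hL : L = Real.log x) (hl : l = Real.log L)
    (hx : 1 ≤ x) (hl2 : 2 ≤ l) (h1 : 36 * B * l ^ 2 ≤ L) (h2 : 4000 * B * l ≤ L) :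
    ∃ y Y z : ℕ,
    1 ≤ y ∧ y ^ (2 * (⌊B * l⌋₊ + 1)) ≤ x ∧ Y ^ 3 ≤ y ∧ 1 ≤ Y ∧ 2 ≤ z ∧ z ^ 422 ≤ y ∧
    L ^ 2 ≤ (Y : ℝ) ∧
    L / (4000 * B * l) ≤ Real.log z := by
  have hx0 : (0 : ℝ) < x := by exact_mod_cast hx
  have hB1 : (1 : ℝ) ≤ B := by exact_mod_cast hB
  have hBl : (2 : ℝ) ≤ B * l := by nlinarith
  have hLp : 8000 ≤ L := by nlinarith
  have hL0 : 0 < L := by linarith
  have hexpL : Real.exp L = x := by rw [hL, Real.exp_log hx0]
  have hexpl : Real.exp l = L := by rw [hl, Real.exp_log hL0]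
  set K : ℕ := ⌊B * l⌋₊ with hK
  have hK1 : (K : ℝ) ≤ B * l := Nat.floor_le (by linarith)
  set c : ℝ := (K : ℝ) + 1 with hc
  have hc1 : 1 ≤ c := by
    have : (0 : ℝ) ≤ K := Nat.cast_nonneg _
    linarith
  have hcl : c ≤ 2 * B * l := by linarith
  have hc0 : 0 < c := by linarith
  have hBl0 : (0 : ℝ) < 2 * B * l := by linarith
  set E : ℝ := L / (1000 * c) with hE
  have hEc : 1000 * E * c = L := by
    rw [hE]; field_simp
  have hE0 : 0 < E := by positivity
  have hEl : L / (1000 * (2 * B * l)) ≤ E := by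
    rw [hE]
    gcongr
  have hE2 : 2 ≤ E := by
    refine le_trans ?_ hEl
    rw [le_div_iff₀ (by linarith)]
    linarith
  have hEL : 1000 * E ≤ L := by nlinarith
  set y : ℕ := ⌊Real.exp (500 * E)⌋₊ with hy
  set Y : ℕ := ⌊Real.exp (1000 * E / 6)⌋₊ with hY
  set z : ℕ := ⌊Real.exp E⌋₊ with hz
  have hyle : (y : ℝ) ≤ Real.exp (500 * E) := Nat.floor_le (Real.exp_pos _).le
  have hYle : (Y : ℝ) ≤ Real.exp (1000 * E / 6) := Nat.floor_le (Real.exp_pos _).le
  have hzle : (z : ℝ) ≤ Real.exp E := Nat.floor_le (Real.exp_pos _).le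
  have hYge : Real.exp (1000 * E / 6) - 1 ≤ (Y : ℝ) := by
    have := Nat.lt_floor_add_one (Real.exp (1000 * E / 6))
    rw [← hY] at this
    linarith
  have hzge : Real.exp E - 1 ≤ (z : ℝ) := by
    have := Nat.lt_floor_add_one (Real.exp E)
    rw [← hz] at this
    linarith
  have hLY : L ^ 2 ≤ (Y : ℝ) := by
    refine le_trans ?_ hYge
    have h3 : 3 * l ≤ 1000 * E / 6 := by
      have : L / (2 * B * l) ≤ 1000 * E := by
        have h4 : 1000 * (L / (1000 * (2 * B * l))) ≤ 1000 * E := by linarith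
        have h5 : 1000 * (L / (1000 * (2 * B * l))) = L / (2 * B * l) := by
          field_simp
        linarith
      have h6 : 18 * l ≤ L / (2 * B * l) := by
        rw [le_div_iff₀ hBl0]
        nlinarith
      linarith
    have h7 : Real.exp (3 * l) ≤ Real.exp (1000 * E / 6) := Real.exp_le_exp.2 h3
    have h8 : Real.exp (3 * l) = L ^ 3 := by
      have : 3 * l = l + l + l := by ring
      rw [this, Real.exp_add, Real.exp_add, hexpl]
      ring
    rw [h8] at h7
    nlinarith [sq_nonneg L]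
  have hY1 : 1 ≤ Y := by
    have : (0 : ℝ) < Y := lt_of_lt_of_le (by positivity) hLY
    have h := Nat.cast_pos.1 this
    omega
  have hpow : ∀ n : ℕ, Real.exp E ^ n = Real.exp (n * E) := by
    intro n
    rw [← Real.exp_nat_mul]
  refine ⟨y, Y, z, ?_, ?_, ?_, hY1, ?_, ?_, hLY, ?_⟩
  · rw [hy]
    apply Nat.le_floor
    rw [Nat.cast_one]
    exact Real.one_le_exp (by positivity)
  · have h : (y : ℝ) ^ (2 * (K + 1)) ≤ (x : ℝ) := by
      calc (y : ℝ) ^ (2 * (K + 1)) ≤ (Real.exp (500 * E)) ^ (2 * (K + 1)) :=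
            pow_le_pow_left₀ (Nat.cast_nonneg _) hyle _
        _ = Real.exp (((2 * (K + 1) : ℕ) : ℝ) * (500 * E)) := by rw [← Real.exp_nat_mul]
        _ = x := by
          rw [← hexpL]
          congr 1
          push_cast
          rw [← hEc, hc]
          ring
    exact_mod_cast h
  · rw [hy]
    apply Nat.le_floor
    push_cast
    calc (Y : ℝ) ^ 3 ≤ (Real.exp (1000 * E / 6)) ^ 3 := pow_le_pow_left₀ (Nat.cast_nonneg _) hYle _
      _ = Real.exp (((3 : ℕ) : ℝ) * (1000 * E / 6)) := by rw [← Real.exp_nat_mul]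
      _ ≤ Real.exp (500 * E) := by
        apply Real.exp_le_exp.2
        push_cast
        linarith
  · rw [hz]
    apply Nat.le_floor
    push_cast
    have := Real.add_one_le_exp E
    linarith
  · rw [hy]
    apply Nat.le_floor
    push_cast
    calc (z : ℝ) ^ 422 ≤ (Real.exp E) ^ 422 := pow_le_pow_left₀ (Nat.cast_nonneg _) hzle _
      _ = Real.exp (((422 : ℕ) : ℝ) * E) := hpow 422
      _ ≤ Real.exp (500 * E) := by
        apply Real.exp_le_exp.2
        push_cast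
        linarith
  · have h1 : Real.exp (E / 2) ≤ (z : ℝ) := by
      refine le_trans ?_ hzge
      have h2 : Real.exp E = Real.exp (E / 2) * Real.exp (E / 2) := by
        rw [← Real.exp_add]
        congr 1
        ring
      have h3 := Real.add_one_le_exp (E / 2)
      rw [h2]
      nlinarith
    have h4 : E / 2 ≤ Real.log z := by
      rw [← Real.log_exp (E / 2)]
      exact Real.log_le_log (Real.exp_pos _) h1
    refine le_trans ?_ h4
    have h5 : L / (4000 * B * l) = L / (1000 * (2 * B * l)) / 2 := by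
      have hB0 : (B : ℝ) ≠ 0 := by linarith
      have hl0 : l ≠ 0 := by linarith
      field_simp
      norm_num
    rw [h5]
    linarith

theorem params_two (B : ℕ) (hB : 1 ≤ B) : ∀ᶠ x : ℕ in atTop, ∃ y Y z : ℕ,
    1 ≤ y ∧ y ^ (2 * (⌊B * Real.log (Real.log x)⌋₊ + 1)) ≤ x ∧ Y ^ 3 ≤ y ∧ 1 ≤ Y ∧ 2 ≤ z ∧
    z ^ 422 ≤ y ∧ Real.log x ^ 2 ≤ (Y : ℝ) ∧
    Real.log x / (4000 * B * Real.log (Real.log x)) ≤ Real.log z := by
  have hB1 : (1 : ℝ) ≤ B := by exact_mod_cast hB
  have hL : Tendsto (fun x : ℕ => Real.log (x : ℝ)) atTop atTop :=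
    Real.tendsto_log_atTop.comp tendsto_natCast_atTop_atTop
  have hl : Tendsto (fun x : ℕ => Real.log (Real.log (x : ℝ))) atTop atTop :=
    Real.tendsto_log_atTop.comp hL
  have ho1 : ∀ᶠ L : ℝ in atTop, 36 * B * Real.log L ^ 2 ≤ L := by
    have h := (Real.isLittleO_pow_log_id_atTop (n := 2)).bound
      (show (0 : ℝ) < 1 / (36 * B) by positivity)
    filter_upwards [h, eventually_ge_atTop (1 : ℝ)] with L hL1 hL2
    simp only [id, Real.norm_eq_abs] at hL1
    rw [abs_of_nonneg (by positivity), abs_of_nonneg (by linarith : (0 : ℝ) ≤ L)] at hL1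
    have h3 := mul_le_mul_of_nonneg_left hL1 (by positivity : (0 : ℝ) ≤ 36 * B)
    have h4 : 36 * (B : ℝ) * (1 / (36 * B) * L) = L := by
      have hB0 : (B : ℝ) ≠ 0 := by linarith
      field_simp
    linarith
  have ho2 : ∀ᶠ L : ℝ in atTop, 4000 * B * Real.log L ≤ L := by
    have h := (Real.isLittleO_pow_log_id_atTop (n := 1)).bound
      (show (0 : ℝ) < 1 / (4000 * B) by positivity)
    filter_upwards [h, eventually_ge_atTop (1 : ℝ)] with L hL1 hL2
    simp only [id, Real.norm_eq_abs, pow_one] at hL1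
    rw [abs_of_nonneg (Real.log_nonneg hL2), abs_of_nonneg (by linarith : (0 : ℝ) ≤ L)] at hL1
    have h3 := mul_le_mul_of_nonneg_left hL1 (by positivity : (0 : ℝ) ≤ 4000 * B)
    have h4 : 4000 * (B : ℝ) * (1 / (4000 * B) * L) = L := by
      have hB0 : (B : ℝ) ≠ 0 := by linarith
      field_simp
    linarith
  filter_upwards [hL.eventually ho1, hL.eventually ho2, hl.eventually_ge_atTop 2,
    eventually_ge_atTop 1] with x h1 h2 h3 h4
  exact par2_core B x hB _ _ rfl rfl h4 h3 h1 h2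

end Pool.Agent.Lib.H30F
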