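import Pool.Agent.Lib.H30F.Cases2
import Pool.Agent.Lib.H30F.Count3
import Pool.Agent.Lib.H30F.Count5
import Pool.Agent.Lib.H30F.OmegaBig
import Pool.Agent.Lib.H30F.Params2
import Pool.Agent.Lib.H30F.Asy2

/-!
# Chunk MAINC2

PROOF. `B`, `C₁` from `omega_big` with `A = 2`, `K = ⌊B log log x⌋₊`, `y, Y, z` from `params_two`, `C₅` from `count_five`
with `ε/2` and `B`. The set is contained in the union of
* `{p ≤ x : Ω(p - 1) > B log log x}`: image of the set of `omega_big` under `v ↦ v + 1` (`p - 1 ∈ [1, x]` because `p ≥ 3`): at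
  most `C₁ x/(log x)^2`;
* for the others `Ω(p - 1) ≤ K` (`Nat.le_floor`), so `cases_two`: `{p ≤ Nat.sqrt x + 1}` (at most `x^(1/2) + 1`), the set of
  `count_three` (at most `2x/Y ≤ 2x/(log x)^2`), the set of `count_five` (insert `1/log z ≤ 4000 B l/L` and `asy_six`).
Everything is `≤ const * x/(log x)^(2-ε)` (`(log x)^(2-ε) ≤ (log x)^2` for `log x ≥ 1`).
-/

namespace Pool.Agent.Lib.H30F

open Filter

open Classical in
theorem main_count2 (ε : ℝ) (hε : 0 < ε) : ∃ C : ℝ, 0 < C ∧ ∀ᶠ x : ℕ in atTop,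
    (((Finset.Icc 1 x).filter (fun p => p.Prime ∧ 3 ≤ p ∧
      ∃ n : ℕ, Nat.totient n = p - 1 ∧ n ≠ p ∧ n ≠ 2 * p)).card : ℝ)
      ≤ C * (x / Real.log x ^ (2 - ε)) := by
  obtain ⟨B, hB, C₁, hC₁, h1⟩ := omega_big 2
  obtain ⟨C₅, hC₅, h5⟩ := count_five (ε / 2) (by linarith) B
  refine ⟨C₁ + 1 + 2 + C₅, by positivity, ?_⟩
  filter_upwards [params_two B hB, asy_five, asy_six B ε hε, eventually_ge_atTop 16]
    with x hpar ha5 ha6 hx16
  obtain ⟨y, Y, z, hy, hyx, hYy, hY, hz, hzy, hYL, hlz⟩ := hpar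
  set K := ⌊B * Real.log (Real.log x)⌋₊ with hK
  have hL : (1 : ℝ) < Real.log x := by
    have h16 : (16 : ℝ) ≤ x := by exact_mod_cast hx16
    rw [Real.lt_log_iff_exp_lt (by linarith)]
    have := Real.exp_one_lt_d9
    linarith
  have hl : 0 < Real.log (Real.log x) := Real.log_pos hL
  have hx0 : (0 : ℝ) < x := by exact_mod_cast (by omega : 0 < x)
  have hB0 : (0 : ℝ) < B := by exact_mod_cast (by omega : 0 < B)
  have hKB : (K : ℝ) ≤ B * Real.log (Real.log x) := Nat.floor_le (by positivity)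
  set S₁ := (Finset.Icc 1 x).filter (fun v =>
      B * Real.log (Real.log x) < (ArithmeticFunction.cardFactors v : ℝ)) with hS₁
  set S₃ := (Finset.Icc 2 x).filter (fun p => ∃ r j : ℕ, r.Prime ∧ 1 ≤ j ∧ Y < r ^ j ∧
      Nat.totient ((r ^ j) ^ 2) ∣ p - 1) with hS₃
  set S₅ := (Finset.Icc 1 x).filter (fun p => p.Prime ∧ ∃ q m : ℕ, q.Prime ∧ y < q ∧ 3 ≤ m ∧
      ArithmeticFunction.cardFactors (Nat.totient m) ≤ K ∧
      p = (q - 1) * Nat.totient m + 1) with hS₅
  have hsub : (Finset.Icc 1 x).filter (fun p => p.Prime ∧ 3 ≤ p ∧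
      ∃ n : ℕ, Nat.totient n = p - 1 ∧ n ≠ p ∧ n ≠ 2 * p)
      ⊆ S₁.image (fun v => v + 1) ∪ (Finset.Icc 1 (Nat.sqrt x + 1) ∪ (S₃ ∪ S₅)) := by
    intro p hp
    rw [Finset.mem_filter, Finset.mem_Icc] at hp
    obtain ⟨⟨hp1, hpx⟩, hpp, hp3, n, hn, hnp, hn2⟩ := hp
    rw [Finset.mem_union, Finset.mem_union, Finset.mem_union]
    by_cases hΩ : B * Real.log (Real.log x) < (ArithmeticFunction.cardFactors (p - 1) : ℝ)
    · left
      rw [Finset.mem_image]
      refine ⟨p - 1, ?_, by omega⟩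
      rw [hS₁, Finset.mem_filter, Finset.mem_Icc]
      exact ⟨⟨by omega, by omega⟩, hΩ⟩
    · right
      have hΩK : ArithmeticFunction.cardFactors (p - 1) ≤ K := by
        rw [hK]
        exact Nat.le_floor (not_lt.mp hΩ)
      rcases cases_two p x K y n hpp hp3 hy hyx hn hnp hn2 hΩK with h | h | h
      · left
        rw [Finset.mem_Icc]
        exact ⟨hp1, h⟩
      · right; left
        obtain ⟨r, j, hr, hj, hyr, hd⟩ := h
        rw [hS₃, Finset.mem_filter, Finset.mem_Icc]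
        refine ⟨⟨by omega, hpx⟩, r, j, hr, hj, ?_, hd⟩
        have : Y ^ 3 < (r ^ j) ^ 3 := lt_of_le_of_lt hYy hyr
        exact lt_of_pow_lt_pow_left₀ 3 (Nat.zero_le _) this
      · right; right
        rw [hS₅, Finset.mem_filter, Finset.mem_Icc]
        exact ⟨⟨hp1, hpx⟩, hpp, h⟩
  have hcard : (((Finset.Icc 1 x).filter (fun p => p.Prime ∧ 3 ≤ p ∧
      ∃ n : ℕ, Nat.totient n = p - 1 ∧ n ≠ p ∧ n ≠ 2 * p)).card : ℝ)
      ≤ S₁.card + ((Nat.sqrt x + 1 : ℕ) + (S₃.card + S₅.card)) := by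
    have e1 := Finset.card_le_card hsub
    have e2 := Finset.card_union_le (S₁.image (fun v => v + 1))
      (Finset.Icc 1 (Nat.sqrt x + 1) ∪ (S₃ ∪ S₅))
    have e3 := Finset.card_union_le (Finset.Icc 1 (Nat.sqrt x + 1)) (S₃ ∪ S₅)
    have e4 := Finset.card_union_le S₃ S₅
    have e5 : (S₁.image (fun v => v + 1)).card ≤ S₁.card := Finset.card_image_le
    have e6 : (Finset.Icc 1 (Nat.sqrt x + 1)).card = Nat.sqrt x + 1 := by
      rw [Nat.card_Icc]
      omega
    have e7 : ((Finset.Icc 1 x).filter (fun p => p.Prime ∧ 3 ≤ p ∧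
      ∃ n : ℕ, Nat.totient n = p - 1 ∧ n ≠ p ∧ n ≠ 2 * p)).card
      ≤ S₁.card + ((Nat.sqrt x + 1) + (S₃.card + S₅.card)) := by omega
    exact_mod_cast e7
  -- the target
  set G := (x : ℝ) / Real.log x ^ (2 - ε) with hG
  have hG2 : (x : ℝ) / Real.log x ^ (2 : ℝ) ≤ G := by
    rw [hG]
    apply div_le_div_of_nonneg_left hx0.le (Real.rpow_pos_of_pos (by linarith) _)
    exact Real.rpow_le_rpow_of_exponent_le hL.le (by linarith)
  have hb1 : (S₁.card : ℝ) ≤ C₁ * G := by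
    have := h1 x (by omega)
    calc (S₁.card : ℝ) ≤ C₁ * x / Real.log x ^ (2 : ℝ) := this
      _ = C₁ * (x / Real.log x ^ (2 : ℝ)) := by ring
      _ ≤ C₁ * G := mul_le_mul_of_nonneg_left hG2 hC₁.le
  have hb2 : ((Nat.sqrt x + 1 : ℕ) : ℝ) ≤ G := by
    have e1 : (Nat.sqrt x : ℝ) ≤ (x : ℝ) ^ (1 / 2 : ℝ) := by
      rw [← Real.sqrt_eq_rpow]
      exact Real.nat_sqrt_le_real_sqrt
    push_cast
    linarith
  have hb3 : (S₃.card : ℝ) ≤ 2 * G := by
    have e1 := count_three x Y hY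
    have hYL0 : (0 : ℝ) < Real.log x ^ 2 := by positivity
    calc (S₃.card : ℝ) ≤ 2 * x / Y := e1
      _ ≤ 2 * x / Real.log x ^ 2 := by
          apply div_le_div_of_nonneg_left (by positivity) hYL0 hYL
      _ = 2 * (x / Real.log x ^ (2 : ℝ)) := by
          rw [show (2 : ℝ) = ((2 : ℕ) : ℝ) by norm_num, Real.rpow_natCast]
          push_cast
          ring
      _ ≤ 2 * G := by linarith
  have hb5 : (S₅.card : ℝ) ≤ C₅ * G := by
    have e1 := h5 x K y z hx16 hz hzy hKB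
    have hz1 : (1 : ℝ) < z := by exact_mod_cast (by omega : 1 < z)
    have hlz0 : 0 < Real.log z := Real.log_pos hz1
    have e2 : 1 / Real.log z ≤ 4000 * B * Real.log (Real.log x) / Real.log x := by
      rw [div_le_div_iff₀ hlz0 (by linarith)]
      rw [div_le_iff₀ (by positivity)] at hlz
      linarith
    have e3 : (1 / Real.log z) ^ 2 ≤ (4000 * B * Real.log (Real.log x) / Real.log x) ^ 2 :=
      pow_le_pow_left₀ (by positivity) e2 2
    calc (S₅.card : ℝ) ≤ C₅ * x * Real.log (Real.log x) ^ 36 / Real.log z ^ 2 *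
          Real.log x ^ (ε / 2) := e1
      _ = C₅ * (x * Real.log (Real.log x) ^ 36 * (1 / Real.log z) ^ 2 *
          Real.log x ^ (ε / 2)) := by ring
      _ ≤ C₅ * (x * Real.log (Real.log x) ^ 36 *
          (4000 * B * Real.log (Real.log x) / Real.log x) ^ 2 * Real.log x ^ (ε / 2)) := by
          apply mul_le_mul_of_nonneg_left _ hC₅.le
          apply mul_le_mul_of_nonneg_right _ (Real.rpow_nonneg (by linarith) _)
          exact mul_le_mul_of_nonneg_left e3 (by positivity)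
      _ ≤ C₅ * G := mul_le_mul_of_nonneg_left ha6 hC₅.le
  linarith

end Pool.Agent.Lib.H30F
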