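import Pool.Agent.Lib.H30F.Red
import Pool.Agent.Lib.H30F.MainCount2

/-!
# Chunk FIN2

PROOF. As Final.lean (`final_count`; copy it): by `red`, an exceptional prime `p ≥ 3` has a solution `n ≠ p, 2p` of
`φ(n) = p - 1`; `p = 2` adds at most one. For `x ≥ x₀` use `main_count2` and `1 ≤ x/(log x)^(2-ε)` eventually; for
`2 ≤ x < x₀` the count is at most `x₀` and `x/(log x)^(2-ε)` is bounded below by a positive constant on this finite set.
(`ε` may be larger than `2`.)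
-/

namespace Pool.Agent.Lib.H30F

open Filter

theorem fin2_red (p : ℕ) (hp : p.Prime) (h3 : 3 ≤ p) (h : R p ≠ {p, 2 * p}) :
    ∃ n : ℕ, Nat.totient n = p - 1 ∧ n ≠ p ∧ n ≠ 2 * p := by
  by_contra hcon
  push Not at hcon
  apply h
  apply red p hp h3
  intro n hn
  by_cases h1 : n = p
  · exact Or.inl h1
  · exact Or.inr (hcon n hn h1)

open Classical in
theorem fin2_ev (ε : ℝ) (hε : 0 < ε) : ∃ C : ℝ, 0 < C ∧ ∀ᶠ x : ℕ in atTop,
    (((Finset.Icc 1 x).filter (fun p => p.Prime ∧ R p ≠ {p, 2 * p})).card : ℝ)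
      ≤ C * (x / Real.log x ^ (2 - ε)) := by
  obtain ⟨C, hC, h⟩ := main_count2 ε hε
  refine ⟨C + 1, by linarith, ?_⟩
  filter_upwards [h, asy_five, eventually_ge_atTop 16] with x h1 h2 hx
  have hx16 : (16 : ℝ) ≤ x := by exact_mod_cast hx
  have hlogx1 : 1 ≤ Real.log x := by
    rw [Real.le_log_iff_exp_le (by linarith)]
    have := Real.exp_one_lt_d9
    linarith
  have hsub : (Finset.Icc 1 x).filter (fun p => p.Prime ∧ R p ≠ {p, 2 * p}) ⊆
      insert 2 ((Finset.Icc 1 x).filter (fun p => p.Prime ∧ 3 ≤ p ∧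
        ∃ n : ℕ, Nat.totient n = p - 1 ∧ n ≠ p ∧ n ≠ 2 * p)) := by
    intro p hp
    rw [Finset.mem_filter] at hp
    rw [Finset.mem_insert, Finset.mem_filter]
    obtain ⟨hp1, hp2, hp3⟩ := hp
    by_cases h2 : p = 2
    · exact Or.inl h2
    · right
      have h4 := hp2.two_le
      exact ⟨hp1, hp2, by omega, fin2_red p hp2 (by omega) hp3⟩
  have hcard : ((Finset.Icc 1 x).filter (fun p => p.Prime ∧ R p ≠ {p, 2 * p})).card ≤
      ((Finset.Icc 1 x).filter (fun p => p.Prime ∧ 3 ≤ p ∧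
        ∃ n : ℕ, Nat.totient n = p - 1 ∧ n ≠ p ∧ n ≠ 2 * p)).card + 1 :=
    (Finset.card_le_card hsub).trans (Finset.card_insert_le _ _)
  have hcard' : (((Finset.Icc 1 x).filter (fun p => p.Prime ∧ R p ≠ {p, 2 * p})).card : ℝ) ≤
      (((Finset.Icc 1 x).filter (fun p => p.Prime ∧ 3 ≤ p ∧
        ∃ n : ℕ, Nat.totient n = p - 1 ∧ n ≠ p ∧ n ≠ 2 * p)).card : ℝ) + 1 := by
    exact_mod_cast hcard
  have h3 : (0 : ℝ) ≤ (x : ℝ) ^ (1 / 2 : ℝ) := by positivity
  have h5 : (x : ℝ) / Real.log x ^ (2 : ℝ) ≤ x / Real.log x ^ (2 - ε) := by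
    have h6 : 0 < Real.log x ^ (2 - ε) := Real.rpow_pos_of_pos (by linarith) _
    have h7 : Real.log x ^ (2 - ε) ≤ Real.log x ^ (2 : ℝ) :=
      Real.rpow_le_rpow_of_exponent_le hlogx1 (by linarith)
    exact div_le_div_of_nonneg_left (by linarith) h6 h7
  have e : (C + 1) * (x / Real.log x ^ (2 - ε)) =
      C * (x / Real.log x ^ (2 - ε)) + x / Real.log x ^ (2 - ε) := by ring
  rw [e]
  linarith

open Classical in
theorem final_count2 (ε : ℝ) (hε : 0 < ε) : ∃ C : ℝ, ∀ x : ℕ, 2 ≤ x →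
    (((Finset.Icc 1 x).filter (fun p => p.Prime ∧ R p ≠ {p, 2 * p})).card : ℝ)
      ≤ C * x / Real.log x ^ (2 - ε) := by
  obtain ⟨C, hC, h⟩ := fin2_ev ε hε
  obtain ⟨x₀, hx₀⟩ := eventually_atTop.1 h
  have hnn : ∀ k : ℕ, (0 : ℝ) ≤ Real.log k ^ (2 - ε) := fun k =>
    Real.rpow_nonneg (Real.log_natCast_nonneg k) _
  have hS : (0 : ℝ) ≤ ∑ k ∈ Finset.range x₀, Real.log k ^ (2 - ε) :=
    Finset.sum_nonneg fun k _ => hnn k
  refine ⟨C + ∑ k ∈ Finset.range x₀, Real.log k ^ (2 - ε), ?_⟩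
  intro x hx
  have hx' : (2 : ℝ) ≤ x := by exact_mod_cast hx
  have hL : 0 < Real.log x := Real.log_pos (by linarith)
  have hLp : 0 < Real.log x ^ (2 - ε) := Real.rpow_pos_of_pos hL _
  by_cases hc : x₀ ≤ x
  · refine (hx₀ x hc).trans ?_
    rw [← mul_div_assoc]
    gcongr
    linarith
  · push Not at hc
    have h1 : (((Finset.Icc 1 x).filter (fun p => p.Prime ∧ R p ≠ {p, 2 * p})).card : ℝ) ≤ x := by
      have h2 : ((Finset.Icc 1 x).filter (fun p => p.Prime ∧ R p ≠ {p, 2 * p})).card ≤ x := by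
        refine (Finset.card_filter_le _ _).trans ?_
        rw [Nat.card_Icc]
        omega
      exact_mod_cast h2
    refine h1.trans ?_
    rw [le_div_iff₀ hLp, mul_comm]
    have h4 : Real.log x ^ (2 - ε) ≤ ∑ k ∈ Finset.range x₀, Real.log k ^ (2 - ε) :=
      Finset.single_le_sum (f := fun k : ℕ => Real.log k ^ (2 - ε)) (fun k _ => hnn k)
        (Finset.mem_range.2 hc)
    exact mul_le_mul_of_nonneg_right (by linarith) (by linarith)

end Pool.Agent.Lib.H30F
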