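import Pool.Agent.Lib.Sieve.PrimeSum

/-!
# Chunk INVF

Sum of the reciprocals of the integers with at most `T` prime factors (with multiplicity), all `≤ X`.

PROOF. Induction on `T`, `P = ∑_{r ≤ X} 1/r`. `T = 0`: `F ⊆ {1}`. `T + 1`: the element `1` contributes at most `1`; every
`m ≥ 2` of `F` is `r m'`, `r = m.minFac ≤ X`, `m' = m / r`, `Ω(m') = Ω(m) - 1 ≤ T`, prime factors `≤ X`, and
`m ↦ (r, m')` is injective, so the sum is at most `1 + ∑_r (1/r) ∑_{m' ∈ F_r} 1/m' ≤ 1 + P (1 + P)^T ≤ (1 + P)^(T+1)`.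
-/

namespace Pool.Agent.Lib.H30F

open Pool.Agent.Lib.Sieve

theorem sum_inv_few (T X : ℕ) (F : Finset ℕ)
    (hF : ∀ m ∈ F, 1 ≤ m ∧ ArithmeticFunction.cardFactors m ≤ T ∧ ∀ r ∈ m.primeFactors, r ≤ X) :
    ∑ m ∈ F, (1 : ℝ) / m ≤ (1 + ∑ r ∈ primesUpTo X, (1 : ℝ) / r) ^ T := by
  have hP : (0 : ℝ) ≤ ∑ r ∈ primesUpTo X, (1 : ℝ) / r :=
    Finset.sum_nonneg fun r _ => by positivity
  induction T generalizing F with
  | zero =>
    have hsub : F ⊆ {1} := by
      intro m hm
      obtain ⟨h1, h2, _⟩ := hF m hm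
      have h3 : ArithmeticFunction.cardFactors m = 0 := by omega
      rw [ArithmeticFunction.cardFactors_eq_zero_iff_eq_zero_or_one] at h3
      rw [Finset.mem_singleton]
      omega
    calc ∑ m ∈ F, (1 : ℝ) / m ≤ ∑ m ∈ ({1} : Finset ℕ), (1 : ℝ) / m :=
          Finset.sum_le_sum_of_subset_of_nonneg hsub fun m _ _ => by positivity
      _ = 1 := by simp
      _ ≤ _ := by simp
  | succ T ih =>
    classical
    set P := ∑ r ∈ primesUpTo X, (1 : ℝ) / r with hPdef
    have hsplit : ∑ m ∈ F, (1 : ℝ) / m = ∑ m ∈ F.filter (fun m => m = 1), (1 : ℝ) / m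
        + ∑ m ∈ F.filter (fun m => ¬ m = 1), (1 : ℝ) / m :=
      (Finset.sum_filter_add_sum_filter_not _ _ _).symm
    have h1 : ∑ m ∈ F.filter (fun m => m = 1), (1 : ℝ) / m ≤ 1 := by
      have hsub : F.filter (fun m => m = 1) ⊆ {1} := by
        intro m hm
        rw [Finset.mem_filter] at hm
        rw [Finset.mem_singleton]
        exact hm.2
      calc ∑ m ∈ F.filter (fun m => m = 1), (1 : ℝ) / m
          ≤ ∑ m ∈ ({1} : Finset ℕ), (1 : ℝ) / m :=
            Finset.sum_le_sum_of_subset_of_nonneg hsub fun m _ _ => by positivity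
        _ = 1 := by simp
        _ ≤ 1 := le_refl _
    have hmaps : ∀ m ∈ F.filter (fun m => ¬ m = 1), m.minFac ∈ primesUpTo X := by
      intro m hm
      rw [Finset.mem_filter] at hm
      obtain ⟨h2, _, h3⟩ := hF m hm.1
      have hp : m.minFac.Prime := Nat.minFac_prime hm.2
      exact mem_primesUpTo.mpr ⟨hp, h3 _ (Nat.mem_primeFactors.mpr
        ⟨hp, Nat.minFac_dvd m, by omega⟩)⟩
    have h2 : ∑ m ∈ F.filter (fun m => ¬ m = 1), (1 : ℝ) / m
        ≤ ∑ r ∈ primesUpTo X, (1 : ℝ) / r * (1 + P) ^ T := by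
      rw [← Finset.sum_fiberwise_of_maps_to hmaps]
      apply Finset.sum_le_sum
      intro r hr
      obtain ⟨hrp, hrX⟩ := mem_primesUpTo.mp hr
      set G := (F.filter (fun m => ¬ m = 1)).filter (fun m => m.minFac = r) with hG
      have hmem : ∀ m ∈ G, m ∈ F ∧ ¬ m = 1 ∧ m.minFac = r := by
        intro m hm
        rw [hG, Finset.mem_filter, Finset.mem_filter] at hm
        exact ⟨hm.1.1, hm.1.2, hm.2⟩
      have hdvd : ∀ m ∈ G, r ∣ m := by
        intro m hm
        obtain ⟨_, _, h⟩ := hmem m hm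
        rw [← h]
        exact Nat.minFac_dvd m
      have hinj : Set.InjOn (fun m => m / r) (G : Set ℕ) := by
        intro a ha b hb hab
        have ha' := hdvd a ha
        have hb' := hdvd b hb
        have : a / r = b / r := hab
        rw [← Nat.div_mul_cancel ha', ← Nat.div_mul_cancel hb', this]
      have h3 : ∑ m ∈ G, (1 : ℝ) / m = (1 : ℝ) / r * ∑ m ∈ G.image (fun m => m / r), (1 : ℝ) / m := by
        rw [Finset.sum_image hinj, Finset.mul_sum]
        apply Finset.sum_congr rfl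
        intro m hm
        have hd := hdvd m hm
        have hr0 : (r : ℝ) ≠ 0 := by exact_mod_cast hrp.ne_zero
        rw [Nat.cast_div hd hr0]
        have hm0 : (m : ℝ) ≠ 0 := by
          have := (hF m (hmem m hm).1).1
          exact_mod_cast (by omega : m ≠ 0)
        field_simp
      rw [h3]
      apply mul_le_mul_of_nonneg_left _ (by positivity)
      apply ih
      intro m' hm'
      rw [Finset.mem_image] at hm'
      obtain ⟨m, hm, rfl⟩ := hm'
      obtain ⟨hmF, _, _⟩ := hmem m hm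
      obtain ⟨h4, h5, h6⟩ := hF m hmF
      have hd := hdvd m hm
      have hq1 : 1 ≤ m / r := Nat.div_pos (Nat.le_of_dvd (by omega) hd) hrp.pos
      have hmul : m = r * (m / r) := (Nat.mul_div_cancel' hd).symm
      refine ⟨hq1, ?_, ?_⟩
      · have h7 : ArithmeticFunction.cardFactors m
            = ArithmeticFunction.cardFactors r + ArithmeticFunction.cardFactors (m / r) := by
          conv_lhs => rw [hmul]
          exact ArithmeticFunction.cardFactors_mul hrp.ne_zero (by omega)
        rw [ArithmeticFunction.cardFactors_apply_prime hrp] at h7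
        omega
      · intro s hs
        rw [Nat.mem_primeFactors] at hs
        exact h6 s (Nat.mem_primeFactors.mpr ⟨hs.1, hs.2.1.trans (Nat.div_dvd_of_dvd hd), by omega⟩)
    rw [← Finset.sum_mul] at h2
    have h8 : (1 : ℝ) ≤ (1 + P) ^ T := one_le_pow₀ (by linarith)
    calc ∑ m ∈ F, (1 : ℝ) / m ≤ 1 + P * (1 + P) ^ T := by
          rw [hsplit]
          linarith
      _ ≤ (1 + P) ^ T + P * (1 + P) ^ T := by linarith
      _ = (1 + P) ^ (T + 1) := by ring

end Pool.Agent.Lib.H30F
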