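import Pool.Agent.Lib.H30F.Final
import Pool.Agent.Lib.H30F.Final2

/-! The strong form of the theorem. -/

namespace Pool.Agent.Lib.H30F

open Filter

open Classical in
theorem main2 :
    (∀ ε : ℝ, 0 < ε → ∃ C : ℝ, ∀ x : ℕ, 2 ≤ x →
      (((Finset.Icc 1 x).filter (fun p => p.Prime ∧ R p ≠ {p, 2 * p})).card : ℝ)
        ≤ C * x / Real.log x ^ (2 - ε)) ∧
    Tendsto (fun x : ℕ =>
      (((Finset.Icc 1 x).filter (fun p => p.Prime ∧ R p ≠ {p, 2 * p})).card : ℝ) /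
        (Nat.primeCounting x : ℝ)) atTop (nhds 0) ∧
    (∀ x : ℕ,
      (((Finset.Icc 1 x).filter (fun p => p.Prime ∧ p % 4 = 3 ∧ R p ≠ {p, 2 * p})).card : ℝ)
        ≤ 4 * Real.sqrt x) :=
  ⟨final_count2, final_density, final_mod4⟩

end Pool.Agent.Lib.H30F
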