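import Pool.Agent.Lib.Sieve.PrimeSum

/-!
# Chunk PREC

`∑_{p ≤ n} 1/p ≤ 9 log log n + C` for `n ≥ 3`.

PROOF. `C = 20`, strong induction on `n`. For `3 ≤ n < 16`: at most 16 terms, each `≤ 1/2`, and `log log n ≥ 0`
(`log 3 ≥ 1`, `Real.exp_one_lt_three`). For `n ≥ 16`: `s = Nat.sqrt n ≥ 4`, `s < n`. Every prime `p ≤ n` has
`n < p ^ 2` or `p ≤ s`. So the sum is at most `6` (`Sieve.sum_inv_le`) plus the sum for `s`. By induction it is
`≤ 9 log log s + 20 + 6`, and `s ^ 2 ≤ n` gives `log s ≤ log n / 2`, `log log s ≤ log log n - log 2`, and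
`9 log 2 ≥ 6` (`Real.log_two_gt_d9`).
-/

namespace Pool.Agent.Lib.H30F

open Pool.Agent.Lib.Sieve

theorem sum_inv_primes : ∃ C : ℝ, 0 ≤ C ∧ ∀ n : ℕ, 3 ≤ n →
    ∑ p ∈ primesUpTo n, (1 : ℝ) / p ≤ 9 * Real.log (Real.log n) + C := by
  refine ⟨20, by norm_num, ?_⟩
  intro n
  induction n using Nat.strong_induction_on with
  | _ n ih =>
    intro h3
    have h3' : (3 : ℝ) ≤ n := by exact_mod_cast h3
    have hlog3 : 1 ≤ Real.log n := by
      have h1 : Real.exp 1 < 3 := Real.exp_one_lt_three
      rw [Real.le_log_iff_exp_le (by linarith)]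
      linarith
    have hll : 0 ≤ Real.log (Real.log n) := Real.log_nonneg hlog3
    by_cases hn : n < 16
    · have h1 : ∑ p ∈ primesUpTo n, (1 : ℝ) / p ≤ ∑ _p ∈ primesUpTo n, (1 : ℝ) := by
        apply Finset.sum_le_sum
        intro p hp
        have hp' := (mem_primesUpTo.mp hp).1
        have : (1 : ℝ) ≤ p := by exact_mod_cast hp'.one_lt.le
        rw [div_le_one (by linarith)]
        exact this
      rw [Finset.sum_const, nsmul_eq_mul, mul_one] at h1
      have h2 : (primesUpTo n).card ≤ n + 1 := by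
        unfold primesUpTo
        calc ((Finset.range (n + 1)).filter Nat.Prime).card ≤ (Finset.range (n + 1)).card :=
              Finset.card_filter_le _ _
          _ = n + 1 := Finset.card_range _
      have h2' : ((primesUpTo n).card : ℝ) ≤ 16 := by
        have : (primesUpTo n).card ≤ 16 := by omega
        exact_mod_cast this
      linarith
    · push Not at hn
      have hs4 : 4 ≤ Nat.sqrt n := Nat.le_sqrt.mpr (by omega)
      have hsn : Nat.sqrt n < n := Nat.sqrt_lt_self (by omega)
      have hss : Nat.sqrt n * Nat.sqrt n ≤ n := Nat.sqrt_le n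
      have ihs := ih (Nat.sqrt n) hsn (by omega)
      have hsub : primesUpTo n ⊆ (primesUpTo n).filter (fun p => n < p ^ 2) ∪
          primesUpTo (Nat.sqrt n) := by
        intro p hp
        rw [Finset.mem_union]
        by_cases hpn : n < p ^ 2
        · left
          exact Finset.mem_filter.mpr ⟨hp, hpn⟩
        · right
          push Not at hpn
          exact mem_primesUpTo.mpr ⟨(mem_primesUpTo.mp hp).1, Nat.le_sqrt'.mpr hpn⟩
      have hnn : ∀ p : ℕ, 0 ≤ (1 : ℝ) / p := fun p => by positivity
      have h1 : ∑ p ∈ primesUpTo n, (1 : ℝ) / p ≤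
          ∑ p ∈ (primesUpTo n).filter (fun p => n < p ^ 2), (1 : ℝ) / p +
          ∑ p ∈ primesUpTo (Nat.sqrt n), (1 : ℝ) / p := by
        refine (Finset.sum_le_sum_of_subset_of_nonneg hsub fun p _ _ => hnn p).trans ?_
        have := Finset.sum_union_inter (s₁ := (primesUpTo n).filter (fun p => n < p ^ 2))
          (s₂ := primesUpTo (Nat.sqrt n)) (f := fun p : ℕ => (1 : ℝ) / p)
        have h0 : 0 ≤ ∑ p ∈ (primesUpTo n).filter (fun p => n < p ^ 2) ∩
            primesUpTo (Nat.sqrt n), (1 : ℝ) / p := Finset.sum_nonneg fun p _ => hnn p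
        linarith
      have h2 := sum_inv_le n
      have hs' : (4 : ℝ) ≤ (Nat.sqrt n : ℝ) := by exact_mod_cast hs4
      have hlogs : 1 ≤ Real.log (Nat.sqrt n : ℝ) := by
        have h1 : Real.exp 1 < 3 := Real.exp_one_lt_three
        rw [Real.le_log_iff_exp_le (by linarith)]
        linarith
      have hlogs2 : Real.log (Nat.sqrt n : ℝ) ≤ Real.log n / 2 := by
        have h5 : (Nat.sqrt n : ℝ) * (Nat.sqrt n : ℝ) ≤ n := by exact_mod_cast hss
        have h6 := Real.log_le_log (by positivity) h5
        rw [Real.log_mul (by positivity) (by positivity)] at h6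
        linarith
      have hll2 : Real.log (Real.log (Nat.sqrt n : ℝ)) ≤ Real.log (Real.log n) - Real.log 2 := by
        have h7 := Real.log_le_log (by linarith) hlogs2
        rw [Real.log_div (by linarith) (by norm_num)] at h7
        exact h7
      have hl2 := Real.log_two_gt_d9
      linarith

end Pool.Agent.Lib.H30F
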