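import Pool.Agent.Lib.H30F.Count6
import Pool.Agent.Lib.H30F.InvFew
import Pool.Agent.Lib.H30F.TotBound

/-!
# Chunk PFEW

Primes `q ∈ (y, 2y]` such that `q - 1` has at most `T` prime factors (with multiplicity): `≪_T y (log log y)^E / (log y)^2`.

PROOF. Let `r` be the largest prime factor of `q - 1`, `q - 1 = m r`. `y ≤ q - 1 ≤ r^(Ω(q-1)) ≤ r^T` (if `T = 0` there is no
such `q`), so `r ≥ y^(1/T)`; `Ω(m) ≤ T - 1`, the prime factors of `m` are `≤ 2y`, `m ≤ 2y ≤ y^2`. Let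
`z = ⌊y^(1/(422 T))⌋₊`; assume `y` so large that `z ≥ 2` and `log z ≥ log y/(844 T)` (finitely many smaller `y`: enlarge `C`,
`log log y ≥ 1` for `y ≥ 16`). For fixed `m` put `M = 2y/m` (natural division): `r ≤ M`, `z^422 ≤ y^(1/T) ≤ r ≤ M`, `z < r`.
`count_six`: at most `C (2y/m)/(log z)^2 (m/φ(m))^2` values of `r`, and `m/φ(m) ≤ C₃ (log log y)^18` (`totient_bound` with
`x = y`). Sum over `m` (finite set = image of the set of `q`): `sum_inv_few T (2y)` and `sum_inv_primes`,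
`1 + 9 log log(2y) + C₀ ≤ C' log log y` (`2y ≤ y^2`). `E = 36 + T`.
-/

namespace Pool.Agent.Lib.H30F

open Pool.Agent.Lib.Sieve

/-- a large prime factor -/
theorem pfew_large {n : ℕ} (hn : 2 ≤ n) :
    ∃ r : ℕ, r.Prime ∧ r ∣ n ∧ n ≤ r ^ ArithmeticFunction.cardFactors n := by
  have hne : n.primeFactorsList ≠ [] := by
    intro h
    rw [Nat.primeFactorsList_eq_nil] at h
    omega
  obtain ⟨r, hr, hmax⟩ : ∃ r ∈ n.primeFactorsList, ∀ s ∈ n.primeFactorsList, s ≤ r := by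
    obtain ⟨r, hr, hm⟩ := Finset.exists_max_image n.primeFactorsList.toFinset id
      (List.toFinset_nonempty_iff _ |>.mpr hne)
    exact ⟨r, List.mem_toFinset.mp hr, fun s hs => hm s (List.mem_toFinset.mpr hs)⟩
  refine ⟨r, Nat.prime_of_mem_primeFactorsList hr, Nat.dvd_of_mem_primeFactorsList hr, ?_⟩
  rw [ArithmeticFunction.cardFactors_apply]
  conv_lhs => rw [← Nat.prod_primeFactorsList (by omega : n ≠ 0)]
  exact List.prod_le_pow_card _ _ hmax

/-- `1 ≤ log log y` for `y ≥ 16` -/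
theorem pfew_loglog {y : ℕ} (hy : 16 ≤ y) : 1 ≤ Real.log (Real.log y) ∧ 2 ≤ Real.log y := by
  have hy16 : (16 : ℝ) ≤ y := by exact_mod_cast hy
  have h1 : Real.log 16 ≤ Real.log y := Real.log_le_log (by norm_num) hy16
  have h2 : Real.log 16 = 4 * Real.log 2 := by
    rw [show (16 : ℝ) = 2 ^ 4 by norm_num, Real.log_pow]
    norm_num
  have h3 := Real.log_two_gt_d9
  have h4 : (2.77 : ℝ) ≤ Real.log y := by linarith
  refine ⟨?_, by linarith⟩
  rw [Real.le_log_iff_exp_le (by linarith)]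
  have := Real.exp_one_lt_d9
  linarith

/-- the choice of `z` -/
theorem pfew_z {T y : ℕ} (hT : 1 ≤ T) (hy : 4 ^ (422 * T) ≤ y) :
    ∃ z : ℕ, 2 ≤ z ∧ (z ^ 422) ^ T ≤ y ∧ Real.log y / (844 * T) ≤ Real.log z := by
  have hy0 : (0 : ℝ) < y := by
    have : 0 < y := lt_of_lt_of_le (by positivity) hy
    exact_mod_cast this
  have hT0 : (0 : ℝ) < T := by exact_mod_cast hT
  set t : ℝ := (y : ℝ) ^ ((1 : ℝ) / (422 * T : ℕ)) with ht
  have h422 : (422 * T : ℕ) ≠ 0 := by omega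
  have ht1 : t ^ (422 * T) = y := by
    rw [ht, one_div]
    exact Real.rpow_inv_natCast_pow hy0.le h422
  have ht0 : 0 < t := Real.rpow_pos_of_pos hy0 _
  have ht4 : 4 ≤ t := by
    by_contra hcon
    push Not at hcon
    have h1 : t ^ (422 * T) < 4 ^ (422 * T) := pow_lt_pow_left₀ hcon ht0.le h422
    rw [ht1] at h1
    have h2 : ((4 ^ (422 * T) : ℕ) : ℝ) ≤ y := by exact_mod_cast hy
    push_cast at h2
    linarith
  set z := ⌊t⌋₊ with hz
  have hz1 : (z : ℝ) ≤ t := Nat.floor_le ht0.le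
  have hz2 : t < z + 1 := Nat.lt_floor_add_one t
  have hz3 : (2 : ℝ) ≤ z := by linarith
  refine ⟨z, by exact_mod_cast hz3, ?_, ?_⟩
  · rw [← pow_mul]
    have h1 : ((z : ℝ)) ^ (422 * T) ≤ y := by
      rw [← ht1]
      exact pow_le_pow_left₀ (by linarith) hz1 _
    exact_mod_cast h1
  · have h1 : Real.log y = (422 * T : ℕ) * Real.log t := by
      rw [← ht1, Real.log_pow]
    have h2 : t ≤ (z : ℝ) ^ 2 := by nlinarith
    have h3 : Real.log t ≤ 2 * Real.log z := by
      have h4 := Real.log_le_log ht0 h2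
      rw [Real.log_pow] at h4
      exact_mod_cast h4
    rw [div_le_iff₀ (by positivity), h1]
    push_cast
    nlinarith

/-- one fibre -/
theorem pfew_fibre {C₂ C₃ : ℝ} (hC₂ : 0 < C₂)
    (h2 : ∀ m z M : ℕ, 1 ≤ m → 2 ≤ z → z ^ 422 ≤ M →
      (((Finset.Icc 1 M).filter (fun r => r.Prime ∧ z < r ∧ (m * r + 1).Prime)).card : ℝ)
        ≤ C₂ * M / Real.log z ^ 2 * ((m : ℝ) / Nat.totient m) ^ 2)
    (h3 : ∀ x : ℕ, 16 ≤ x → ∀ N : ℕ, 1 ≤ N → N ≤ x ^ 2 →
      (N : ℝ) / Nat.totient N ≤ C₃ * Real.log (Real.log x) ^ 18)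
    {y z m : ℕ} (hy : 16 ≤ y) (hz : 2 ≤ z) (hm : 1 ≤ m) (B : Finset ℕ)
    (hB : ∀ q ∈ B, q ≤ 2 * y ∧ q.Prime ∧ ∃ r : ℕ, r.Prime ∧ z ^ 422 ≤ r ∧ q = m * r + 1) :
    (B.card : ℝ) ≤ C₂ * C₃ ^ 2 * (2 * y) * Real.log (Real.log y) ^ 36 / Real.log z ^ 2 * (1 / m) := by
  have hL := (pfew_loglog hy).1
  have hlz : 0 < Real.log z := Real.log_pos (by exact_mod_cast (by omega : 1 < z))
  have hm0 : (0 : ℝ) < m := by exact_mod_cast (by omega : 0 < m)
  rcases B.eq_empty_or_nonempty with rfl | hne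
  · rw [Finset.card_empty, Nat.cast_zero]
    positivity
  · have hzz : z < z ^ 422 := by
      calc z = z ^ 1 := (pow_one z).symm
        _ < z ^ 422 := Nat.pow_lt_pow_right (by omega) (by norm_num)
    have hsub : B ⊆ ((Finset.Icc 1 (2 * y / m)).filter
        (fun r => r.Prime ∧ z < r ∧ (m * r + 1).Prime)).image (fun r => m * r + 1) := by
      intro q hq
      obtain ⟨h5, h6, r, h7, h8, h9⟩ := hB q hq
      refine Finset.mem_image.2 ⟨r, Finset.mem_filter.2 ⟨Finset.mem_Icc.2 ⟨h7.one_lt.le, ?_⟩, h7, ?_, ?_⟩,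
        h9.symm⟩
      · rw [Nat.le_div_iff_mul_le (by omega), mul_comm]
        omega
      · omega
      · rwa [← h9]
    have hM : z ^ 422 ≤ 2 * y / m ∧ m ≤ 2 * y := by
      obtain ⟨q, hq⟩ := hne
      obtain ⟨h5, h6, r, h7, h8, h9⟩ := hB q hq
      constructor
      · rw [Nat.le_div_iff_mul_le (by omega)]
        have : z ^ 422 * m ≤ r * m := Nat.mul_le_mul_right _ h8
        rw [mul_comm r m] at this
        omega
      · have : m * 1 ≤ m * r := Nat.mul_le_mul_left _ h7.one_lt.le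
        omega
    have hcard : (B.card : ℝ) ≤ (((Finset.Icc 1 (2 * y / m)).filter
        (fun r => r.Prime ∧ z < r ∧ (m * r + 1).Prime)).card : ℝ) := by
      exact_mod_cast (Finset.card_le_card hsub).trans Finset.card_image_le
    have hN2 : m ≤ y ^ 2 := by
      rw [sq]
      calc m ≤ 2 * y := hM.2
        _ ≤ y * y := Nat.mul_le_mul_right _ (by omega)
    have h10 := h2 m z (2 * y / m) hm hz hM.1
    have h11 := h3 y hy m hm hN2
    have h12 : ((2 * y / m : ℕ) : ℝ) ≤ (2 * y) * (1 / m) := by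
      have := Nat.cast_div_le (α := ℝ) (m := 2 * y) (n := m)
      rw [mul_one_div]
      exact_mod_cast this
    calc (B.card : ℝ) ≤ _ := hcard
      _ ≤ _ := h10
      _ ≤ C₂ * ((2 * y) * (1 / m)) / Real.log z ^ 2 * (C₃ * Real.log (Real.log y) ^ 18) ^ 2 := by
          gcongr
      _ = C₂ * C₃ ^ 2 * (2 * y) * Real.log (Real.log y) ^ 36 / Real.log z ^ 2 * (1 / m) := by ring

theorem primes_few (T : ℕ) : ∃ C : ℝ, 0 < C ∧ ∃ E : ℕ, ∀ y : ℕ, 16 ≤ y →
    (((Finset.Ioc y (2 * y)).filter (fun q => q.Prime ∧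
      ArithmeticFunction.cardFactors (q - 1) ≤ T)).card : ℝ)
      ≤ C * y * Real.log (Real.log y) ^ E / Real.log y ^ 2 := by
  classical
  rcases Nat.eq_zero_or_pos T with rfl | hT
  · refine ⟨1, one_pos, 0, fun y hy => ?_⟩
    have hempty : (Finset.Ioc y (2 * y)).filter (fun q => q.Prime ∧
      ArithmeticFunction.cardFactors (q - 1) ≤ 0) = ∅ := by
      rw [Finset.filter_eq_empty_iff]
      rintro q hq ⟨_, h⟩
      rw [Finset.mem_Ioc] at hq
      rw [Nat.le_zero, ArithmeticFunction.cardFactors_eq_zero_iff_eq_zero_or_one] at h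
      omega
    rw [hempty, Finset.card_empty, Nat.cast_zero]
    positivity
  obtain ⟨C₂, hC₂, h2⟩ := count_six
  obtain ⟨C₃, hC₃, h3⟩ := totient_bound
  obtain ⟨C₄, hC₄, h4⟩ := sum_inv_primes
  have hT0 : (0 : ℝ) < T := by exact_mod_cast hT
  set D : ℝ := C₂ * C₃ ^ 2 * 2 * (844 * T) ^ 2 * (19 + C₄) ^ T with hD
  have hDpos : 0 < D := by positivity
  refine ⟨D + Real.log ((4 : ℝ) ^ (422 * T)) ^ 2, by positivity, 36 + T, fun y hy => ?_⟩
  obtain ⟨hL, hl⟩ := pfew_loglog hy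
  set L := Real.log (Real.log y) with hLdef
  have hy0 : (0 : ℝ) < y := by exact_mod_cast (by omega : 0 < y)
  have hLE : 1 ≤ L ^ (36 + T) := one_le_pow₀ hL
  have hl0 : 0 < Real.log y := by linarith
  set A := (Finset.Ioc y (2 * y)).filter (fun q => q.Prime ∧
      ArithmeticFunction.cardFactors (q - 1) ≤ T) with hA
  rcases Nat.lt_or_ge y (4 ^ (422 * T)) with hlt | hge
  · -- small `y`
    have h5 : (A.card : ℝ) ≤ y := by
      have h6 : A.card ≤ (Finset.Ioc y (2 * y)).card := Finset.card_filter_le _ _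
      rw [Nat.card_Ioc] at h6
      exact_mod_cast (by omega : A.card ≤ y)
    have h7 : Real.log y ≤ Real.log ((4 : ℝ) ^ (422 * T)) := by
      apply Real.log_le_log hy0
      exact_mod_cast hlt.le
    have h8 : Real.log y ^ 2 ≤ Real.log ((4 : ℝ) ^ (422 * T)) ^ 2 := pow_le_pow_left₀ hl0.le h7 2
    rw [le_div_iff₀ (by positivity)]
    calc (A.card : ℝ) * Real.log y ^ 2 ≤ y * Real.log ((4 : ℝ) ^ (422 * T)) ^ 2 := by gcongr
      _ ≤ (D + Real.log ((4 : ℝ) ^ (422 * T)) ^ 2) * y * 1 := by nlinarith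
      _ ≤ (D + Real.log ((4 : ℝ) ^ (422 * T)) ^ 2) * y * L ^ (36 + T) := by gcongr
  · obtain ⟨z, hz, hzy, hlz⟩ := pfew_z hT hge
    have hmem : ∀ q ∈ A, y < q ∧ q ≤ 2 * y ∧ q.Prime ∧
        ArithmeticFunction.cardFactors (q - 1) ≤ T ∧
        ∃ r : ℕ, r.Prime ∧ r ∣ q - 1 ∧ q - 1 ≤ r ^ ArithmeticFunction.cardFactors (q - 1) := by
      intro q hq
      rw [hA, Finset.mem_filter, Finset.mem_Ioc] at hq
      exact ⟨hq.1.1, hq.1.2, hq.2.1, hq.2.2, pfew_large (by omega)⟩
    choose! h5 h6 h7 h8 ρ h9 h10 h11 using hmem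
    have hr : ∀ q ∈ A, z ^ 422 ≤ ρ q := by
      intro q hq
      have h12 : (z ^ 422) ^ T ≤ (ρ q) ^ T := by
        calc (z ^ 422) ^ T ≤ y := hzy
          _ ≤ q - 1 := by have := h5 q hq; omega
          _ ≤ ρ q ^ ArithmeticFunction.cardFactors (q - 1) := h11 q hq
          _ ≤ ρ q ^ T := Nat.pow_le_pow_right (h9 q hq).pos (h8 q hq)
      exact (Nat.pow_le_pow_iff_left (by omega)).mp h12
    set μ : ℕ → ℕ := fun q => (q - 1) / ρ q with hμ
    have hmul : ∀ q ∈ A, μ q * ρ q = q - 1 := fun q hq => Nat.div_mul_cancel (h10 q hq)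
    have hμ1 : ∀ q ∈ A, 1 ≤ μ q := by
      intro q hq
      have h12 := hmul q hq
      have h13 := h5 q hq
      by_contra hcon
      have : μ q = 0 := by omega
      rw [this, zero_mul] at h12
      omega
    have h12 : A.card = ∑ m ∈ A.image μ, (A.filter (fun q => μ q = m)).card :=
      Finset.card_eq_sum_card_image μ A
    have h13 : ∀ m ∈ A.image μ, ((A.filter (fun q => μ q = m)).card : ℝ) ≤
        C₂ * C₃ ^ 2 * (2 * y) * L ^ 36 / Real.log z ^ 2 * (1 / m) := by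
      intro m hm
      obtain ⟨q₀, hq₀, rfl⟩ := Finset.mem_image.1 hm
      refine pfew_fibre hC₂ h2 h3 hy hz (hμ1 q₀ hq₀) _ fun q hq => ?_
      rw [Finset.mem_filter] at hq
      refine ⟨h6 q hq.1, h7 q hq.1, ρ q, h9 q hq.1, hr q hq.1, ?_⟩
      have h14 := hmul q hq.1
      rw [hq.2] at h14
      have h15 := h5 q hq.1
      omega
    have h14 : ∑ m ∈ A.image μ, (1 : ℝ) / m ≤ (1 + ∑ r ∈ primesUpTo (2 * y), (1 : ℝ) / r) ^ T := by
      refine sum_inv_few T (2 * y) _ fun m hm => ?_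
      obtain ⟨q, hq, rfl⟩ := Finset.mem_image.1 hm
      have h15 := hmul q hq
      have h16 := hμ1 q hq
      have h17 := h5 q hq
      have h18 := h6 q hq
      have hdvd : μ q ∣ q - 1 := ⟨ρ q, h15.symm⟩
      refine ⟨h16, ?_, fun s hs => ?_⟩
      · have h19 : ArithmeticFunction.cardFactors (q - 1)
            = ArithmeticFunction.cardFactors (μ q) + ArithmeticFunction.cardFactors (ρ q) := by
          rw [← h15]
          exact ArithmeticFunction.cardFactors_mul (by omega) (h9 q hq).ne_zero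
        have h20 := h8 q hq
        omega
      · have h19 := Nat.dvd_of_mem_primeFactors hs
        have h20 := Nat.le_of_dvd (by omega) (h19.trans hdvd)
        omega
    have h15 : 1 + ∑ r ∈ primesUpTo (2 * y), (1 : ℝ) / r ≤ (19 + C₄) * L := by
      have h16 := h4 (2 * y) (by omega)
      have h17 : Real.log ((2 * y : ℕ) : ℝ) ≤ 2 * Real.log y := by
        have h18 : ((2 * y : ℕ) : ℝ) ≤ (y : ℝ) ^ 2 := by
          have : 2 * y ≤ y ^ 2 := by
            rw [sq]
            exact Nat.mul_le_mul_right _ (by omega)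
          exact_mod_cast this
        have h19 := Real.log_le_log (by positivity) h18
        rw [Real.log_pow] at h19
        exact_mod_cast h19
      have h18 : 0 < Real.log ((2 * y : ℕ) : ℝ) := Real.log_pos (by
        have : 1 < 2 * y := by omega
        exact_mod_cast this)
      have h19 : Real.log (Real.log ((2 * y : ℕ) : ℝ)) ≤ 2 * L := by
        calc Real.log (Real.log ((2 * y : ℕ) : ℝ)) ≤ Real.log (2 * Real.log y) :=
              Real.log_le_log h18 h17
          _ = Real.log 2 + L := by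
              rw [Real.log_mul (by norm_num) (by linarith)]
          _ ≤ 2 * L := by linarith [Real.log_two_lt_d9]
      nlinarith
    have hlz0 : 0 < Real.log z := Real.log_pos (by exact_mod_cast (by omega : 1 < z))
    have hP : 0 ≤ 1 + ∑ r ∈ primesUpTo (2 * y), (1 : ℝ) / r :=
      add_nonneg zero_le_one (Finset.sum_nonneg fun r _ => by positivity)
    have hinv : 1 / Real.log z ^ 2 ≤ (844 * T) ^ 2 / Real.log y ^ 2 := by
      rw [div_le_div_iff₀ (by positivity) (by positivity), one_mul, ← mul_pow]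
      apply pow_le_pow_left₀ hl0.le
      rw [div_le_iff₀ (by positivity)] at hlz
      linarith
    calc (A.card : ℝ) = ∑ m ∈ A.image μ, ((A.filter (fun q => μ q = m)).card : ℝ) := by
          rw [h12]; push_cast; rfl
      _ ≤ ∑ m ∈ A.image μ, C₂ * C₃ ^ 2 * (2 * y) * L ^ 36 / Real.log z ^ 2 * (1 / m) :=
          Finset.sum_le_sum h13
      _ = C₂ * C₃ ^ 2 * (2 * y) * L ^ 36 * (1 / Real.log z ^ 2) * ∑ m ∈ A.image μ, (1 : ℝ) / m := by
          rw [← Finset.mul_sum]
          ring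
      _ ≤ C₂ * C₃ ^ 2 * (2 * y) * L ^ 36 * ((844 * T) ^ 2 / Real.log y ^ 2) *
            ((19 + C₄) * L) ^ T := by
          have h16 := h14.trans (pow_le_pow_left₀ hP h15 T)
          gcongr
      _ = D * y * L ^ (36 + T) / Real.log y ^ 2 := by
          rw [hD, mul_pow (19 + C₄) L T, pow_add L 36 T]
          ring
      _ ≤ (D + Real.log ((4 : ℝ) ^ (422 * T)) ^ 2) * y * L ^ (36 + T) / Real.log y ^ 2 := by
          have h17 : 0 ≤ Real.log ((4 : ℝ) ^ (422 * T)) ^ 2 := sq_nonneg _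
          gcongr
          linarith

end Pool.Agent.Lib.H30F
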