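import Pool.Agent.Lib.H30F.Defs

/-!
# Chunk RED

If `p` and `2p` are the only solutions of `φ(n) = p - 1` (`p ≥ 3` prime) then `R(p) = {p, 2p}`.

PROOF. `⊇`: `p` reaches `p` with `i = 0`; `φ(2p) = p - 1` for an odd prime (`Nat.totient_two_mul_of_odd` or
`Nat.totient_mul` with `Nat.totient_prime`), so `i = 1` works. `⊆`: let `n > 0` reach `p` with `i` minimal (`Nat.find`).
`i = 0`: `n = p`. `i = j + 1`: put `m = step^[j] n`; `step m = p`, so `φ(m) = p - 1`, so `m = p` or `m = 2p`;
`m = p` contradicts minimality. So `m = 2p`. If `j = 0` then `n = 2p`. If `j = l + 1` then `2p = φ(m') + 1` with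
`m' = step^[l] n`, so `φ(m') = 2p - 1` is odd and `> 1`: but `φ(m')` is even for `m' > 2` (`Nat.totient_even`) and
`φ(0) = 0`, `φ(1) = φ(2) = 1`. (Use `Function.iterate_succ_apply'`.)
-/

namespace Pool.Agent.Lib.H30F

theorem red (p : ℕ) (hp : p.Prime) (h3 : 3 ≤ p)
    (h : ∀ n : ℕ, Nat.totient n = p - 1 → n = p ∨ n = 2 * p) : R p = {p, 2 * p} := by
  have h2p : Nat.totient (2 * p) = p - 1 := by
    have hodd : Odd p := hp.odd_of_ne_two (by omega)
    rw [Nat.totient_two_mul_of_odd hodd, Nat.totient_prime hp]
  ext n
  simp only [R, Set.mem_ofPred_eq, Set.mem_insert_iff, Set.mem_singleton_iff]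
  constructor
  · rintro ⟨hn, i, hi⟩
    classical
    have hex : ∃ i, step^[i] n = p := ⟨i, hi⟩
    obtain ⟨k, hk, hmin⟩ : ∃ k, step^[k] n = p ∧ ∀ m < k, step^[m] n ≠ p :=
      ⟨Nat.find hex, Nat.find_spec hex, fun m hm => Nat.find_min hex hm⟩
    rcases k with _ | j
    · left
      exact hk
    · right
      rw [Function.iterate_succ_apply'] at hk
      have hm : Nat.totient (step^[j] n) = p - 1 := by
        simp only [step] at hk
        omega
      rcases h _ hm with h1 | h1
      · exact absurd h1 (hmin j (Nat.lt_succ_self j))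
      · rcases j with _ | l
        · exact h1
        · exfalso
          rw [Function.iterate_succ_apply'] at h1
          have hm2 : Nat.totient (step^[l] n) = 2 * p - 1 := by
            have : Nat.totient (step^[l] n) + 1 = 2 * p := h1
            omega
          by_cases hl : 2 < step^[l] n
          · have he := Nat.totient_even hl
            rw [hm2] at he
            obtain ⟨r, hr⟩ := he
            omega
          · have h4 : Nat.totient (step^[l] n) ≤ step^[l] n := Nat.totient_le _
            omega
  · rintro (rfl | rfl)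
    · exact ⟨hp.pos, 0, rfl⟩
    · refine ⟨by omega, 1, ?_⟩
      rw [Function.iterate_one]
      simp only [step]
      omega

end Pool.Agent.Lib.H30F
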