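import Pool.Agent.Lib.H30F.T

/-!
# H30F, file SD: complexes of chains of a finite partial order, subdivision, closure operators
-/

set_option autoImplicit false

namespace H30F

open Finset H98P H63F

section ch

variable {α : Type*} [PartialOrder α] [Fintype α] [DecidableEq α]

/-- `c` is a chain of elements with `P`. -/
def Ch {α : Type*} [PartialOrder α] (P : α → Prop) (c : Finset α) : Prop :=
  (∀ x ∈ c, P x) ∧ ∀ x ∈ c, ∀ y ∈ c, x ≤ y ∨ y ≤ x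

theorem ch_dn {P : α → Prop} : Dn (Ch P) := fun _ _ h hc =>
  ⟨fun x hx => hc.1 x (h hx), fun x hx y hy => hc.2 x (h hx) y (h hy)⟩

theorem ch_empty (P : α → Prop) : Ch P (∅ : Finset α) :=
  ⟨fun x hx => absurd hx (notMem_empty x), fun x hx => absurd hx (notMem_empty x)⟩

theorem ch_mono {P Q : α → Prop} (h : ∀ x, P x → Q x) {c : Finset α} (hc : Ch P c) : Ch Q c :=
  ⟨fun x hx => h x (hc.1 x hx), hc.2⟩

theorem ch_insert {P : α → Prop} {a : α} {c : Finset α} (hc : Ch P c) (ha : P a)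
    (h : ∀ x ∈ c, a ≤ x ∨ x ≤ a) : Ch P (insert a c) := by
  refine ⟨fun x hx => ?_, fun x hx y hy => ?_⟩
  · rcases mem_insert.1 hx with rfl | hx
    · exact ha
    · exact hc.1 x hx
  · rcases mem_insert.1 hx with h1 | h1 <;> rcases mem_insert.1 hy with h2 | h2
    · left
      rw [h1, h2]
    · rw [h1]
      exact h y h2
    · rw [h2]
      exact (h x h1).symm
    · exact hc.2 x h1 y h2

theorem ch_min {P : α → Prop} {c : Finset α} (hc : Ch P c) (hn : c.Nonempty) :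
    ∃ m ∈ c, ∀ x ∈ c, m ≤ x := by
  obtain ⟨m, hm, h⟩ := c.exists_minimal hn
  refine ⟨m, hm, fun x hx => ?_⟩
  rcases hc.2 m hm x hx with h1 | h1
  · exact h1
  · exact h hx h1

theorem ch_max {P : α → Prop} {c : Finset α} (hc : Ch P c) (hn : c.Nonempty) :
    ∃ m ∈ c, ∀ x ∈ c, x ≤ m := by
  obtain ⟨m, hm, h⟩ := c.exists_maximal hn
  refine ⟨m, hm, fun x hx => ?_⟩
  rcases hc.2 m hm x hx with h1 | h1
  · exact h hx h1
  · exact h1

/-- A poset with an element comparable with all. -/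
theorem ac_ch_cone {P : α → Prop} {a : α} (ha : P a) (h : ∀ x, P x → a ≤ x ∨ x ≤ a) :
    AC (Ch P) :=
  H96H.ac_cone ch_dn a fun _ hs => ch_insert hs ha fun x hx => h x (hs.1 x hx)

end ch

/-- CLOSURE. -/
theorem ac_closure {α β : Type*} [PartialOrder α] [Fintype α] [DecidableEq α]
    [PartialOrder β] [Fintype β] [DecidableEq β] {P : α → Prop} {Q : β → Prop}
    (f : α → β) (g : β → α) (hf : ∀ x, P x → Q (f x)) (hg : ∀ y, Q y → P (g y))
    (fm : ∀ x x', P x → P x' → x ≤ x' → f x ≤ f x')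
    (gm : ∀ y y', Q y → Q y' → y ≤ y' → g y ≤ g y')
    (hfg : ∀ x, P x → x ≤ g (f x)) (hQ : AC (Ch Q)) : AC (Ch P) := by
  have hfi : ∀ s, Ch P s → Ch Q (s.image f) := by
    intro s hs
    refine ⟨fun y hy => ?_, fun y hy y' hy' => ?_⟩
    · obtain ⟨x, hx, rfl⟩ := mem_image.1 hy
      exact hf x (hs.1 x hx)
    · obtain ⟨x, hx, rfl⟩ := mem_image.1 hy
      obtain ⟨x', hx', rfl⟩ := mem_image.1 hy'
      rcases hs.2 x hx x' hx' with h | h
      · exact Or.inl (fm x x' (hs.1 x hx) (hs.1 x' hx') h)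
      · exact Or.inr (fm x' x (hs.1 x' hx') (hs.1 x hx) h)
  have hgi : ∀ s, Ch Q s → Ch P (s.image g) := by
    intro s hs
    refine ⟨fun y hy => ?_, fun y hy y' hy' => ?_⟩
    · obtain ⟨x, hx, rfl⟩ := mem_image.1 hy
      exact hg x (hs.1 x hx)
    · obtain ⟨x, hx, rfl⟩ := mem_image.1 hy
      obtain ⟨x', hx', rfl⟩ := mem_image.1 hy'
      rcases hs.2 x hx x' hx' with h | h
      · exact Or.inl (gm x x' (hs.1 x hx) (hs.1 x' hx') h)
      · exact Or.inr (gm x' x (hs.1 x' hx') (hs.1 x hx) h)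
  refine ac_transfer (Ch P) (Ch Q) ch_dn ch_dn (ch_empty P) (ch_empty Q)
    (fun s T => T ⊆ s.image f) (fun t U => U ⊆ t.image g)
    (fun s U => Ch P U ∧ ∃ m ∈ s, ∀ u ∈ U, m ≤ u)
    ?_ ?_ ?_ ?_ ?_ ?_ ?_ ?_ ?_ ?_ ?_ ?_ ?_ hQ
  · exact fun s t hst _ _ r hr => hr.trans (image_subset_image hst)
  · exact fun s _ _ => empty_subset _
  · exact fun s _ hn => ac_simplex (hn.image f)
  · exact fun s hs _ r hr => ch_dn _ _ hr (hfi s hs)
  · exact fun s t hst _ _ r hr => hr.trans (image_subset_image hst)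
  · exact fun s _ _ => empty_subset _
  · exact fun s _ hn => ac_simplex (hn.image g)
  · exact fun s hs _ r hr => ch_dn _ _ hr (hgi s hs)
  · rintro s t hst _ _ r ⟨h1, m, hm, h2⟩
    exact ⟨h1, m, hst hm, h2⟩
  · intro s hs hn
    obtain ⟨m, hm, h⟩ := ch_min hs hn
    exact ⟨hs, m, hm, h⟩
  · intro s hs hn
    obtain ⟨m, hm, h⟩ := ch_min hs hn
    refine H96H.ac_cone ?_ m ?_
    · rintro U U' hU ⟨h1, m', hm', h2⟩
      exact ⟨ch_dn _ _ hU h1, m', hm', fun u hu => h2 u (hU hu)⟩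
    · rintro U ⟨h1, m', hm', h2⟩
      refine ⟨ch_insert h1 (hs.1 m hm) fun x hx => Or.inl ((h m' hm').trans (h2 x hx)), m, hm, ?_⟩
      intro u hu
      rcases mem_insert.1 hu with h3 | h3
      · rw [h3]
      · exact (h m' hm').trans (h2 u h3)
  · exact fun s _ _ r hr => hr.1
  · intro s t r hs hn h1 _ h3
    refine ⟨ch_dn _ _ (h3.trans (image_subset_image h1)) (hgi _ (hfi s hs)), ?_⟩
    obtain ⟨m, hm, h⟩ := ch_min hs hn
    refine ⟨m, hm, fun u hu => ?_⟩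
    obtain ⟨y, hy, rfl⟩ := mem_image.1 (h3 hu)
    obtain ⟨x, hx, rfl⟩ := mem_image.1 (h1 hy)
    exact (h x hx).trans (hfg x (hs.1 x hx))

/-- SUBDIVISION. -/
theorem ac_sd {E : Type*} [Fintype E] [DecidableEq E] {K : Finset E → Prop} (hK : Dn K)
    (hK0 : K ∅) (hA : AC K) : AC (Ch fun G : Finset E => K G ∧ G.Nonempty) := by
  refine ac_transfer (Ch fun G : Finset E => K G ∧ G.Nonempty) K ch_dn hK (ch_empty _) hK0
    (fun c G => ∃ M ∈ c, G ⊆ M) (fun G => Ch fun F : Finset E => F ⊆ G ∧ F.Nonempty)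
    (fun c => Ch fun F : Finset E => (∃ M ∈ c, F ⊆ M) ∧ F.Nonempty)
    ?_ ?_ ?_ ?_ ?_ ?_ ?_ ?_ ?_ ?_ ?_ ?_ ?_ hA
  · rintro s t hst _ _ r ⟨M, hM, h⟩
    exact ⟨M, hst hM, h⟩
  · rintro s _ ⟨M, hM⟩
    exact ⟨M, hM, empty_subset _⟩
  · intro s hs hn
    obtain ⟨M, hM, h⟩ := ch_max hs hn
    refine ac_congr (K := fun G => G ⊆ M) (fun G => ?_) (ac_simplex (hs.1 M hM).2)
    exact ⟨fun h1 => ⟨M, hM, h1⟩, fun ⟨M', hM', h1⟩ => h1.trans (h M' hM')⟩
  · rintro s hs _ r ⟨M, hM, h⟩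
    exact hK _ _ h (hs.1 M hM).1
  · exact fun s t hst _ _ r hr => ch_mono (fun x hx => ⟨hx.1.trans hst, hx.2⟩) hr
  · exact fun s _ _ => ch_empty _
  · exact fun s _ hn => ac_ch_cone (a := s) ⟨Subset.rfl, hn⟩ fun x hx => Or.inr hx.1
  · exact fun s hs _ r hr => ch_mono (fun x hx => ⟨hK _ _ hx.1 hs, hx.2⟩) hr
  · exact fun s t hst _ _ r hr =>
      ch_mono (fun x hx => ⟨⟨hx.1.choose, hst hx.1.choose_spec.1, hx.1.choose_spec.2⟩, hx.2⟩) hr
  · exact fun s hs _ => ⟨fun x hx => ⟨⟨x, hx, Subset.rfl⟩, (hs.1 x hx).2⟩, hs.2⟩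
  · intro s hs hn
    obtain ⟨M, hM, h⟩ := ch_max hs hn
    refine ac_ch_cone (a := M) ⟨⟨M, hM, Subset.rfl⟩, (hs.1 M hM).2⟩ fun x hx => Or.inr ?_
    obtain ⟨⟨M', hM', h1⟩, -⟩ := hx
    exact h1.trans (h M' hM')
  · intro s hs _ r hr
    refine ch_mono (fun x hx => ?_) hr
    obtain ⟨⟨M', hM', h1⟩, h2⟩ := hx
    exact ⟨hK _ _ h1 (hs.1 M' hM').1, h2⟩
  · rintro s t r hs hn ⟨M, hM, h⟩ _ h3
    exact ch_mono (fun x hx => ⟨⟨M, hM, hx.1.trans h⟩, hx.2⟩) h3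

end H30F
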