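import Pool.Agent.Lib.Sieve.Gap

/-!
# Chunk SVUP

Upper bound sieve for finite sets of natural numbers.

PROOF. `Sieve.fundamental_sum` with `a = 1`: the right hand inequality. Every `u ∈ A` (cast to `ℤ`) lies in
`Finset.Ico 1 (1 + M)` and `∏ (1 - chi Ω p u) = 1` there (`Sieve.prod_one_sub_chi` or: every factor is `1` because
`(u : ZMod p) ∉ Ω p`); all the terms of the sum are `≥ 0` (`chi_le_one`). So `A.card` is at most the sum.
-/

namespace Pool.Agent.Lib.H30F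

open Pool.Agent.Lib.Sieve

theorem sieve_upper (k z M : ℕ) (hz : 2 ≤ z) (Ω : (p : ℕ) → Finset (ZMod p))
    (hΩ : ∀ p, p.Prime → 2 * k + 2 < p → p ≤ z → (Ω p).card ≤ k)
    (hM : z ^ (198 * k + 26) ≤ M) (A : Finset ℕ)
    (hA : ∀ u ∈ A, 1 ≤ u ∧ u ≤ M ∧ ∀ p : ℕ, p.Prime → 2 * k + 2 < p → p ≤ z →
      (u : ZMod p) ∉ Ω p) :
    (A.card : ℝ) ≤ 3 * (M : ℝ) * ∏ p ∈ sprimes (2 * k + 2) z, (1 - dens Ω p) := by
  have hf := (fundamental_sum hz hΩ 1 M hM).2
  refine le_trans ?_ hf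
  have hnn : ∀ u ∈ Finset.Ico (1 : ℤ) (1 + M),
      0 ≤ ∏ p ∈ sprimes (2 * k + 2) z, (1 - chi Ω p u) := by
    intro u _
    apply Finset.prod_nonneg
    intro p _
    linarith [chi_le_one Ω p u]
  have hsub : A.image (fun u : ℕ => (u : ℤ)) ⊆ Finset.Ico (1 : ℤ) (1 + M) := by
    intro v hv
    rw [Finset.mem_image] at hv
    obtain ⟨u, hu, rfl⟩ := hv
    obtain ⟨h1, h2, _⟩ := hA u hu
    rw [Finset.mem_Ico]
    constructor
    · exact_mod_cast h1
    · have : (u : ℤ) ≤ M := by exact_mod_cast h2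
      linarith
  have hone : ∀ v ∈ A.image (fun u : ℕ => (u : ℤ)),
      ∏ p ∈ sprimes (2 * k + 2) z, (1 - chi Ω p v) = 1 := by
    intro v hv
    rw [Finset.mem_image] at hv
    obtain ⟨u, hu, rfl⟩ := hv
    obtain ⟨_, _, h3⟩ := hA u hu
    apply Finset.prod_eq_one
    intro p hp
    have hp' := mem_sprimes.mp hp
    have h4 := h3 p hp'.1 hp'.2.1 hp'.2.2
    unfold chi
    rw [if_neg]
    · ring
    · intro h5
      apply h4
      simpa using h5
  calc (A.card : ℝ) = ((A.image (fun u : ℕ => (u : ℤ))).card : ℝ) := by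
        rw [Finset.card_image_of_injective _ Nat.cast_injective]
    _ = ∑ v ∈ A.image (fun u : ℕ => (u : ℤ)), (1 : ℝ) := by
        rw [Finset.sum_const, nsmul_eq_mul, mul_one]
    _ = ∑ v ∈ A.image (fun u : ℕ => (u : ℤ)),
          ∏ p ∈ sprimes (2 * k + 2) z, (1 - chi Ω p v) :=
        Finset.sum_congr rfl fun v hv => (hone v hv).symm
    _ ≤ _ := Finset.sum_le_sum_of_subset_of_nonneg hsub fun v hv _ => hnn v hv

end Pool.Agent.Lib.H30F
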