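import Pool.Agent.Lib.H63F.F1
import Pool.Agent.Lib.H63F.F4
import Pool.Agent.Lib.H96H.A0

/-!
# H30F, file T: homotopy of a carried chain map to the identity, transfer of acyclicity
-/

set_option autoImplicit false

namespace H30F

open Finset H98P H63F

private theorem t_sym {X : Type*} [DecidableEq X] {g : X → X → ZMod 2}
    (hg : ∀ u v, g u v = g v u) (W : Finset X) : ∑ u ∈ W, ∑ v ∈ W.erase u, g u v = 0 := by
  rw [Finset.sum_sigma']
  refine Finset.sum_involution (fun x _ => (⟨x.2, x.1⟩ : Σ _ : X, X)) ?_ ?_ ?_ ?_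
  · rintro ⟨e, f⟩ hx
    simp only
    rw [hg f e]
    exact CharTwo.add_self_eq_zero _
  · rintro ⟨e, f⟩ hx _ hEq
    simp only [Finset.mem_sigma, Finset.mem_erase] at hx
    have h1 : f = e := congrArg Sigma.fst hEq
    exact hx.2.1 h1
  · rintro ⟨e, f⟩ hx
    simp only [Finset.mem_sigma, Finset.mem_erase] at hx ⊢
    exact ⟨hx.2.2, fun h => hx.2.1 h.symm, hx.1⟩
  · rintro ⟨e, f⟩ hx
    rfl

/-- The indicator chain of one set. -/
def dl {A : Type*} [DecidableEq A] (s r : Finset A) : ZMod 2 := if r = s then 1 else 0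

theorem dl_ne {A : Type*} [DecidableEq A] {s r : Finset A} (h : dl s r ≠ 0) : r = s := by
  by_contra h1
  exact h (if_neg h1)

theorem bd_dl {A : Type*} [Fintype A] [DecidableEq A] (s r : Finset A) :
    bd (dl s) r = ∑ a ∈ s, dl (s.erase a) r := by
  have h := pairing (fun ρ => dl ρ r) (dl s)
  have h1 : ∑ ρ : Finset A, dl ρ r * bd (dl s) ρ = bd (dl s) r := by
    rw [Finset.sum_eq_single r]
    · simp [dl]
    · intro b _ hb
      have : dl b r = 0 := if_neg fun h => hb h.symm
      rw [this, zero_mul]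
    · intro h
      exact absurd (mem_univ _) h
  have h2 : ∑ τ : Finset A, dl s τ * ∑ e ∈ τ, dl (τ.erase e) r = ∑ a ∈ s, dl (s.erase a) r := by
    rw [Finset.sum_eq_single s]
    · simp [dl]
    · intro b _ hb
      have : dl s b = 0 := if_neg hb
      rw [this, zero_mul]
    · intro h
      exact absurd (mem_univ _) h
  rw [← h1, h, h2]

/-- A self chain map of `K` carried by `Θ`, where `Θ s` contains `s`, is homotopic to the identity. -/
theorem htpy {A : Type*} [Fintype A] [DecidableEq A]
    (K : Finset A → Prop) (hK : Dn K) (Θ : Finset A → Finset A → Prop)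
    (hm : ∀ s t, s ⊆ t → K t → s.Nonempty → ∀ r, Θ s r → Θ t r)
    (hs : ∀ s, K s → s.Nonempty → Θ s s) (hac : ∀ s, K s → s.Nonempty → AC (Θ s))
    (g : Finset A → Finset A → ZMod 2) (g0 : ∀ r, g ∅ r = if r = ∅ then 1 else 0)
    (g1 : ∀ s, K s → s.Nonempty → ∀ r, g s r ≠ 0 → Θ s r)
    (g2 : ∀ s, K s → s.Nonempty → ∀ r, bd (g s) r = ∑ a ∈ s, g (s.erase a) r) :
    ∃ h : Finset A → Finset A → ZMod 2, (∀ r, h ∅ r = 0) ∧
      (∀ s, K s → s.Nonempty → ∀ r, h s r ≠ 0 → Θ s r) ∧
      ∀ s, K s → ∀ r, bd (h s) r = dl s r + g s r + ∑ a ∈ s, h (s.erase a) r := by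
  classical
  have base : ∀ r : Finset A, dl ∅ r + g ∅ r = 0 := by
    intro r
    rw [g0]
    exact CharTwo.add_self_eq_zero _
  have g2' : ∀ s, K s → ∀ r, bd (g s) r = ∑ a ∈ s, g (s.erase a) r := by
    intro s hKs r
    rcases s.eq_empty_or_nonempty with h | h
    · subst h
      rw [Finset.sum_empty]
      have e : g ∅ = dl ∅ := by
        funext r
        rw [g0]
        rfl
      rw [e, bd_dl, Finset.sum_empty]
    · exact g2 s hKs h r
  have key : ∀ k : ℕ, ∃ h : Finset A → Finset A → ZMod 2, (∀ r, h ∅ r = 0) ∧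
      (∀ s, K s → s.Nonempty → s.card ≤ k → ∀ r, h s r ≠ 0 → Θ s r) ∧
      ∀ s, K s → s.card ≤ k → ∀ r, bd (h s) r = dl s r + g s r + ∑ a ∈ s, h (s.erase a) r := by
    intro k
    induction k with
    | zero =>
      refine ⟨fun _ _ => 0, fun _ => rfl, ?_, ?_⟩
      · intro s _ hne hc
        have := Finset.card_pos.2 hne
        omega
      · intro s _ hc r
        have h1 : s = ∅ := Finset.card_eq_zero.1 (by omega)
        subst h1
        rw [bd_zero, base, Finset.sum_empty, add_zero]
    | succ k ih =>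
      obtain ⟨h, t0, t1, t2⟩ := ih
      have hex : ∀ s : Finset A, ∃ d : Finset A → ZMod 2, K s → s.card = k + 1 →
          (∀ r, d r ≠ 0 → Θ s r) ∧ ∀ r, bd d r = dl s r + g s r + ∑ a ∈ s, h (s.erase a) r := by
        intro s
        by_cases hks : K s ∧ s.card = k + 1
        · obtain ⟨hKs, hc⟩ := hks
          have hne : s.Nonempty := Finset.card_pos.1 (by omega)
          obtain ⟨c, hc1, hc2⟩ := hac s hKs hne
            (fun r => dl s r + g s r + ∑ a ∈ s, h (s.erase a) r)
            (by
              intro r hr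
              beta_reduce at hr
              by_cases e1 : dl s r = 0
              · by_cases e2 : g s r = 0
                · rw [e1, e2, zero_add, zero_add] at hr
                  obtain ⟨a, ha, har⟩ := Finset.exists_ne_zero_of_sum_ne_zero hr
                  have h1 := Finset.card_erase_add_one ha
                  rcases (s.erase a).eq_empty_or_nonempty with h2 | h2
                  · rw [h2, t0] at har
                    exact absurd rfl har
                  · exact hm _ _ (Finset.erase_subset a s) hKs h2 r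
                      (t1 _ (hK _ _ (Finset.erase_subset a s) hKs) h2 (by omega) r har)
                · exact g1 s hKs hne r e2
              · rw [dl_ne e1]
                exact hs s hKs hne)
            (by
              intro r
              have e1 : bd (fun r => dl s r + g s r + ∑ a ∈ s, h (s.erase a) r) r =
                  bd (dl s) r + bd (g s) r + bd (fun r => ∑ a ∈ s, h (s.erase a) r) r := by
                have e2 := bd_add (fun r => dl s r + g s r) (fun r => ∑ a ∈ s, h (s.erase a) r) r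
                have e3 := bd_add (dl s) (g s) r
                rw [e2, e3]
              rw [e1, bd_sum, bd_dl, g2' s hKs r]
              have h2 : ∀ a ∈ s, bd (h (s.erase a)) r = dl (s.erase a) r + g (s.erase a) r +
                  ∑ b ∈ s.erase a, h ((s.erase a).erase b) r := by
                intro a ha
                have h3 := Finset.card_erase_add_one ha
                exact t2 _ (hK _ _ (Finset.erase_subset a s) hKs) (by omega) r
              rw [Finset.sum_congr rfl h2, Finset.sum_add_distrib, Finset.sum_add_distrib,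
                t_sym (g := fun a b => h ((s.erase a).erase b) r)
                  (fun a b => by rw [Finset.erase_right_comm]) s, add_zero]
              exact CharTwo.add_self_eq_zero _)
          exact ⟨c, fun _ _ => ⟨hc1, hc2⟩⟩
        · exact ⟨fun _ => 0, fun h1 h2 => absurd ⟨h1, h2⟩ hks⟩
      choose d hd using hex
      have hlow : ∀ s : Finset A, s.card ≤ k →
          (if s.card = k + 1 then d s else h s) = h s := by
        intro s hs
        rw [if_neg (by omega)]
      have hsum : ∀ s : Finset A, s.card ≤ k + 1 → ∀ r,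
          ∑ a ∈ s, (if (s.erase a).card = k + 1 then d (s.erase a) else h (s.erase a)) r =
            ∑ a ∈ s, h (s.erase a) r := by
        intro s hs r
        refine Finset.sum_congr rfl fun a ha => ?_
        have h1 := Finset.card_erase_add_one ha
        rw [hlow _ (by omega)]
      refine ⟨fun s => if s.card = k + 1 then d s else h s, ?_, ?_, ?_⟩
      · intro r
        beta_reduce
        rw [hlow ∅ (by simp)]
        exact t0 r
      · intro s hs hne hc r
        beta_reduce
        by_cases h1 : s.card = k + 1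
        · rw [if_pos h1]
          exact (hd s hs h1).1 r
        · rw [if_neg h1]
          exact t1 s hs hne (by omega) r
      · intro s hs hc r
        beta_reduce
        rw [hsum s hc r]
        by_cases h1 : s.card = k + 1
        · rw [if_pos h1]
          exact (hd s hs h1).2 r
        · rw [if_neg h1]
          exact t2 s hs (by omega) r
  obtain ⟨h, t0, t1, t2⟩ := key (Fintype.card A)
  exact ⟨h, t0, fun s hs hne => t1 s hs hne (Finset.card_le_univ s),
    fun s hs => t2 s hs (Finset.card_le_univ s)⟩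

/-- The image of a chain under a chain map. -/
def psh {A B : Type*} [Fintype A] (θ : Finset A → Finset B → ZMod 2) (z : Finset A → ZMod 2)
    (r : Finset B) : ZMod 2 := ∑ s, z s * θ s r

theorem bd_psh {A B : Type*} [Fintype A] [DecidableEq A] [Fintype B] [DecidableEq B]
    (θ : Finset A → Finset B → ZMod 2) (z : Finset A → ZMod 2) (r : Finset B) :
    bd (psh θ z) r = ∑ s, z s * bd (θ s) r := by
  unfold psh
  rw [bd_sum]
  refine Finset.sum_congr rfl fun s _ => ?_
  simp only [bd, Finset.mul_sum]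

/-- `θ` is a chain map on `K`: the image commutes with the boundary. -/
theorem psh_bd {A B : Type*} [Fintype A] [DecidableEq A] [Fintype B] [DecidableEq B]
    {K : Finset A → Prop} (θ : Finset A → Finset B → ZMod 2)
    (θ2 : ∀ s, K s → ∀ r, bd (θ s) r = ∑ a ∈ s, θ (s.erase a) r)
    (z : Finset A → ZMod 2) (hz : ∀ s, z s ≠ 0 → K s) (r : Finset B) :
    bd (psh θ z) r = psh θ (bd z) r := by
  rw [bd_psh]
  have h := pairing (fun s => θ s r) z
  have h1 : psh θ (bd z) r = ∑ ρ : Finset A, θ ρ r * bd z ρ := by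
    unfold psh
    exact Finset.sum_congr rfl fun s _ => mul_comm _ _
  rw [h1, h]
  refine Finset.sum_congr rfl fun s _ => ?_
  by_cases h0 : z s = 0
  · rw [h0, zero_mul, zero_mul]
  · rw [θ2 s (hz s h0) r]

theorem carr_all {A B : Type*} [Fintype A] [DecidableEq A] [Fintype B] [DecidableEq B]
    {K : Finset A → Prop} {θ : Finset A → Finset B → ZMod 2}
    (θ0 : ∀ r, θ ∅ r = if r = ∅ then 1 else 0)
    (θ2 : ∀ s, K s → s.Nonempty → ∀ r, bd (θ s) r = ∑ a ∈ s, θ (s.erase a) r) :
    ∀ s, K s → ∀ r, bd (θ s) r = ∑ a ∈ s, θ (s.erase a) r := by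
  intro s hKs r
  rcases s.eq_empty_or_nonempty with h | h
  · subst h
    rw [Finset.sum_empty]
    have e : θ ∅ = dl ∅ := by
      funext r
      rw [θ0]
      rfl
    rw [e, bd_dl, Finset.sum_empty]
  · exact θ2 s hKs h r

/-- TRANSFER OF ACYCLICITY. -/
theorem ac_transfer {A B : Type*} [Fintype A] [DecidableEq A] [Fintype B] [DecidableEq B]
    (K : Finset A → Prop) (L : Finset B → Prop) (hK : Dn K) (hL : Dn L)
    (hK0 : K ∅) (hL0 : L ∅)
    (Φ : Finset A → Finset B → Prop) (Ψ : Finset B → Finset A → Prop)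
    (Θ : Finset A → Finset A → Prop)
    (Φm : ∀ s t, s ⊆ t → K t → s.Nonempty → ∀ r, Φ s r → Φ t r)
    (Φ0 : ∀ s, K s → s.Nonempty → Φ s ∅) (Φac : ∀ s, K s → s.Nonempty → AC (Φ s))
    (ΦL : ∀ s, K s → s.Nonempty → ∀ r, Φ s r → L r)
    (Ψm : ∀ s t, s ⊆ t → L t → s.Nonempty → ∀ r, Ψ s r → Ψ t r)
    (Ψ0 : ∀ s, L s → s.Nonempty → Ψ s ∅) (Ψac : ∀ s, L s → s.Nonempty → AC (Ψ s))
    (ΨK : ∀ s, L s → s.Nonempty → ∀ r, Ψ s r → K r)
    (Θm : ∀ s t, s ⊆ t → K t → s.Nonempty → ∀ r, Θ s r → Θ t r)
    (Θs : ∀ s, K s → s.Nonempty → Θ s s) (Θac : ∀ s, K s → s.Nonempty → AC (Θ s))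
    (ΘK : ∀ s, K s → s.Nonempty → ∀ r, Θ s r → K r)
    (hc : ∀ s t r, K s → s.Nonempty → Φ s t → t.Nonempty → Ψ t r → Θ s r)
    (hAL : AC L) : AC K := by
  classical
  obtain ⟨θ, θ0, θ1, θ2⟩ := carriers K hK Φ Φm Φ0 Φac
  obtain ⟨ψ, ψ0, ψ1, ψ2⟩ := carriers L hL Ψ Ψm Ψ0 Ψac
  have θ2' := carr_all θ0 θ2
  have ψ2' := carr_all ψ0 ψ2
  have θL : ∀ s, K s → ∀ r, θ s r ≠ 0 → L r := by
    intro s hs r hr
    rcases s.eq_empty_or_nonempty with h | h
    · rw [h, θ0] at hr
      by_cases h1 : r = ∅
      · rw [h1]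
        exact hL0
      · rw [if_neg h1] at hr
        exact absurd rfl hr
    · exact ΦL s hs h r (θ1 s hs h r hr).1
  have ψK : ∀ s, L s → ∀ r, ψ s r ≠ 0 → K r := by
    intro s hs r hr
    rcases s.eq_empty_or_nonempty with h | h
    · rw [h, ψ0] at hr
      by_cases h1 : r = ∅
      · rw [h1]
        exact hK0
      · rw [if_neg h1] at hr
        exact absurd rfl hr
    · exact ΨK s hs h r (ψ1 s hs h r hr).1
  obtain ⟨g, hg⟩ : ∃ g : Finset A → Finset A → ZMod 2, ∀ s r, g s r = psh ψ (θ s) r :=
    ⟨fun s r => psh ψ (θ s) r, fun _ _ => rfl⟩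
  have g0 : ∀ r, g ∅ r = if r = ∅ then 1 else 0 := by
    intro r
    rw [hg]
    unfold psh
    rw [Finset.sum_eq_single ∅]
    · rw [θ0, if_pos rfl, one_mul, ψ0]
    · intro T _ hT
      rw [θ0, if_neg hT, zero_mul]
    · intro h
      exact absurd (mem_univ _) h
  have g1 : ∀ s, K s → s.Nonempty → ∀ r, g s r ≠ 0 → Θ s r := by
    intro s hs hne r hr
    rw [hg] at hr
    unfold psh at hr
    obtain ⟨t, _, ht⟩ := Finset.exists_ne_zero_of_sum_ne_zero hr
    obtain ⟨h1, h2⟩ := θ1 s hs hne t (left_ne_zero_of_mul ht)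
    have htn : t.Nonempty := Finset.card_pos.mp (by rw [h2]; exact Finset.card_pos.mpr hne)
    have h3 := (ψ1 t (ΦL s hs hne t h1) htn r (right_ne_zero_of_mul ht)).1
    exact hc s t r hs hne h1 htn h3
  have g2 : ∀ s, K s → s.Nonempty → ∀ r, bd (g s) r = ∑ a ∈ s, g (s.erase a) r := by
    intro s hs hne r
    have e0 : g s = psh ψ (θ s) := by
      funext r
      exact hg s r
    rw [e0, psh_bd ψ ψ2' (θ s) (θL s hs) r]
    unfold psh
    have e1 : ∀ t : Finset B, bd (θ s) t * ψ t r = ∑ a ∈ s, θ (s.erase a) t * ψ t r := by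
      intro t
      rw [θ2' s hs t, Finset.sum_mul]
    rw [Finset.sum_congr rfl fun t _ => e1 t, Finset.sum_comm]
    refine Finset.sum_congr rfl fun a _ => ?_
    rw [hg]
    rfl
  obtain ⟨h, h0, h1, h2⟩ := htpy K hK Θ Θm Θs Θac g g0 g1 g2
  intro z hz hbz
  -- the image in `L`
  have hzL : ∀ r, psh θ z r ≠ 0 → L r := by
    intro r hr
    unfold psh at hr
    obtain ⟨s, _, hs⟩ := Finset.exists_ne_zero_of_sum_ne_zero hr
    exact θL s (hz s (left_ne_zero_of_mul hs)) r (right_ne_zero_of_mul hs)
  have hzb : ∀ r, bd (psh θ z) r = 0 := by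
    intro r
    rw [psh_bd θ θ2' z hz r]
    unfold psh
    refine Finset.sum_eq_zero fun s _ => ?_
    rw [hbz, zero_mul]
  obtain ⟨b, hb1, hb2⟩ := hAL _ hzL hzb
  refine ⟨fun r => psh ψ b r + psh h z r, ?_, ?_⟩
  · intro r hr
    by_cases e1 : psh ψ b r = 0
    · beta_reduce at hr
      rw [e1, zero_add] at hr
      unfold psh at hr
      obtain ⟨s, _, hs⟩ := Finset.exists_ne_zero_of_sum_ne_zero hr
      have hKs := hz s (left_ne_zero_of_mul hs)
      have hne : s.Nonempty := by
        rcases s.eq_empty_or_nonempty with h3 | h3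
        · rw [h3, h0, mul_zero] at hs
          exact absurd rfl hs
        · exact h3
      exact ΘK s hKs hne r (h1 s hKs hne r (right_ne_zero_of_mul hs))
    · unfold psh at e1
      obtain ⟨s, _, hs⟩ := Finset.exists_ne_zero_of_sum_ne_zero e1
      exact ψK s (hb1 s (left_ne_zero_of_mul hs)) r (right_ne_zero_of_mul hs)
  · intro r
    rw [bd_add, psh_bd ψ ψ2' b hb1 r, bd_psh]
    have e1 : psh ψ (bd b) r = psh ψ (psh θ z) r := by
      unfold psh
      refine Finset.sum_congr rfl fun s _ => ?_
      rw [hb2]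
      rfl
    have e2 : psh ψ (psh θ z) r = ∑ s, z s * g s r := by
      unfold psh
      have e3 : ∀ t : Finset B, (∑ s, z s * θ s t) * ψ t r = ∑ s, z s * (θ s t * ψ t r) := by
        intro t
        rw [Finset.sum_mul]
        exact Finset.sum_congr rfl fun s _ => by ring
      rw [Finset.sum_congr rfl fun t _ => e3 t, Finset.sum_comm]
      refine Finset.sum_congr rfl fun s _ => ?_
      rw [← Finset.mul_sum, hg]
      rfl
    have e4 : ∀ s : Finset A, z s * bd (h s) r =
        z s * dl s r + z s * g s r + z s * ∑ a ∈ s, h (s.erase a) r := by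
      intro s
      by_cases h0 : z s = 0
      · rw [h0]
        ring
      · rw [h2 s (hz s h0) r]
        ring
    rw [e1, e2, Finset.sum_congr rfl fun s _ => e4 s, Finset.sum_add_distrib,
      Finset.sum_add_distrib]
    have e5 : ∑ s : Finset A, z s * dl s r = z r := by
      rw [Finset.sum_eq_single r]
      · simp [dl]
      · intro b _ hb
        have : dl b r = 0 := if_neg fun h => hb h.symm
        rw [this, mul_zero]
      · intro h
        exact absurd (mem_univ _) h
    have e6 : ∑ s : Finset A, z s * ∑ a ∈ s, h (s.erase a) r = 0 := by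
      have h7 := pairing (fun s => h s r) z
      rw [← h7]
      refine Finset.sum_eq_zero fun s _ => ?_
      rw [hbz, mul_zero]
    rw [e5, e6, add_zero]
    have h8 := CharTwo.add_self_eq_zero (∑ s : Finset A, z s * g s r)
    linear_combination h8

end H30F
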