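import Mathlib

/-!
# Chunk TWOPOW

If `n` has at least `K + 2` distinct prime factors then `2 ^ (K + 1) ∣ φ(n)`.

PROOF. `φ(n) = ∏_{p ∣ n} p^(k-1) (p-1)` (`Nat.totient_eq_prod_factorization`), so `∏_{p ∈ n.primeFactors} (p - 1)` divides
`φ(n)`. (`Nat.totient_eq_mul_prod_factors`, `Nat.prod_primeFactors_dvd`... also possible.) The product over
`n.primeFactors.erase 2` divides it, every factor `p - 1` is even (`p` odd prime), and
`n.primeFactors.erase 2` has at least `K + 1` elements (`Finset.card_erase_ge..`/`Finset.pred_card_le_card_erase`);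
`Finset.prod_dvd_prod_of_dvd` with the constant function `2` gives `2 ^ card ∣ ∏ (p - 1)`.
-/

namespace Pool.Agent.Lib.H30F

theorem two_pow_dvd_totient (n K : ℕ) (hn : n ≠ 0) (h : K + 2 ≤ n.primeFactors.card) :
    2 ^ (K + 1) ∣ Nat.totient n := by
  have h0 : n ≠ 0 := hn
  have h1 : ∏ p ∈ n.primeFactors, (p - 1) ∣ Nat.totient n :=
    Dvd.intro_left _ (Nat.totient_eq_div_primeFactors_mul n).symm
  have h2 : ∏ p ∈ n.primeFactors.erase 2, (p - 1) ∣ ∏ p ∈ n.primeFactors, (p - 1) :=
    Finset.prod_dvd_prod_of_subset _ _ _ (Finset.erase_subset _ _)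
  have h3 : ∏ _p ∈ n.primeFactors.erase 2, 2 ∣ ∏ p ∈ n.primeFactors.erase 2, (p - 1) := by
    apply Finset.prod_dvd_prod_of_dvd
    intro p hp
    have hp2 : p ≠ 2 := (Finset.mem_erase.mp hp).1
    have hpp : p.Prime := Nat.prime_of_mem_primeFactors (Finset.mem_erase.mp hp).2
    have hodd : Odd p := hpp.odd_of_ne_two hp2
    exact (Nat.Odd.sub_odd hodd odd_one).two_dvd
  rw [Finset.prod_const] at h3
  have h4 : K + 1 ≤ (n.primeFactors.erase 2).card := by
    have := Finset.pred_card_le_card_erase (s := n.primeFactors) (a := 2)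
    omega
  exact (pow_dvd_pow 2 h4).trans (h3.trans (h2.trans h1))

end Pool.Agent.Lib.H30F
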